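import Mathlib

set_option autoImplicit false

/-!
# Orbit averages of antichain sizes in the root posets Delta(1): common definitions

Roots are written in simple-root coordinates, as vectors `Fin n → ℤ`.  `M i j` is the Cartan
integer `⟨α_i, α_j^∨⟩` (Bourbaki's convention, the one of `CartanMatrix` in Mathlib), so the
simple reflection `s_j` sends `v` to `v - (∑ i, v i * M i j) α_j`.
-/

namespace Pool.Agent.TH657.Pan

/-- `v` (in simple-root coordinates) is a root of the root system with Cartan matrix `M`: the
roots are the images of the simple roots under products of simple reflections. -/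
inductive IsRoot {n : ℕ} (M : Matrix (Fin n) (Fin n) ℤ) : (Fin n → ℤ) → Prop
  | simple (i : Fin n) : IsRoot M (Pi.single i 1)
  | reflect (j : Fin n) (v : Fin n → ℤ) :
      IsRoot M v → IsRoot M (v - Pi.single j (∑ i, v i * M i j))

/-- `Delta(1)` of the 1-standard grading attached to the simple root `α_k`: the roots whose
`α_k`-coefficient is 1. It is ordered as a subset of `Fin n → ℤ` (coordinatewise), which is the
root order. -/
def Delta1 {n : ℕ} (M : Matrix (Fin n) (Fin n) ℤ) (k : Fin n) : Set (Fin n → ℤ) :=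
  {v | IsRoot M v ∧ v k = 1}

section Rowmotion

variable {P : Type*} [PartialOrder P]

/-- The upper ideal of the poset `S` generated by `A`. -/
def upIdeal (S A : Set P) : Set P := {v | v ∈ S ∧ ∃ a ∈ A, a ≤ v}

/-- The reverse operator of the poset `S`: the set of the maximal elements of `S \ I(A)`. -/
def rev (S A : Set P) : Set P := {v | Maximal (fun w => w ∈ S \ upIdeal S A) v}

/-- Whenever `T` steps of the reverse operator bring the antichain `A` back, the sizes of the
antichains met in these `T` steps sum up to `T * #S / q`. -/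
def Homomesy (S : Set P) (q : ℕ) : Prop :=
  S.Finite ∧ ∀ A : Set P, A ⊆ S → IsAntichain (· ≤ ·) A → ∀ T : ℕ, (rev S)^[T] A = A →
    q * ∑ t ∈ Finset.range T, ((rev S)^[t] A).ncard = T * S.ncard

/-- `S` (a finite set in the poset `P`) is isomorphic to the set `T` of integral vectors, and the
sum of the coordinates of the image of `p` is `rk p + 1`. -/
def Model {n : ℕ} (S : Set P) (rk : P → ℕ) (T : Set (Fin n → ℤ)) : Prop :=
  ∃ f : P → (Fin n → ℤ), (∀ p ∈ S, ∀ q ∈ S, (f p ≤ f q ↔ p ≤ q)) ∧ f '' S = T ∧
    ∀ p ∈ S, ∑ i, f p i = (rk p : ℤ) + 1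

end Rowmotion

/-- The product of two chains with `a` and `b` elements. -/
def rect (a b : ℕ) : Set (ℕ × ℕ) := {p | p.1 < a ∧ p.2 < b}

/-- The staircase with `n (n + 1) / 2` elements. -/
def stair (n : ℕ) : Set (ℕ × ℕ) := {p | p.1 ≤ p.2 ∧ p.2 < n}

/-- The product of a chain with `a` elements and of the poset with `2 m` elements which is a chain
with `m - 1` elements, two incomparable elements and a chain with `m - 1` elements (`m ≥ 2`);
the latter is realised inside `ℕ × ℕ` as
`(0,0) < ... < (m-2,0) < (m-1,0), (m-2,1) < (m-1,1) < ... < (2m-3,1)`. -/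
def diam (a m : ℕ) : Set (ℕ × ℕ × ℕ) :=
  {p | p.1 < a ∧ ((p.2.2 = 0 ∧ p.2.1 < m) ∨ (p.2.2 = 1 ∧ m ≤ p.2.1 + 2 ∧ p.2.1 + 3 ≤ 2 * m))}

end Pool.Agent.TH657.Pan
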