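import Mathlib
import Pool.Agent.TH657.Pan.Defs

set_option autoImplicit false

namespace Pool.Agent.TH657.Pan

open Finset Classical

section Product

variable {Q : Type*} [PartialOrder Q]

/-- The product of the chain `0 < ... < a-1` and of the finite poset `R`. -/
def prodSet (a : ℕ) (R : Set Q) : Set (ℕ × Q) := {p | p.1 < a ∧ p.2 ∈ R}

def col (A : Set (ℕ × Q)) (p : Q) : Prop := ∃ x, (x, p) ∈ A
def row (A : Set (ℕ × Q)) (j : ℕ) : Prop := ∃ p, (j, p) ∈ A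

theorem rev_subset {P : Type*} [PartialOrder P] (S A : Set P) : rev S A ⊆ S := by
  intro v hv
  exact hv.prop.1

theorem rev_antichain {P : Type*} [PartialOrder P] (S A : Set P) :
    IsAntichain (· ≤ ·) (rev S A) := by
  intro v hv w hw hne hle
  exact hne (le_antisymm hle (hv.le_of_ge hw.prop hle))

theorem mem_rev {P : Type*} [PartialOrder P] {S A : Set P} {v : P} :
    v ∈ rev S A ↔ v ∈ S ∧ (∀ b ∈ A, ¬ b ≤ v) ∧
      ∀ w ∈ S, (∀ b ∈ A, ¬ b ≤ w) → v ≤ w → w ≤ v := by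
  constructor
  · intro h
    obtain ⟨h1, h2⟩ := h
    have h3 : ∀ b ∈ A, ¬ b ≤ v := by
      intro b hb hle
      exact h1.2 ⟨h1.1, b, hb, hle⟩
    refine ⟨h1.1, h3, ?_⟩
    intro w hw hb hle
    exact h2 ⟨hw, fun hu => by obtain ⟨_, b, hb', hle'⟩ := hu; exact hb b hb' hle'⟩ hle
  · rintro ⟨h1, h2, h3⟩
    refine ⟨⟨h1, fun hu => by obtain ⟨_, b, hb', hle'⟩ := hu; exact h2 b hb' hle'⟩, ?_⟩
    intro w hw hle
    refine h3 w hw.1 ?_ hle
    intro b hb hle'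
    exact hw.2 ⟨hw.1, b, hb, hle'⟩

variable {a : ℕ} {R : Set Q} {A : Set (ℕ × Q)}

theorem exists_rev_in_col {p : Q} (hp : p ∈ R) {x0 : ℕ} (hx0 : x0 < a)
    (h0 : ∀ b ∈ A, ¬ b ≤ (x0, p)) (h : ∀ r ∈ R, p < r → ∃ b ∈ A, b ≤ (x0, r)) :
    col (rev (prodSet a R) A) p := by
  obtain ⟨x, hx, hmax⟩ := ((Finset.range a).filter
    (fun x => x0 ≤ x ∧ ∀ b ∈ A, ¬ b ≤ (x, p))).exists_max_image id
    ⟨x0, by simp only [Finset.mem_filter, Finset.mem_range]; exact ⟨hx0, le_refl _, h0⟩⟩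
  simp only [Finset.mem_filter, Finset.mem_range, id] at hx hmax
  obtain ⟨hxa, hx0x, hxU⟩ := hx
  refine ⟨x, mem_rev.2 ⟨⟨hxa, hp⟩, hxU, ?_⟩⟩
  rintro ⟨y, r⟩ ⟨hya, hr⟩ hw hle
  obtain ⟨hle1, hle2⟩ := hle
  simp only at hle1 hle2 hya hr
  rcases eq_or_lt_of_le hle2 with heq | hlt
  · subst heq
    exact ⟨hmax y ⟨hya, hx0x.trans hle1, hw⟩, le_refl _⟩
  · exfalso
    obtain ⟨b, hb, hbl⟩ := h r hr hlt
    exact hw b hb (hbl.trans ⟨hx0x.trans hle1, le_refl _⟩)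

theorem exists_rev_in_row (hR : R.Finite) {j : ℕ} (hj : j < a) {p0 : Q} (hp0 : p0 ∈ R)
    (h0 : ∀ b ∈ A, ¬ b ≤ (j, p0)) (h : j + 1 < a → ∃ b ∈ A, b ≤ (j + 1, p0)) :
    row (rev (prodSet a R) A) j := by
  have hfin : {p | p ∈ R ∧ p0 ≤ p ∧ ∀ b ∈ A, ¬ b ≤ (j, p)}.Finite :=
    hR.subset (fun p hp => hp.1)
  obtain ⟨p, hp⟩ := hfin.exists_maximal ⟨p0, hp0, le_refl _, h0⟩
  obtain ⟨⟨hpR, hp0p, hpU⟩, hmax⟩ := hp
  refine ⟨p, mem_rev.2 ⟨⟨hj, hpR⟩, hpU, ?_⟩⟩
  rintro ⟨y, r⟩ ⟨hya, hr⟩ hw hle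
  obtain ⟨hle1, hle2⟩ := hle
  simp only at hle1 hle2 hya hr
  rcases eq_or_lt_of_le hle1 with heq | hlt
  · subst heq
    exact ⟨le_refl _, hmax ⟨hr, hp0p.trans hle2, hw⟩ hle2⟩
  · exfalso
    obtain ⟨b, hb, hbl⟩ := h (by omega)
    exact hw b hb (hbl.trans ⟨hlt, hp0p.trans hle2⟩)

/-- A strictly smaller element than an element of the antichain is not above an element of it. -/
theorem not_above (hA : IsAntichain (· ≤ ·) A) {c v : ℕ × Q} (hc : c ∈ A) (hv : v < c) :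
    ∀ b ∈ A, ¬ b ≤ v := by
  intro b hb hle
  have hbc : b ≤ c := hle.trans hv.le
  have := hA.eq hb hc hbc
  subst this
  exact absurd hle (not_le_of_gt hv)

theorem row_rev (hA : IsAntichain (· ≤ ·) A) (hAS : A ⊆ prodSet a R) (hR : R.Finite) {j : ℕ}
    (hj : j + 1 < a) : row (rev (prodSet a R) A) j ↔ row A (j + 1) := by
  constructor
  · rintro ⟨p, hp⟩
    obtain ⟨⟨hja, hpR⟩, hU, hmax⟩ := mem_rev.1 hp
    by_contra hrow
    have hw : ∀ b ∈ A, ¬ b ≤ (j + 1, p) := by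
      intro b hb hle
      obtain ⟨h1, h2⟩ := hle
      simp only at h1 h2
      rcases Nat.lt_or_ge b.1 (j + 1) with h3 | h3
      · exact hU b hb ⟨by simp only; omega, h2⟩
      · exact hrow ⟨b.2, by have : b.1 = j + 1 := by omega
                            rw [← this]; exact hb⟩
    have := hmax (j + 1, p) ⟨hj, hpR⟩ hw ⟨by simp, le_refl _⟩
    have := this.1
    simp only at this
    omega
  · rintro ⟨p, hp⟩
    have hpR : p ∈ R := (hAS hp).2
    refine exists_rev_in_row hR (by omega) hpR ?_ (fun _ => ⟨_, hp, le_refl _⟩)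
    exact not_above hA hp (by
      refine lt_of_le_of_ne ⟨by simp, le_refl _⟩ ?_
      intro h
      have := congrArg Prod.fst h
      simp only at this
      omega)

theorem row_rev_last (hR : R.Finite) {bot : Q} (hbot : bot ∈ R) (hb : ∀ r ∈ R, bot ≤ r)
    (hAS : A ⊆ prodSet a R) {j : ℕ} (hj : j + 1 = a) :
    row (rev (prodSet a R) A) j ↔ ¬ col A bot := by
  constructor
  · rintro ⟨p, hp⟩ ⟨x, hx⟩
    obtain ⟨⟨hja, hpR⟩, hU, hmax⟩ := mem_rev.1 hp
    have hxa : x < a := (hAS hx).1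
    exact hU _ hx ⟨by simp only; omega, hb _ hpR⟩
  · intro h
    refine exists_rev_in_row hR (by omega) hbot ?_ (fun h' => by omega)
    rintro ⟨x, q⟩ hb' ⟨h1, h2⟩
    simp only at h1 h2
    have hq : q ∈ R := (hAS hb').2
    have : q = bot := le_antisymm h2 (hb q hq)
    subst this
    exact h ⟨x, hb'⟩

theorem col_rev (hA : IsAntichain (· ≤ ·) A) (hAS : A ⊆ prodSet a R)
    {p p' : Q} (hp : p ∈ R) (hp' : p' ∈ R) (hlt : p < p')
    (h1 : ∀ r ∈ R, p < r → p' ≤ r) (h2 : ∀ r ∈ R, r < p' → r ≤ p) :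
    col (rev (prodSet a R) A) p ↔ col A p' := by
  constructor
  · rintro ⟨x, hx⟩
    obtain ⟨⟨hxa, hpR⟩, hU, hmax⟩ := mem_rev.1 hx
    by_contra hcol
    have hw : ∀ b ∈ A, ¬ b ≤ (x, p') := by
      rintro ⟨y, r⟩ hb ⟨h3, h4⟩
      simp only at h3 h4
      rcases eq_or_lt_of_le h4 with h5 | h5
      · subst h5; exact hcol ⟨y, hb⟩
      · exact hU _ hb ⟨h3, h2 r (hAS hb).2 h5⟩
    have := hmax (x, p') ⟨hxa, hp'⟩ hw ⟨le_refl _, hlt.le⟩
    exact absurd this.2 (not_le_of_gt hlt)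
  · rintro ⟨x, hx⟩
    have hxa : x < a := (hAS hx).1
    refine exists_rev_in_col hp hxa ?_ ?_
    · exact not_above hA hx (by
        refine lt_of_le_of_ne ⟨le_refl _, hlt.le⟩ ?_
        intro h
        exact hlt.ne (congrArg Prod.snd h))
    · intro r hr hpr
      exact ⟨_, hx, ⟨le_refl _, h1 r hr hpr⟩⟩

theorem col_rev_top {top : Q} (htop : top ∈ R) (ht : ∀ r ∈ R, r ≤ top) (ha : 0 < a)
    (hAS : A ⊆ prodSet a R) : col (rev (prodSet a R) A) top ↔ ¬ row A 0 := by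
  constructor
  · rintro ⟨x, hx⟩ ⟨q, hq⟩
    obtain ⟨⟨hxa, hpR⟩, hU, hmax⟩ := mem_rev.1 hx
    exact hU _ hq ⟨by simp, ht _ (hAS hq).2⟩
  · intro h
    refine exists_rev_in_col htop ha ?_ ?_
    · rintro ⟨y, r⟩ hb ⟨h3, h4⟩
      simp only at h3
      have : y = 0 := by omega
      subst this
      exact h ⟨r, hb⟩
    · intro r hr hlt
      exact absurd (ht r hr) (not_le_of_gt hlt)

/-- Two middle elements `u`, `v` above `p`. -/
theorem col_rev_two (hA : IsAntichain (· ≤ ·) A) (hAS : A ⊆ prodSet a R)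
    {p u v : Q} (hp : p ∈ R) (hu : u ∈ R) (hv : v ∈ R) (hpu : p < u) (hpv : p < v)
    (h1 : ∀ r ∈ R, p < r → u ≤ r ∨ v ≤ r) (h2 : ∀ r ∈ R, r < u → r ≤ p)
    (h3 : ∀ r ∈ R, r < v → r ≤ p) :
    col (rev (prodSet a R) A) p ↔ (col A u ∧ col A v) := by
  have key : ∀ u' : Q, u' ∈ R → p < u' → (∀ r ∈ R, r < u' → r ≤ p) →
      col (rev (prodSet a R) A) p → col A u' := by
    rintro u' hu' hpu' h2' ⟨x, hx⟩
    obtain ⟨⟨hxa, hpR⟩, hU, hmax⟩ := mem_rev.1 hx
    by_contra hcol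
    have hw : ∀ b ∈ A, ¬ b ≤ (x, u') := by
      rintro ⟨y, r⟩ hb ⟨h3, h4⟩
      simp only at h3 h4
      rcases eq_or_lt_of_le h4 with h5 | h5
      · subst h5; exact hcol ⟨y, hb⟩
      · exact hU _ hb ⟨h3, h2' r (hAS hb).2 h5⟩
    have := hmax (x, u') ⟨hxa, hu'⟩ hw ⟨le_refl _, hpu'.le⟩
    exact absurd this.2 (not_le_of_gt hpu')
  constructor
  · intro h
    exact ⟨key u hu hpu h2 h, key v hv hpv h3 h⟩
  · rintro ⟨⟨s, hs⟩, ⟨t, ht⟩⟩
    have hsa : s < a := (hAS hs).1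
    have hta : t < a := (hAS ht).1
    have hsU : ∀ b ∈ A, ¬ b ≤ (s, p) := not_above hA hs (by
        refine lt_of_le_of_ne ⟨le_refl _, hpu.le⟩ ?_
        intro h
        exact hpu.ne (congrArg Prod.snd h))
    have htU : ∀ b ∈ A, ¬ b ≤ (t, p) := not_above hA ht (by
        refine lt_of_le_of_ne ⟨le_refl _, hpv.le⟩ ?_
        intro h
        exact hpv.ne (congrArg Prod.snd h))
    rcases le_total s t with hst | hst
    · refine exists_rev_in_col hp hta htU ?_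
      intro r hr hpr
      rcases h1 r hr hpr with h | h
      · exact ⟨_, hs, ⟨hst, h⟩⟩
      · exact ⟨_, ht, ⟨le_refl _, h⟩⟩
    · refine exists_rev_in_col hp hsa hsU ?_
      intro r hr hpr
      rcases h1 r hr hpr with h | h
      · exact ⟨_, hs, ⟨le_refl _, h⟩⟩
      · exact ⟨_, ht, ⟨hst, h⟩⟩

/-- Two middle elements `u`, `v` below `y`. -/
theorem col_rev_mid (hA : IsAntichain (· ≤ ·) A) (hAS : A ⊆ prodSet a R)
    {y u v : Q} (hy : y ∈ R) (hu : u ∈ R) (hv : v ∈ R) (huy : u < y) (hvy : v < y)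
    (h1 : ∀ r ∈ R, u < r → y ≤ r) (h1' : ∀ r ∈ R, v < r → y ≤ r)
    (h2 : ∀ r ∈ R, r < y → r ≤ u ∨ r ≤ v) :
    (col (rev (prodSet a R) A) u ∧ col (rev (prodSet a R) A) v) ↔ col A y := by
  constructor
  · rintro ⟨⟨s, hs⟩, ⟨t, ht⟩⟩
    obtain ⟨⟨hsa, _⟩, hsU, hsmax⟩ := mem_rev.1 hs
    obtain ⟨⟨hta, _⟩, htU, htmax⟩ := mem_rev.1 ht
    by_contra hcol
    have h5 : ∃ b ∈ A, b ≤ (s, y) := by
      by_contra hno
      push_neg at hno
      exact absurd (hsmax (s, y) ⟨hsa, hy⟩ hno ⟨le_refl _, huy.le⟩).2 (not_le_of_gt huy)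
    have h6 : ∃ b ∈ A, b ≤ (t, y) := by
      by_contra hno
      push_neg at hno
      exact absurd (htmax (t, y) ⟨hta, hy⟩ hno ⟨le_refl _, hvy.le⟩).2 (not_le_of_gt hvy)
    obtain ⟨⟨x, r⟩, hb, h7, h8⟩ := h5
    obtain ⟨⟨x', r'⟩, hb', h7', h8'⟩ := h6
    simp only at h7 h8 h7' h8'
    have hry : r ≠ y := by rintro rfl; exact hcol ⟨x, hb⟩
    have hry' : r' ≠ y := by rintro rfl; exact hcol ⟨x', hb'⟩
    have hrv : r ≤ v := by
      rcases h2 r (hAS hb).2 (lt_of_le_of_ne h8 hry) with h | h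
      · exact absurd (show ((x, r) : ℕ × Q) ≤ (s, u) from ⟨h7, h⟩) (hsU _ hb)
      · exact h
    have hru : r' ≤ u := by
      rcases h2 r' (hAS hb').2 (lt_of_le_of_ne h8' hry') with h | h
      · exact h
      · exact absurd (show ((x', r') : ℕ × Q) ≤ (t, v) from ⟨h7', h⟩) (htU _ hb')
    have h9 : t < x := by
      by_contra hno
      exact htU _ hb ⟨by simp only; omega, hrv⟩
    have h10 : s < x' := by
      by_contra hno
      exact hsU _ hb' ⟨by simp only; omega, hru⟩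
    omega
  · rintro ⟨x, hx⟩
    have hxa : x < a := (hAS hx).1
    constructor
    · refine exists_rev_in_col hu hxa ?_ ?_
      · exact not_above hA hx (by
          refine lt_of_le_of_ne ⟨le_refl _, huy.le⟩ ?_
          intro h
          exact huy.ne (congrArg Prod.snd h))
      · intro r hr hpr
        exact ⟨_, hx, ⟨le_refl _, h1 r hr hpr⟩⟩
    · refine exists_rev_in_col hv hxa ?_ ?_
      · exact not_above hA hx (by
          refine lt_of_le_of_ne ⟨le_refl _, hvy.le⟩ ?_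
          intro h
          exact hvy.ne (congrArg Prod.snd h))
      · intro r hr hpr
        exact ⟨_, hx, ⟨le_refl _, h1' r hr hpr⟩⟩

end Product

/-- Averaging along a rotating word: if the letters `w t 0, ..., w t (q-1)` move by one place at
each step and the words at times `0` and `T` coincide, every position sees the same total, and the
number of ones is constant. -/
theorem rotate_const {q : ℕ} (hq : 0 < q) (w : ℕ → ℕ → ℕ)
    (h1 : ∀ t i, i + 1 < q → w (t + 1) i = w t (i + 1)) (h2 : ∀ t, w (t + 1) (q - 1) = w t 0)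
    (t : ℕ) : ∑ i ∈ range q, w t i = ∑ i ∈ range q, w 0 i := by
  induction t with
  | zero => rfl
  | succ t ih =>
    rw [← ih]
    obtain ⟨q, rfl⟩ : ∃ q', q = q' + 1 := ⟨q - 1, by omega⟩
    rw [Finset.sum_range_succ, Finset.sum_range_succ' (fun i => w t i)]
    have h3 := h2 t
    simp only [Nat.add_sub_cancel] at h3
    rw [h3]
    congr 1
    exact Finset.sum_congr rfl (fun i hi => h1 t i (by simp at hi; omega))

theorem rotate_pos {q T : ℕ} (w : ℕ → ℕ → ℕ)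
    (h1 : ∀ t i, i + 1 < q → w (t + 1) i = w t (i + 1))
    (hT : ∀ i, w T i = w 0 i) (i : ℕ) (hi : i < q) :
    ∑ t ∈ range T, w t i = ∑ t ∈ range T, w t 0 := by
  induction i with
  | zero => rfl
  | succ i ih =>
    rw [← ih (by omega)]
    have h3 : ∑ t ∈ range T, w t (i + 1) = ∑ t ∈ range T, w (t + 1) i :=
      Finset.sum_congr rfl (fun t _ => (h1 t i hi).symm)
    rw [h3]
    have h4 := Finset.sum_range_succ (fun t => w t i) T
    have h5 := Finset.sum_range_succ' (fun t => w t i) T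
    rw [h4] at h5
    have h6 := hT i
    omega

theorem rotate_avg {q T : ℕ} (hq : 0 < q) (w : ℕ → ℕ → ℕ)
    (h1 : ∀ t i, i + 1 < q → w (t + 1) i = w t (i + 1)) (h2 : ∀ t, w (t + 1) (q - 1) = w t 0)
    (hT : ∀ i, w T i = w 0 i) :
    q * ∑ t ∈ range T, w t 0 = T * ∑ i ∈ range q, w 0 i := by
  have h3 : ∑ i ∈ range q, ∑ t ∈ range T, w t i = q * ∑ t ∈ range T, w t 0 := by
    rw [Finset.sum_congr rfl (fun i hi => rotate_pos w h1 hT i (Finset.mem_range.1 hi))]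
    simp
  have h4 : ∑ t ∈ range T, ∑ i ∈ range q, w t i = T * ∑ i ∈ range q, w 0 i := by
    rw [Finset.sum_congr rfl (fun t _ => rotate_const hq w h1 h2 t)]
    simp
  rw [← h3, ← h4, Finset.sum_comm]

end Pool.Agent.TH657.Pan
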