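import Mathlib
import Pool.Agent.TH657.Pan.Defs
import Pool.Agent.TH657.Pan.Rot

set_option autoImplicit false

namespace Pool.Agent.TH657.Pan

open Finset Classical

/-- Indicator. -/
noncomputable def ind (p : Prop) : ℕ := if p then 1 else 0

theorem ind_congr {p q : Prop} (h : p ↔ q) : ind p = ind q := by
  unfold ind; simp [h]

theorem ind_le_one (p : Prop) : ind p ≤ 1 := by unfold ind; split_ifs <;> omega

theorem sum_ind {α : Type*} (s : Finset α) (p : α → Prop) :
    ∑ i ∈ s, ind (p i) = ({i | i ∈ s ∧ p i} : Set α).ncard := by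
  have h : ({i | i ∈ s ∧ p i} : Set α) = ((s.filter p : Finset α) : Set α) := by
    ext i; simp
  rw [h, Set.ncard_coe_finset]
  unfold ind
  rw [Finset.card_filter]

section Product

variable {Q : Type*} [PartialOrder Q] {a : ℕ} {R : Set Q} {A : Set (ℕ × Q)}

theorem snd_injOn (hA : IsAntichain (· ≤ ·) A) : Set.InjOn Prod.snd A := by
  rintro ⟨x, p⟩ h1 ⟨y, r⟩ h2 h
  simp only at h
  subst h
  rcases le_total x y with h3 | h3
  · exact hA.eq h1 h2 ⟨h3, le_refl _⟩
  · exact (hA.eq h2 h1 ⟨h3, le_refl _⟩).symm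

theorem ncard_eq_cols (hA : IsAntichain (· ≤ ·) A) (hAS : A ⊆ prodSet a R) (F : Finset Q)
    (hF : ∀ r, r ∈ F ↔ r ∈ R) : A.ncard = ∑ p ∈ F, ind (col A p) := by
  rw [sum_ind, ← (snd_injOn hA).ncard_image]
  congr 1
  ext p
  constructor
  · rintro ⟨⟨x, r⟩, h1, rfl⟩
    exact ⟨(hF _).2 (hAS h1).2, x, h1⟩
  · rintro ⟨_, x, hx⟩
    exact ⟨(x, p), hx, rfl⟩

theorem iter_antichain (S : Set (ℕ × Q)) (hAS : A ⊆ S) (hA : IsAntichain (· ≤ ·) A) (t : ℕ) :
    (rev S)^[t] A ⊆ S ∧ IsAntichain (· ≤ ·) ((rev S)^[t] A) := by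
  cases t with
  | zero => exact ⟨hAS, hA⟩
  | succ t =>
    rw [Function.iterate_succ_apply']
    exact ⟨rev_subset _ _, rev_antichain _ _⟩

end Product

section Rect

variable {a b : ℕ} {A : Set (ℕ × ℕ)}

theorem rect_eq (a b : ℕ) : rect a b = prodSet a (Set.Iio b) := rfl

noncomputable def wordR (b : ℕ) (A : Set (ℕ × ℕ)) (i : ℕ) : ℕ :=
  if i < b then ind (col A i) else ind (¬ row A (i - b))

theorem wordR_step (ha : 0 < a) (hb : 0 < b) (hA : IsAntichain (· ≤ ·) A) (hAS : A ⊆ rect a b)
    (i : ℕ) (hi : i + 1 < a + b) : wordR b (rev (rect a b) A) i = wordR b A (i + 1) := by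
  have hfin : (Set.Iio b : Set ℕ).Finite := Set.finite_Iio b
  unfold wordR
  rcases lt_trichotomy (i + 1) b with h | h | h
  · rw [if_pos (by omega), if_pos h]
    apply ind_congr
    exact col_rev (a := a) (R := Set.Iio b) hA hAS (show i < b by omega) (show i + 1 < b from h)
      (Nat.lt_succ_self i) (fun r _ hr => hr) (fun r _ hr => Nat.lt_succ_iff.1 hr)
  · rw [if_pos (by omega), if_neg (by omega)]
    apply ind_congr
    have h3 : i + 1 - b = 0 := by omega
    rw [h3]
    exact col_rev_top (a := a) (R := Set.Iio b) (show i < b by omega) (fun r hr => by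
      have : r < b := hr
      omega) ha hAS
  · rw [if_neg (by omega), if_neg (by omega)]
    apply ind_congr
    rw [show i + 1 - b = (i - b) + 1 by omega]
    exact not_congr (row_rev (a := a) (R := Set.Iio b) hA hAS hfin (by omega))

theorem wordR_last (ha : 0 < a) (hb : 0 < b) (hAS : A ⊆ rect a b) :
    wordR b (rev (rect a b) A) (a + b - 1) = wordR b A 0 := by
  unfold wordR
  rw [if_neg (by omega), if_pos hb]
  apply ind_congr
  have h := row_rev_last (A := A) (a := a) (R := Set.Iio b) (Set.finite_Iio b) (bot := 0) hb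
    (fun r _ => Nat.zero_le r) hAS (j := a + b - 1 - b) (by omega)
  rw [rect_eq]
  rw [h, not_not]

theorem wordR_cols (hA : IsAntichain (· ≤ ·) A) (hAS : A ⊆ rect a b) :
    ∑ i ∈ range b, wordR b A i = A.ncard := by
  rw [ncard_eq_cols (a := a) (R := Set.Iio b) hA hAS (range b) (fun r => by simp)]
  apply Finset.sum_congr rfl
  intro i hi
  unfold wordR
  rw [if_pos (Finset.mem_range.1 hi)]

theorem wordR_rows (hA : IsAntichain (· ≤ ·) A) (hAS : A ⊆ rect a b) :
    ∑ i ∈ range a, wordR b A (b + i) + A.ncard = a := by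
  have h1 : ∑ i ∈ range a, wordR b A (b + i) + ∑ i ∈ range a, ind (row A i) = a := by
    rw [← Finset.sum_add_distrib]
    have : ∀ i ∈ range a, wordR b A (b + i) + ind (row A i) = 1 := by
      intro i _
      unfold wordR ind
      rw [if_neg (by omega), show b + i - b = i by omega]
      by_cases h : row A i <;> simp [h]
    rw [Finset.sum_congr rfl this]
    simp
  have hinj : Set.InjOn Prod.fst A := by
    rintro ⟨x, p⟩ h1 ⟨y, r⟩ h2 h
    simp only at h
    subst h
    rcases le_total p r with h3 | h3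
    · exact hA.eq h1 h2 ⟨le_refl _, h3⟩
    · exact (hA.eq h2 h1 ⟨le_refl _, h3⟩).symm
  have h2 : A.ncard = ∑ i ∈ range a, ind (row A i) := by
    rw [sum_ind, ← hinj.ncard_image]
    congr 1
    ext p
    constructor
    · rintro ⟨⟨x, r⟩, h1, rfl⟩
      exact ⟨Finset.mem_range.2 (hAS h1).1, r, h1⟩
    · rintro ⟨_, x, hx⟩
      exact ⟨(p, x), hx, rfl⟩
  omega

theorem rect_finite (a b : ℕ) : (rect a b).Finite := by
  refine ((Set.finite_Iio a).prod (Set.finite_Iio b)).subset ?_
  rintro ⟨x, y⟩ ⟨h1, h2⟩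
  exact ⟨h1, h2⟩

theorem rect_ncard (a b : ℕ) : (rect a b).ncard = a * b := by
  have : rect a b = ((range a ×ˢ range b : Finset (ℕ × ℕ)) : Set (ℕ × ℕ)) := by
    ext ⟨x, y⟩; simp [rect]
  rw [this, Set.ncard_coe_finset]
  simp

theorem rect_homomesy (a b : ℕ) (ha : 0 < a) (hb : 0 < b) : Homomesy (rect a b) (a + b) := by
  refine ⟨rect_finite a b, ?_⟩
  intro A hAS hA T hT
  set S := rect a b with hS
  have hit := fun t => iter_antichain S hAS hA t
  set w : ℕ → ℕ → ℕ := fun t i => wordR b ((rev S)^[t] A) i with hw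
  have h1 : ∀ t i, i + 1 < a + b → w (t + 1) i = w t (i + 1) := by
    intro t i hi
    simp only [hw, Function.iterate_succ_apply']
    exact wordR_step ha hb (hit t).2 (hit t).1 i hi
  have h2 : ∀ t, w (t + 1) (a + b - 1) = w t 0 := by
    intro t
    simp only [hw, Function.iterate_succ_apply']
    exact wordR_last ha hb (hit t).1
  have h3 : ∀ i, w T i = w 0 i := by
    intro i
    simp only [hw, hT, Function.iterate_zero, id]
  have h4 := rotate_avg (q := a + b) (T := T) (by omega) w h1 h2 h3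
  have h5 : ∑ i ∈ range (a + b), w 0 i = a := by
    rw [show a + b = b + a by omega, Finset.sum_range_add]
    have e1 := wordR_cols (hit 0).2 (hit 0).1
    have e2 := wordR_rows (hit 0).2 (hit 0).1
    simp only [hw]
    omega
  have h6 : ∑ t ∈ range T, ((rev S)^[t] A).ncard = b * ∑ t ∈ range T, w t 0 := by
    have : ∀ t ∈ range T, ((rev S)^[t] A).ncard = ∑ i ∈ range b, w t i := by
      intro t _
      exact (wordR_cols (hit t).2 (hit t).1).symm
    rw [Finset.sum_congr rfl this, Finset.sum_comm]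
    rw [Finset.sum_congr rfl (fun i hi => rotate_pos w h1 h3 i (by
      have := Finset.mem_range.1 hi
      omega))]
    simp
  rw [h5] at h4
  rw [h6, hS, rect_ncard]
  calc (a + b) * (b * ∑ t ∈ range T, w t 0) = b * ((a + b) * ∑ t ∈ range T, w t 0) := by ring
    _ = T * (a * b) := by rw [h4]; ring

end Rect

end Pool.Agent.TH657.Pan
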