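import Mathlib
import Pool.Agent.TH657.Pan.Defs
import Pool.Agent.TH657.Pan.Rot
import Pool.Agent.TH657.Pan.Homs

set_option autoImplicit false

namespace Pool.Agent.TH657.Pan

open Finset Classical

/-- The poset with `2 m` elements. -/
def pm (m : ℕ) : Set (ℕ × ℕ) :=
  {c | (c.2 = 0 ∧ c.1 < m) ∨ (c.2 = 1 ∧ m ≤ c.1 + 2 ∧ c.1 + 3 ≤ 2 * m)}

theorem diam_eq (a m : ℕ) : diam a m = prodSet a (pm m) := rfl

theorem mem_pm {m c d : ℕ} : (c, d) ∈ pm m ↔
    ((d = 0 ∧ c < m) ∨ (d = 1 ∧ m ≤ c + 2 ∧ c + 3 ≤ 2 * m)) := Iff.rfl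

theorem pm_finite (m : ℕ) : (pm m).Finite := by
  refine ((Set.finite_Iio (2 * m + 1)).prod (Set.finite_Iio 2)).subset ?_
  rintro ⟨x, y⟩ h
  rw [mem_pm] at h
  simp only [Set.mem_prod, Set.mem_Iio]
  omega

theorem ltp_iff {c d c' d' : ℕ} : ((c, d) : ℕ × ℕ) < (c', d') ↔
    c ≤ c' ∧ d ≤ d' ∧ (c ≠ c' ∨ d ≠ d') := by
  rw [lt_iff_le_and_ne, Prod.mk_le_mk, Ne, Prod.mk.injEq]
  constructor
  · rintro ⟨⟨h1, h2⟩, h3⟩
    refine ⟨h1, h2, ?_⟩
    by_contra h
    push Not at h
    exact h3 h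
  · rintro ⟨h1, h2, h3⟩
    refine ⟨⟨h1, h2⟩, ?_⟩
    rintro ⟨h4, h5⟩
    rcases h3 with h3 | h3 <;> omega

noncomputable def wordD (m : ℕ) (A : Set (ℕ × ℕ × ℕ)) (i : ℕ) : ℕ :=
  if i + 1 < m then ind (col A (i, 0))
  else if i + 1 = m then ind (col A (m - 1, 0) ∧ col A (m - 2, 1))
  else if i < 2 * m - 1 then ind (col A (i - 1, 1))
  else ind (¬ row A (i - (2 * m - 1)))

variable {a m : ℕ} {A : Set (ℕ × ℕ × ℕ)}

theorem wordD_step (ha : 0 < a) (hm : 2 ≤ m) (hA : IsAntichain (· ≤ ·) A) (hAS : A ⊆ diam a m)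
    (i : ℕ) (hi : i + 1 < a + (2 * m - 1)) :
    wordD m (rev (diam a m) A) i = wordD m A (i + 1) := by
  have hfin := pm_finite m
  rw [diam_eq] at hAS ⊢
  unfold wordD
  by_cases h1 : i + 2 < m
  · rw [if_pos (by omega), if_pos (by omega)]
    apply ind_congr
    refine col_rev hA hAS ?_ ?_ ?_ ?_ ?_
    · rw [mem_pm]; omega
    · rw [mem_pm]; omega
    · rw [ltp_iff]; omega
    · rintro ⟨c, d⟩ hr hlt
      rw [mem_pm] at hr
      rw [ltp_iff] at hlt
      rw [Prod.mk_le_mk]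
      omega
    · rintro ⟨c, d⟩ hr hlt
      rw [mem_pm] at hr
      rw [ltp_iff] at hlt
      rw [Prod.mk_le_mk]
      omega
  by_cases h2 : i + 2 = m
  · rw [if_pos (by omega), if_neg (by omega), if_pos (by omega)]
    apply ind_congr
    refine col_rev_two hA hAS ?_ ?_ ?_ ?_ ?_ ?_ ?_ ?_
    · rw [mem_pm]; omega
    · rw [mem_pm]; omega
    · rw [mem_pm]; omega
    · rw [ltp_iff]; omega
    · rw [ltp_iff]; omega
    · rintro ⟨c, d⟩ hr hlt
      rw [mem_pm] at hr
      rw [ltp_iff] at hlt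
      rw [Prod.mk_le_mk, Prod.mk_le_mk]
      omega
    · rintro ⟨c, d⟩ hr hlt
      rw [mem_pm] at hr
      rw [ltp_iff] at hlt
      rw [Prod.mk_le_mk]
      omega
    · rintro ⟨c, d⟩ hr hlt
      rw [mem_pm] at hr
      rw [ltp_iff] at hlt
      rw [Prod.mk_le_mk]
      omega
  by_cases h3 : i + 1 = m
  · rw [if_neg (by omega), if_pos h3, if_neg (by omega), if_neg (by omega), if_pos (by omega)]
    apply ind_congr
    have h4 : i + 1 - 1 = m - 1 := by omega
    rw [h4]
    refine col_rev_mid hA hAS ?_ ?_ ?_ ?_ ?_ ?_ ?_ ?_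
    · rw [mem_pm]; omega
    · rw [mem_pm]; omega
    · rw [mem_pm]; omega
    · rw [ltp_iff]; omega
    · rw [ltp_iff]; omega
    · rintro ⟨c, d⟩ hr hlt
      rw [mem_pm] at hr
      rw [ltp_iff] at hlt
      rw [Prod.mk_le_mk]
      omega
    · rintro ⟨c, d⟩ hr hlt
      rw [mem_pm] at hr
      rw [ltp_iff] at hlt
      rw [Prod.mk_le_mk]
      omega
    · rintro ⟨c, d⟩ hr hlt
      rw [mem_pm] at hr
      rw [ltp_iff] at hlt
      rw [Prod.mk_le_mk, Prod.mk_le_mk]
      omega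
  by_cases h5 : i + 1 < 2 * m - 1
  · rw [if_neg (by omega), if_neg h3, if_pos (by omega), if_neg (by omega), if_neg (by omega),
      if_pos h5]
    apply ind_congr
    refine col_rev hA hAS ?_ ?_ ?_ ?_ ?_
    · rw [mem_pm]; omega
    · rw [mem_pm]; omega
    · rw [ltp_iff]; omega
    · rintro ⟨c, d⟩ hr hlt
      rw [mem_pm] at hr
      rw [ltp_iff] at hlt
      rw [Prod.mk_le_mk]
      omega
    · rintro ⟨c, d⟩ hr hlt
      rw [mem_pm] at hr
      rw [ltp_iff] at hlt
      rw [Prod.mk_le_mk]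
      omega
  by_cases h6 : i + 1 = 2 * m - 1
  · rw [if_neg (by omega), if_neg h3, if_pos (by omega), if_neg (by omega), if_neg (by omega),
      if_neg h5]
    apply ind_congr
    have h7 : i + 1 - (2 * m - 1) = 0 := by omega
    rw [h7]
    refine col_rev_top ?_ ?_ ha hAS
    · rw [mem_pm]; omega
    · rintro ⟨c, d⟩ hr
      rw [mem_pm] at hr
      rw [Prod.mk_le_mk]
      omega
  · rw [if_neg (by omega), if_neg h3, if_neg (by omega), if_neg (by omega), if_neg (by omega),
      if_neg h5]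
    apply ind_congr
    rw [show i + 1 - (2 * m - 1) = (i - (2 * m - 1)) + 1 by omega]
    exact not_congr (row_rev hA hAS hfin (by omega))

theorem wordD_last (ha : 0 < a) (hm : 2 ≤ m) (hAS : A ⊆ diam a m) :
    wordD m (rev (diam a m) A) (a + (2 * m - 1) - 1) = wordD m A 0 := by
  rw [diam_eq] at hAS ⊢
  unfold wordD
  rw [if_neg (by omega), if_neg (by omega), if_neg (by omega), if_pos (by omega)]
  apply ind_congr
  have h := row_rev_last (A := A) (a := a) (R := pm m) (pm_finite m) (bot := (0, 0))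
    (by rw [mem_pm]; omega)
    (fun r _ => Prod.mk_le_mk.2 ⟨Nat.zero_le _, Nat.zero_le _⟩) hAS
    (j := a + (2 * m - 1) - 1 - (2 * m - 1)) (by omega)
  rw [h, not_not]

/-- `E`: one of the two middle fibres is met. -/
noncomputable def midE (m : ℕ) (A : Set (ℕ × ℕ × ℕ)) : ℕ :=
  ind (col A (m - 1, 0) ∨ col A (m - 2, 1))

/-- `D`: the two middle fibres are met in the same row. -/
noncomputable def midD (m : ℕ) (A : Set (ℕ × ℕ × ℕ)) : ℕ :=
  ind (∃ s, (s, (m - 1, 0)) ∈ A ∧ (s, (m - 2, 1)) ∈ A)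

theorem pm_sum (hm : 2 ≤ m) (g : ℕ × ℕ → ℕ) :
    ∑ p ∈ (pm_finite m).toFinset, g p =
      ∑ c ∈ range m, g (c, 0) + ∑ j ∈ range m, g (m - 2 + j, 1) := by
  have h : (pm_finite m).toFinset =
      (range m).image (fun c => (c, 0)) ∪ (range m).image (fun j => (m - 2 + j, 1)) := by
    ext ⟨c, d⟩
    simp only [Set.Finite.mem_toFinset, mem_pm, Finset.mem_union, Finset.mem_image,
      Finset.mem_range, Prod.mk.injEq]
    constructor
    · rintro (⟨h1, h2⟩ | ⟨h1, h2, h3⟩)
      · exact Or.inl ⟨c, h2, rfl, h1.symm⟩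
      · exact Or.inr ⟨c - (m - 2), by omega, by omega, h1.symm⟩
    · rintro (⟨x, h1, h2, h3⟩ | ⟨x, h1, h2, h3⟩) <;> omega
  rw [h, Finset.sum_union, Finset.sum_image, Finset.sum_image]
  · intro x _ y _ hxy
    simp only [Prod.mk.injEq] at hxy
    omega
  · intro x _ y _ hxy
    simp only [Prod.mk.injEq] at hxy
    omega
  · rw [Finset.disjoint_left]
    rintro ⟨c, d⟩ h1 h2
    simp only [Finset.mem_image, Prod.mk.injEq] at h1 h2
    obtain ⟨_, _, _, h3⟩ := h1
    obtain ⟨_, _, _, h4⟩ := h2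
    omega

theorem wordD_cols (hm : 2 ≤ m) (hA : IsAntichain (· ≤ ·) A) (hAS : A ⊆ diam a m) :
    A.ncard = ∑ i ∈ range (2 * m - 1), wordD m A i + midE m A := by
  rw [diam_eq] at hAS
  rw [ncard_eq_cols hA hAS (pm_finite m).toFinset (fun r => by simp), pm_sum hm]
  obtain ⟨k, rfl⟩ : ∃ k, m = k + 2 := ⟨m - 2, by omega⟩
  have e1 : k + 2 - 2 = k := by omega
  have e2 : k + 2 - 1 = k + 1 := by omega
  have e3 : 2 * (k + 2) - 1 = (k + 1) + (1 + (k + 1)) := by omega
  rw [e1, e3, Finset.sum_range_add (fun i => wordD (k + 2) A i) (k + 1) (1 + (k + 1)),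
    Finset.sum_range_add (fun i => wordD (k + 2) A (k + 1 + i)) 1 (k + 1),
    Finset.sum_range_succ (fun c => ind (col A (c, 0))) (k + 1),
    Finset.sum_range_succ' (fun j => ind (col A (k + j, 1))) (k + 1)]
  have h1 : ∑ i ∈ range (k + 1), wordD (k + 2) A i = ∑ c ∈ range (k + 1), ind (col A (c, 0)) := by
    apply Finset.sum_congr rfl
    intro i hi
    have := Finset.mem_range.1 hi
    unfold wordD
    rw [if_pos (by omega)]
  have h2 : ∑ i ∈ range (k + 1), wordD (k + 2) A (k + 1 + (1 + i)) =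
      ∑ j ∈ range (k + 1), ind (col A (k + (j + 1), 1)) := by
    apply Finset.sum_congr rfl
    intro i hi
    have := Finset.mem_range.1 hi
    unfold wordD
    rw [if_neg (by omega), if_neg (by omega), if_pos (by omega)]
    rw [show k + 1 + (1 + i) - 1 = k + (i + 1) by omega]
  have h3 : ∑ i ∈ range 1, wordD (k + 2) A (k + 1 + i) =
      ind (col A (k + 1, 0) ∧ col A (k, 1)) := by
    rw [Finset.sum_range_one]
    unfold wordD
    rw [if_neg (by omega), if_pos (by omega), e1, e2]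
  rw [h1, h2, h3]
  unfold midE ind
  rw [e1, e2]
  simp only [Nat.add_zero]
  by_cases hu : col A (k + 1, 0) <;> by_cases hv : col A (k, 1) <;> simp [hu, hv] <;> ring

theorem pm_comparable (hm : 2 ≤ m) {p r : ℕ × ℕ} (hp : p ∈ pm m) (hr : r ∈ pm m) :
    p ≤ r ∨ r ≤ p ∨ (p = (m - 1, 0) ∧ r = (m - 2, 1)) ∨ (r = (m - 1, 0) ∧ p = (m - 2, 1)) := by
  obtain ⟨c, d⟩ := p
  obtain ⟨c', d'⟩ := r
  rw [mem_pm] at hp hr
  simp only [Prod.mk_le_mk, Prod.mk.injEq]
  omega

theorem same_row (hm : 2 ≤ m) (hA : IsAntichain (· ≤ ·) A) (hAS : A ⊆ diam a m)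
    {x : ℕ} {p r : ℕ × ℕ} (hp : (x, p) ∈ A) (hr : (x, r) ∈ A) (hne : p ≠ r) :
    (p = (m - 1, 0) ∧ r = (m - 2, 1)) ∨ (r = (m - 1, 0) ∧ p = (m - 2, 1)) := by
  rcases pm_comparable hm (hAS hp).2 (hAS hr).2 with h | h | h
  · exact absurd (congrArg Prod.snd (hA.eq hp hr ⟨le_refl _, h⟩)) hne
  · exact absurd (congrArg Prod.snd (hA.eq hr hp ⟨le_refl _, h⟩)).symm hne
  · exact h

theorem wordD_rows (hm : 2 ≤ m) (hA : IsAntichain (· ≤ ·) A) (hAS : A ⊆ diam a m)
    (hfin : A.Finite) :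
    ∑ i ∈ range a, wordD m A (2 * m - 1 + i) + A.ncard = a + midD m A := by
  have h1 : ∑ i ∈ range a, wordD m A (2 * m - 1 + i) + ∑ i ∈ range a, ind (row A i) = a := by
    rw [← Finset.sum_add_distrib]
    have : ∀ i ∈ range a, wordD m A (2 * m - 1 + i) + ind (row A i) = 1 := by
      intro i _
      unfold wordD ind
      rw [if_neg (by omega), if_neg (by omega), if_neg (by omega),
        show 2 * m - 1 + i - (2 * m - 1) = i by omega]
      by_cases h : row A i <;> simp [h]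
    rw [Finset.sum_congr rfl this]
    simp
  have h2 : ∑ i ∈ range a, ind (row A i) = (Prod.fst '' A).ncard := by
    rw [sum_ind]
    congr 1
    ext p
    constructor
    · rintro ⟨_, x, hx⟩
      exact ⟨(p, x), hx, rfl⟩
    · rintro ⟨⟨x, r⟩, h1, rfl⟩
      exact ⟨Finset.mem_range.2 (hAS h1).1, r, h1⟩
  have h3 : A.ncard = (Prod.fst '' A).ncard + midD m A := by
    unfold midD ind
    split_ifs with hD
    · obtain ⟨s, hs1, hs2⟩ := hD
      have hne : ((m - 1, 0) : ℕ × ℕ) ≠ (m - 2, 1) := by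
        intro h
        simp only [Prod.mk.injEq] at h
        omega
      have himg : Prod.fst '' A = Prod.fst '' (A \ {(s, (m - 2, 1))}) := by
        ext y
        constructor
        · rintro ⟨⟨x, r⟩, hx, rfl⟩
          by_cases hxr : ((x, r) : ℕ × ℕ × ℕ) = (s, (m - 2, 1))
          · simp only [Prod.mk.injEq] at hxr
            obtain ⟨rfl, rfl⟩ := hxr
            exact ⟨(x, (m - 1, 0)), ⟨hs1, by
              intro h
              exact hne (congrArg Prod.snd (Set.mem_singleton_iff.1 h))⟩, rfl⟩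
          · exact ⟨(x, r), ⟨hx, hxr⟩, rfl⟩
        · rintro ⟨z, ⟨hz, _⟩, rfl⟩
          exact ⟨z, hz, rfl⟩
      have hinj : Set.InjOn Prod.fst (A \ {(s, (m - 2, 1))}) := by
        rintro ⟨x, p⟩ ⟨hx, hx'⟩ ⟨y, r⟩ ⟨hy, hy'⟩ h
        simp only at h
        subst h
        by_contra hpr
        have hpr' : p ≠ r := by
          rintro rfl
          exact hpr rfl
        rcases same_row hm hA hAS hx hy hpr' with ⟨h4, h5⟩ | ⟨h4, h5⟩
        · subst h5
          have := snd_injOn hA hy hs2 rfl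
          exact hy' this
        · subst h5
          have := snd_injOn hA hx hs2 rfl
          exact hx' this
      rw [himg, hinj.ncard_image, Set.ncard_sdiff_singleton_add_one hs2 hfin]
    · have hinj : Set.InjOn Prod.fst A := by
        rintro ⟨x, p⟩ hx ⟨y, r⟩ hy h
        simp only at h
        subst h
        by_contra hpr
        have hpr' : p ≠ r := by
          rintro rfl
          exact hpr rfl
        rcases same_row hm hA hAS hx hy hpr' with ⟨h4, h5⟩ | ⟨h4, h5⟩
        · subst h4; subst h5; exact hD ⟨x, hx, hy⟩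
        · subst h4; subst h5; exact hD ⟨x, hy, hx⟩
      rw [hinj.ncard_image, Nat.add_zero]
  omega

theorem midD_le (A : Set (ℕ × ℕ × ℕ)) (hm : 2 ≤ m) : midD m A ≤ wordD m A (m - 1) := by
  unfold midD wordD ind
  rw [if_neg (show ¬ (m - 1 + 1 < m) by omega), if_pos (show m - 1 + 1 = m by omega)]
  split_ifs with h1 h2 h2
  · exact le_refl _
  · obtain ⟨s, h3, h4⟩ := h1
    exact absurd ⟨⟨s, h3⟩, ⟨s, h4⟩⟩ h2
  · omega
  · omega

theorem le_midE (A : Set (ℕ × ℕ × ℕ)) (hm : 2 ≤ m) : wordD m A (m - 1) ≤ midE m A := by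
  unfold midE wordD ind
  rw [if_neg (show ¬ (m - 1 + 1 < m) by omega), if_pos (show m - 1 + 1 = m by omega)]
  split_ifs with h1 h2 h2
  · exact le_refl _
  · exact absurd (Or.inl h1.1) h2
  · omega
  · omega

theorem diam_finite (a m : ℕ) : (diam a m).Finite := by
  refine ((Set.finite_Iio a).prod (pm_finite m)).subset ?_
  rintro ⟨x, y⟩ ⟨h1, h2⟩
  exact ⟨h1, h2⟩

theorem diam_ncard (a m : ℕ) (hm : 2 ≤ m) : (diam a m).ncard = a * (2 * m) := by
  have h1 : diam a m = ((range a ×ˢ (pm_finite m).toFinset : Finset (ℕ × ℕ × ℕ)) :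
      Set (ℕ × ℕ × ℕ)) := by
    ext ⟨x, y⟩
    simp [diam, pm]
  have h2 : (pm_finite m).toFinset.card = 2 * m := by
    have := pm_sum hm (fun _ => 1)
    simp only [Finset.sum_const, smul_eq_mul, mul_one, Finset.card_range] at this
    omega
  rw [h1, Set.ncard_coe_finset, Finset.card_product, h2]
  simp

theorem diam_homomesy (a m : ℕ) (ha : 0 < a) (hm : 2 ≤ m) :
    Homomesy (diam a m) (a + (2 * m - 1)) := by
  refine ⟨diam_finite a m, ?_⟩
  intro A hAS hA T hT
  set S := diam a m with hS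
  have hit := fun t => iter_antichain S hAS hA t
  have hfin : ∀ t, ((rev S)^[t] A).Finite := fun t => (diam_finite a m).subset (hit t).1
  set w : ℕ → ℕ → ℕ := fun t i => wordD m ((rev S)^[t] A) i with hw
  have h1 : ∀ t i, i + 1 < a + (2 * m - 1) → w (t + 1) i = w t (i + 1) := by
    intro t i hi
    simp only [hw, Function.iterate_succ_apply']
    exact wordD_step ha hm (hit t).2 (hit t).1 i hi
  have h2 : ∀ t, w (t + 1) (a + (2 * m - 1) - 1) = w t 0 := by
    intro t
    simp only [hw, Function.iterate_succ_apply']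
    exact wordD_last ha hm (hit t).1
  have h3 : ∀ i, w T i = w 0 i := by
    intro i
    simp only [hw, hT, Function.iterate_zero, id]
  have hq : 0 < a + (2 * m - 1) := by omega
  have h4 := rotate_avg (q := a + (2 * m - 1)) (T := T) hq w h1 h2 h3
  have hconst := rotate_const hq w h1 h2
  set P := ∑ t ∈ range T, w t 0 with hP
  set s := ∑ i ∈ range (a + (2 * m - 1)), w 0 i with hs
  set E : ℕ → ℕ := fun t => midE m ((rev S)^[t] A) with hE
  set D : ℕ → ℕ := fun t => midD m ((rev S)^[t] A) with hD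
  -- the number of ones at time `t`
  have h5 : ∀ t, s + E t = a + D t := by
    intro t
    have e0 := hconst t
    rw [show a + (2 * m - 1) = (2 * m - 1) + a by omega, Finset.sum_range_add] at e0
    have e1 := wordD_cols hm (hit t).2 (hit t).1
    have e2 := wordD_rows hm (hit t).2 (hit t).1 (hfin t)
    simp only [hw] at e0
    simp only [hE, hD]
    omega
  have h6 : ∑ t ∈ range T, ((rev S)^[t] A).ncard =
      (2 * m - 1) * P + ∑ t ∈ range T, E t := by
    have : ∀ t ∈ range T, ((rev S)^[t] A).ncard = ∑ i ∈ range (2 * m - 1), w t i + E t := by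
      intro t _
      exact wordD_cols hm (hit t).2 (hit t).1
    rw [Finset.sum_congr rfl this, Finset.sum_add_distrib, Finset.sum_comm]
    rw [Finset.sum_congr rfl (fun i hi => rotate_pos w h1 h3 i (by
      have := Finset.mem_range.1 hi
      omega))]
    simp [hP]
  have hDM : ∀ t, D t ≤ w t (m - 1) := fun t => midD_le _ hm
  have hME : ∀ t, w t (m - 1) ≤ E t := fun t => le_midE _ hm
  have hE1 : ∀ t, E t ≤ 1 := fun t => ind_le_one _
  have hPM : ∑ t ∈ range T, w t (m - 1) = P := rotate_pos w h1 h3 (m - 1) (by omega)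
  rw [h6, hS, diam_ncard a m hm]
  have hcase : s = a ∨ s + 1 = a := by
    have e1 := h5 0
    have e2 := hDM 0
    have e3 := hME 0
    have e4 := hE1 0
    omega
  rcases hcase with hsa | hsa
  · have h7 : ∑ t ∈ range T, E t = P := by
      rw [← hPM]
      apply Finset.sum_congr rfl
      intro t _
      have e1 := h5 t
      have e2 := hDM t
      have e3 := hME t
      omega
    rw [h7]
    rw [hsa] at h4
    obtain ⟨k, rfl⟩ : ∃ k, m = k + 2 := ⟨m - 2, by omega⟩
    rw [show 2 * (k + 2) - 1 = 2 * k + 3 by omega] at h4 ⊢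
    calc (a + (2 * k + 3)) * ((2 * k + 3) * P + P) = (2 * k + 4) * ((a + (2 * k + 3)) * P) := by ring
      _ = T * (a * (2 * (k + 2))) := by rw [h4]; ring
  · have h7 : ∑ t ∈ range T, E t = T := by
      have : ∀ t ∈ range T, E t = 1 := by
        intro t _
        have e1 := h5 t
        have e4 := hE1 t
        omega
      rw [Finset.sum_congr rfl this]
      simp
    rw [h7]
    obtain ⟨k, rfl⟩ : ∃ k, m = k + 2 := ⟨m - 2, by omega⟩
    rw [show 2 * (k + 2) - 1 = 2 * k + 3 by omega] at h4 ⊢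
    rw [← hsa] at h4 ⊢
    calc (s + 1 + (2 * k + 3)) * ((2 * k + 3) * P + T)
        = (2 * k + 3) * ((s + 1 + (2 * k + 3)) * P) + (s + 1 + (2 * k + 3)) * T := by ring
      _ = T * ((s + 1) * (2 * (k + 2))) := by rw [h4]; ring

end Pool.Agent.TH657.Pan
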