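import Mathlib
import Pool.Agent.TH657.Pan.Defs

set_option autoImplicit false

/-!
# A checker for orbit averages of antichain sizes in finite posets given by bitmasks

The elements are numbered so that larger elements come later; `up v` is the bitmask of the elements
strictly above `v`. The checker runs over all upper ideals `I`; it iterates rowmotion starting from
`I` until a smaller bitmask is found (then nothing is left to show) or `q` steps are done (then the
last ideal has to be `I` again, and the sizes have to sum up to `N`).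
-/

namespace Pool.Agent.TH657.Pan

/-- the table: for `v = N - 1, ..., 0` the mask of the elements above `v`, without and with `v` -/
inductive CkT : Type
  | e : CkT
  | c (a b : ℕ) (t : CkT) : CkT

/-- one step of rowmotion from `I`, with continuation `κ` -/
abbrev CkF : Type := ℕ → (ℕ → ℕ → Bool) → ℕ → ℕ → Bool

/-- `k x`, where the kernel evaluates `x` first -/
noncomputable def ckF (x : ℕ) (k : ℕ → Bool) : Bool :=
  Nat.rec (motive := fun _ => Bool) false (fun n _ => k n) (Nat.succ x)

/-- conjunction, evaluated from the left -/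
noncomputable def ckA (x y : Bool) : Bool := Bool.rec (motive := fun _ => Bool) false y x

/-- the rowmotion of a table as an explicit function, with continuation `k` -/
noncomputable def ckB (t : CkT) : (CkF → Bool) → Bool :=
  CkT.rec (motive := fun _ => (CkF → Bool) → Bool) (fun k => k (fun _ κ J c => κ J c))
    (fun a b _ ih k => ih (fun f => k (fun I κ J c => Bool.rec (motive := fun _ => Bool) (f I κ J c)
      (f I κ (Nat.lor J b) (Nat.succ c)) (Nat.beq (Nat.land I b) a)))) t

/-- the check for the ideal `I` -/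
noncomputable def ckO (N : ℕ) (f : CkF) (q I : ℕ) : ℕ → ℕ → Bool :=
  Nat.rec (motive := fun _ => ℕ → ℕ → Bool)
    (fun J c => ckA (Nat.beq J I) (Nat.beq c N))
    (fun _ ih J c => f J (fun J' c' => ckF J' (fun J' => ckF c' (fun c' =>
      Bool.rec (motive := fun _ => Bool) (ih J' c') true (Nat.ble (Nat.succ J') I)))) 0 c) q

/-- the check for all the ideals whose part in the other elements is `I` -/
noncomputable def ckE (N : ℕ) (f : CkF) (q : ℕ) (t : CkT) : ℕ → Bool :=
  CkT.rec (motive := fun _ => ℕ → Bool) (fun I => ckO N f q I I 0)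
    (fun a b _ ih I => Bool.rec (motive := fun _ => Bool) (ih I)
      (ckA (ckF (Nat.lor I b) ih) (ih I)) (Nat.beq (Nat.land I a) a)) t

/-- the table of the list `up`, with continuation `k` -/
noncomputable def ckM (full : ℕ) (k : CkT → Bool) (up : List ℕ) : ℕ → CkT → Bool :=
  List.rec (motive := fun _ => ℕ → CkT → Bool)
    (fun bit t => ckA (Nat.beq bit full) (k t))
    (fun a _ ih bit t => ckF a (fun a => ckF (Nat.lor a bit) (fun b => ckF (Nat.mul 2 bit) (fun bit' =>
      ckA (Nat.beq (Nat.mod a bit') 0) (ckA (Nat.ble (Nat.succ a) full)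
        (ih bit' (CkT.c a b t))))))) up

/-- the checker -/
noncomputable def checkHomomesy (N q : ℕ) (up : List ℕ) : Bool :=
  ckF (Nat.pow 2 N) (fun full => ckM full (fun t => ckB t (fun f => ckE N f q t 0)) up 1 CkT.e)

/-! ### Meaning of the functions -/

theorem ck_F (x : ℕ) (k : ℕ → Bool) : ckF x k = k x := rfl

theorem ck_A {x y : Bool} (h : ckA x y = true) : x = true ∧ y = true := by
  cases x with
  | false => exact absurd h (by simp [ckA])
  | true => exact ⟨rfl, h⟩

/-- the new ideal -/
def ckJ (I : ℕ) : CkT → ℕ → ℕ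
  | .e, J => J
  | .c a b t, J => if Nat.land I b = a then ckJ I t (Nat.lor J b) else ckJ I t J

/-- the number of the maximal elements of the complement -/
def ckN (I : ℕ) : CkT → ℕ → ℕ
  | .e, c => c
  | .c a b t, c => if Nat.land I b = a then ckN I t (Nat.succ c) else ckN I t c

theorem ck_B (t : CkT) : ∀ k : CkF → Bool,
    ckB t k = k (fun I κ J c => κ (ckJ I t J) (ckN I t c)) := by
  induction t with
  | e => intro k; rfl
  | c a b t ih =>
    intro k
    change ckB t (fun f => k (fun I κ J c => Bool.rec (motive := fun _ => Bool) (f I κ J c)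
      (f I κ (Nat.lor J b) (Nat.succ c)) (Nat.beq (Nat.land I b) a))) = _
    rw [ih]
    congr 1
    funext I κ J c
    by_cases h : Nat.land I b = a
    · have h1 : Nat.beq (Nat.land I b) a = true := by rw [h]; exact Nat.beq_refl a
      rw [h1]
      simp only [ckJ, ckN, if_pos h]
    · have h1 : Nat.beq (Nat.land I b) a = false := by
        rw [Bool.eq_false_iff]
        exact fun h' => h (Nat.eq_of_beq_eq_true h')
      rw [h1]
      simp only [ckJ, ckN, if_neg h]

/-- the table for `v < k` -/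
def ckT (u : ℕ → ℕ) : ℕ → CkT
  | 0 => .e
  | k + 1 => .c (u k) (u k ||| 2 ^ k) (ckT u k)

/-- the element `v` is maximal in the complement of `I` -/
def ckC (u : ℕ → ℕ) (I v : ℕ) : Prop := I &&& (u v ||| 2 ^ v) = u v

instance (u : ℕ → ℕ) (I v : ℕ) : Decidable (ckC u I v) := by
  unfold ckC
  infer_instance

theorem ckJ_bit (u : ℕ → ℕ) (I i : ℕ) : ∀ k J : ℕ, (ckJ I (ckT u k) J).testBit i = true ↔
    (J.testBit i = true ∨ ∃ v < k, ckC u I v ∧ (u v ||| 2 ^ v).testBit i = true) := by
  intro k
  induction k with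
  | zero =>
    intro J
    simp [ckT, ckJ]
  | succ k ih =>
    intro J
    change (if Nat.land I (u k ||| 2 ^ k) = u k then ckJ I (ckT u k) (Nat.lor J (u k ||| 2 ^ k))
      else ckJ I (ckT u k) J).testBit i = true ↔ _
    by_cases h : Nat.land I (u k ||| 2 ^ k) = u k
    · rw [if_pos h, ih]
      change ((J ||| (u k ||| 2 ^ k)).testBit i = true ∨ _) ↔ _
      rw [Nat.testBit_or, Bool.or_eq_true]
      constructor
      · rintro ((h1 | h1) | ⟨v, hv, h1⟩)
        · exact Or.inl h1
        · exact Or.inr ⟨k, Nat.lt_succ_self k, h, h1⟩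
        · exact Or.inr ⟨v, Nat.lt_succ_of_lt hv, h1⟩
      · rintro (h1 | ⟨v, hv, h1⟩)
        · exact Or.inl (Or.inl h1)
        · rcases Nat.lt_succ_iff_lt_or_eq.1 hv with h2 | rfl
          · exact Or.inr ⟨v, h2, h1⟩
          · exact Or.inl (Or.inr h1.2)
    · rw [if_neg h, ih]
      constructor
      · rintro (h1 | ⟨v, hv, h1⟩)
        · exact Or.inl h1
        · exact Or.inr ⟨v, Nat.lt_succ_of_lt hv, h1⟩
      · rintro (h1 | ⟨v, hv, h1⟩)
        · exact Or.inl h1
        · rcases Nat.lt_succ_iff_lt_or_eq.1 hv with h2 | rfl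
          · exact Or.inr ⟨v, h2, h1⟩
          · exact absurd h1.1 h

theorem ckN_eq (u : ℕ → ℕ) (I : ℕ) : ∀ k c : ℕ, ckN I (ckT u k) c =
    c + ((Finset.range k).filter (fun v => ckC u I v)).card := by
  intro k
  induction k with
  | zero =>
    intro c
    simp [ckT, ckN]
  | succ k ih =>
    intro c
    change (if Nat.land I (u k ||| 2 ^ k) = u k then ckN I (ckT u k) (Nat.succ c)
      else ckN I (ckT u k) c) = _
    rw [Finset.range_add_one, Finset.filter_insert]
    by_cases h : Nat.land I (u k ||| 2 ^ k) = u k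
    · have h' : ckC u I k := h
      rw [if_pos h, ih, if_pos h', Finset.card_insert_of_notMem (by simp)]
      omega
    · have h' : ¬ ckC u I k := h
      rw [if_neg h, ih, if_neg h']

/-- the table of a list -/
theorem ckM_spec (full : ℕ) (K : CkT → Bool) (up : List ℕ) : ∀ (l : List ℕ) (j : ℕ),
    up.drop j = l → j ≤ up.length →
    ckM full K l (2 ^ j) (ckT (fun i => up.getD i 0) j) = true →
    2 ^ up.length = full ∧ K (ckT (fun i => up.getD i 0) up.length) = true ∧
      ∀ i, j ≤ i → i < up.length → up.getD i 0 % 2 ^ (i + 1) = 0 ∧ up.getD i 0 < full := by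
  intro l
  induction l with
  | nil =>
    intro j hj hle h
    have hj' : j = up.length := by
      have := congrArg List.length hj
      rw [List.length_drop, List.length_nil] at this
      omega
    subst hj'
    obtain ⟨h1, h2⟩ := ck_A h
    exact ⟨Nat.eq_of_beq_eq_true h1, h2, fun i h3 h4 => absurd h4 (not_lt.2 h3)⟩
  | cons a l ih =>
    intro j hj hle h
    have hlt : j < up.length := by
      have := congrArg List.length hj
      rw [List.length_drop, List.length_cons] at this
      omega
    have ha : up.getD j 0 = a := by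
      have h1 := List.drop_eq_getElem_cons hlt
      rw [hj, List.cons.injEq] at h1
      rw [List.getD_eq_getElem _ _ hlt, h1.1]
    have hd : up.drop (j + 1) = l := by
      have h1 := List.drop_eq_getElem_cons hlt
      rw [hj, List.cons.injEq] at h1
      exact h1.2.symm
    obtain ⟨h1, h2⟩ := ck_A h
    obtain ⟨h2, h3⟩ := ck_A h2
    have h4 : Nat.mul 2 (2 ^ j) = 2 ^ (j + 1) := by
      rw [pow_succ, mul_comm]
      rfl
    have h1 : Nat.beq (Nat.mod a (Nat.mul 2 (2 ^ j))) 0 = true := h1
    have h2 : Nat.ble (Nat.succ a) full = true := h2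
    have h3 : ckM full K l (Nat.mul 2 (2 ^ j)) (CkT.c a (Nat.lor a (2 ^ j))
      (ckT (fun i => up.getD i 0) j)) = true := h3
    rw [h4] at h1 h3
    have h5 : ckT (fun i => up.getD i 0) (j + 1) = CkT.c a (Nat.lor a (2 ^ j))
        (ckT (fun i => up.getD i 0) j) := by
      change CkT.c (up.getD j 0) (up.getD j 0 ||| 2 ^ j) _ = _
      rw [ha]
      rfl
    rw [← h5] at h3
    obtain ⟨h6, h7, h8⟩ := ih (j + 1) hd hlt h3
    refine ⟨h6, h7, fun i hi1 hi2 => ?_⟩
    rcases Nat.eq_or_lt_of_le hi1 with rfl | hi3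
    · rw [ha]
      exact ⟨Nat.eq_of_beq_eq_true h1, Nat.le_of_ble_eq_true h2⟩
    · exact h8 i hi3 hi2

/-! ### Rowmotion on the upper ideals of a finite set -/

section sets

variable {P : Type*} [PartialOrder P]

/-- the maximal elements of the complement -/
def ckMx (S U : Set P) : Set P := {v | Maximal (fun w => w ∈ S \ U) v}

/-- upper ideals -/
def ckUp (S U : Set P) : Prop := U ⊆ S ∧ ∀ x ∈ U, ∀ y ∈ S, x ≤ y → y ∈ U

/-- rowmotion -/
def ckR (S U : Set P) : Set P := upIdeal S (ckMx S U)

theorem ck_up_upIdeal (S A : Set P) : ckUp S (upIdeal S A) :=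
  ⟨fun _ h => h.1, fun _ hx y hy hxy => ⟨hy, hx.2.choose, hx.2.choose_spec.1,
    hx.2.choose_spec.2.trans hxy⟩⟩

theorem ck_mx_sub (S U : Set P) : ckMx S U ⊆ S := fun _ h => h.1.1

theorem ck_mx_anti (S U : Set P) : IsAntichain (· ≤ ·) (ckMx S U) := by
  intro x hx y hy hne hle
  exact hne (le_antisymm hle (hx.2 hy.1 hle))

theorem ck_anti_eq {S A B : Set P} (hA : A ⊆ S) (hB : B ⊆ S) (hA' : IsAntichain (· ≤ ·) A)
    (hB' : IsAntichain (· ≤ ·) B) (h : upIdeal S A = upIdeal S B) : A = B := by
  have key : ∀ {A B : Set P}, A ⊆ S → B ⊆ S → IsAntichain (· ≤ ·) A →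
      upIdeal S A = upIdeal S B → A ⊆ B := by
    intro A B hA hB hA' h x hx
    have h1 : x ∈ upIdeal S A := ⟨hA hx, x, hx, le_rfl⟩
    rw [h] at h1
    obtain ⟨-, y, hy, hyx⟩ := h1
    have h2 : y ∈ upIdeal S B := ⟨hB hy, y, hy, le_rfl⟩
    rw [← h] at h2
    obtain ⟨-, z, hz, hzy⟩ := h2
    have h3 : z = x := by
      by_contra hne
      exact hA' hz hx hne (hzy.trans hyx)
    subst h3
    have h4 : y = z := le_antisymm hyx hzy
    rw [← h4]
    exact hy
  exact Set.Subset.antisymm (key hA hB hA' h) (key hB hA hB' h.symm)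

theorem ck_R_inj {S U U' : Set P} (hS : S.Finite) (hU : ckUp S U) (hU' : ckUp S U')
    (h : ckR S U = ckR S U') : U = U' := by
  have h1 : ckMx S U = ckMx S U' := ck_anti_eq (ck_mx_sub _ _) (ck_mx_sub _ _) (ck_mx_anti _ _)
    (ck_mx_anti _ _) h
  have key : ∀ {U U' : Set P}, ckUp S U → ckUp S U' → ckMx S U = ckMx S U' → U ⊆ U' := by
    intro U U' hU hU' h1 x hx
    by_contra hx'
    have hxS : x ∈ S \ U' := ⟨hU.1 hx, hx'⟩
    have hfin : (S \ U').Finite := hS.subset Set.sdiff_subset
    obtain ⟨m, hxm, hm⟩ := hfin.exists_le_maximal hxS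
    have hm' : m ∈ ckMx S U' := hm
    rw [← h1] at hm'
    exact hm'.1.2 (hU.2 x hx m hm.1.1 hxm)
  exact Set.Subset.antisymm (key hU hU' h1) (key hU' hU h1.symm)

end sets

/-! ### Masks -/

section masks

variable {n N : ℕ} (L : Fin N → (Fin n → ℤ))

/-- the set of a mask -/
def ckSet (m : ℕ) : Set (Fin n → ℤ) := {x | ∃ i : Fin N, L i = x ∧ m.testBit i = true}

variable {L}

theorem ck_mem (hL : Function.Injective L) {m : ℕ} {i : Fin N} :
    L i ∈ ckSet L m ↔ m.testBit i = true :=
  ⟨fun ⟨_, hj, h⟩ => hL hj ▸ h, fun h => ⟨i, rfl, h⟩⟩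

theorem ck_set_inj (hL : Function.Injective L) {m m' : ℕ} (hm : m < 2 ^ N) (hm' : m' < 2 ^ N)
    (h : ckSet L m = ckSet L m') : m = m' := by
  apply Nat.eq_of_testBit_eq
  intro i
  rcases lt_or_ge i N with hi | hi
  · have h1 : m.testBit i = true ↔ m'.testBit i = true := by
      rw [← ck_mem hL (i := ⟨i, hi⟩), ← ck_mem hL (i := ⟨i, hi⟩), h]
    cases h2 : m.testBit i <;> cases h3 : m'.testBit i <;> simp_all
  · have h1 : 2 ^ N ≤ 2 ^ i := Nat.pow_le_pow_right (by norm_num) hi
    rw [Nat.testBit_lt_two_pow (lt_of_lt_of_le hm h1),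
      Nat.testBit_lt_two_pow (lt_of_lt_of_le hm' h1)]

/-- every subset of the range has a mask -/
theorem ck_exists_mask (U : Set (Fin n → ℤ)) (hU : U ⊆ Set.range L) (hL : Function.Injective L) :
    ∃ m < 2 ^ N, ckSet L m = U := by
  classical
  refine ⟨Nat.ofBits (fun i : Fin N => decide (L i ∈ U)), Nat.ofBits_lt_two_pow _, ?_⟩
  ext x
  constructor
  · rintro ⟨i, rfl, hi⟩
    rw [Nat.testBit_ofBits_lt _ _ i.2, decide_eq_true_eq] at hi
    exact hi
  · intro hx
    obtain ⟨i, rfl⟩ := hU hx
    rw [ck_mem hL, Nat.testBit_ofBits_lt _ _ i.2, decide_eq_true_eq]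
    exact hx

/-- what the checker verifies about the list -/
structure CkH (L : Fin N → (Fin n → ℤ)) (u : ℕ → ℕ) : Prop where
  inj : Function.Injective L
  up : ∀ a b : Fin N, (u a).testBit b = true ↔ (L a ≤ L b ∧ a ≠ b)
  md : ∀ i < N, u i % 2 ^ (i + 1) = 0
  lt : ∀ i < N, u i < 2 ^ N

variable {u : ℕ → ℕ}

theorem CkH.hi (h : CkH L u) {v i : ℕ} (hv : v < N) (hi : N ≤ i) : (u v).testBit i = false :=
  Nat.testBit_lt_two_pow (lt_of_lt_of_le (h.lt v hv) (Nat.pow_le_pow_right (by norm_num) hi))

theorem CkH.lo (h : CkH L u) {v i : ℕ} (hv : v < N) (hi : i ≤ v) : (u v).testBit i = false := by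
  have h1 : 2 ^ (v + 1) ∣ u v := Nat.dvd_of_mod_eq_zero (h.md v hv)
  obtain ⟨c, hc⟩ := h1
  rw [hc, mul_comm, Nat.testBit_mul_two_pow, decide_eq_false (by omega), Bool.false_and]

theorem ck_bit_or (v i x : ℕ) : (x ||| 2 ^ v).testBit i = true ↔ (x.testBit i = true ∨ v = i) := by
  rw [Nat.testBit_or, Bool.or_eq_true, Nat.testBit_two_pow, decide_eq_true_eq]

theorem CkH.maxi (h : CkH L u) {m : ℕ} (v : Fin N) :
    ckC u m v ↔ L v ∈ ckMx (Set.range L) (ckSet L m) := by
  have hvv : (u v).testBit v = false := h.lo v.2 le_rfl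
  constructor
  · intro hc
    unfold ckC at hc
    have hmv : m.testBit v = false := by
      have h1 : (m &&& (u v ||| 2 ^ v.1)).testBit v.1 = (u v).testBit v.1 :=
        congrArg (fun x : ℕ => x.testBit v.1) hc
      rw [Nat.testBit_and, hvv] at h1
      rw [(ck_bit_or v.1 v.1 (u v)).2 (Or.inr rfl), Bool.and_true] at h1
      exact h1
    have hm : ∀ i : ℕ, (u v).testBit i = true → m.testBit i = true := by
      intro i hi
      have h1 : (m &&& (u v ||| 2 ^ v.1)).testBit i = (u v).testBit i :=
        congrArg (fun x : ℕ => x.testBit i) hc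
      rw [Nat.testBit_and, hi, Bool.and_eq_true] at h1
      exact h1.1
    refine ⟨⟨⟨v, rfl⟩, ?_⟩, ?_⟩
    · rw [ck_mem h.inj, hmv]
      simp
    · rintro y ⟨⟨i, rfl⟩, hy⟩ hle
      by_cases hvi : v = i
      · rw [hvi]
      · exfalso
        apply hy
        rw [ck_mem h.inj]
        exact hm i ((h.up v i).2 ⟨hle, hvi⟩)
  · rintro ⟨⟨-, h1⟩, h2⟩
    rw [ck_mem h.inj, Bool.not_eq_true] at h1
    unfold ckC
    apply Nat.eq_of_testBit_eq
    intro i
    rw [Nat.testBit_and]
    by_cases hvi : v.1 = i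
    · subst hvi
      rw [h1, hvv, Bool.false_and]
    · have h3 : (u v ||| 2 ^ v.1).testBit i = (u v).testBit i := by
        rw [Nat.testBit_or, Nat.testBit_two_pow, decide_eq_false hvi, Bool.or_false]
      rw [h3]
      cases h4 : (u v).testBit i with
      | false => rw [Bool.and_false]
      | true =>
        rw [Bool.and_true]
        rcases lt_or_ge i N with hi | hi
        · have h5 := (h.up v ⟨i, hi⟩).1 h4
          by_contra h6
          have h7 : L ⟨i, hi⟩ ∈ Set.range L \ ckSet L m := ⟨⟨_, rfl⟩, by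
            rw [ck_mem h.inj]
            exact h6⟩
          have h8 := h2 h7 h5.1
          exact h5.2 (h.inj (le_antisymm h5.1 h8))
        · rw [h.hi v.2 hi] at h4
          cases h4

/-- rowmotion on masks -/
def ckr (u : ℕ → ℕ) (N m : ℕ) : ℕ := ckJ m (ckT u N) 0

/-- the number of the maximal elements of the complement -/
def ckn (u : ℕ → ℕ) (N m : ℕ) : ℕ := ((Finset.range N).filter (fun v => ckC u m v)).card

theorem CkH.r_bit (h : CkH L u) (m i : ℕ) : (ckr u N m).testBit i = true ↔
    ∃ hi : i < N, L ⟨i, hi⟩ ∈ ckR (Set.range L) (ckSet L m) := by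
  unfold ckr
  rw [ckJ_bit, Nat.zero_testBit]
  constructor
  · rintro (h1 | ⟨v, hv, h1, h2⟩)
    · cases h1
    · rw [ck_bit_or] at h2
      have h3 := (h.maxi ⟨v, hv⟩).1 h1
      have hi : i < N := by
        rcases h2 with h2 | h2
        · by_contra hi
          rw [h.hi hv (not_lt.1 hi)] at h2
          cases h2
        · omega
      refine ⟨hi, ⟨_, rfl⟩, L ⟨v, hv⟩, h3, ?_⟩
      rcases h2 with h2 | h2
      · exact ((h.up ⟨v, hv⟩ ⟨i, hi⟩).1 h2).1
      · subst h2
        exact le_rfl
  · rintro ⟨hi, -, a, ha, hle⟩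
    obtain ⟨v, rfl⟩ := ck_mx_sub _ _ ha
    refine Or.inr ⟨v.1, v.2, (h.maxi v).2 ha, ?_⟩
    rw [ck_bit_or]
    by_cases hvi : v.1 = i
    · exact Or.inr hvi
    · exact Or.inl ((h.up v ⟨i, hi⟩).2 ⟨hle, fun e => hvi (by rw [e])⟩)

theorem CkH.r_lt (h : CkH L u) (m : ℕ) : ckr u N m < 2 ^ N := by
  apply Nat.lt_pow_two_of_testBit
  intro i hi
  rw [← Bool.not_eq_true, h.r_bit]
  rintro ⟨h1, -⟩
  omega

theorem CkH.r_set (h : CkH L u) (m : ℕ) :
    ckSet L (ckr u N m) = ckR (Set.range L) (ckSet L m) := by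
  ext x
  constructor
  · rintro ⟨i, rfl, hi⟩
    rw [h.r_bit] at hi
    exact hi.2
  · intro hx
    obtain ⟨i, rfl⟩ := hx.1
    exact ⟨i, rfl, (h.r_bit m i).2 ⟨i.2, hx⟩⟩

theorem CkH.n_eq (h : CkH L u) (m : ℕ) :
    ckn u N m = (ckMx (Set.range L) (ckSet L m)).ncard := by
  classical
  have h1 : ckMx (Set.range L) (ckSet L m) =
      L '' ((Finset.univ.filter (fun v : Fin N => ckC u m v) : Finset (Fin N)) : Set (Fin N)) := by
    ext x
    constructor
    · intro hx
      obtain ⟨v, rfl⟩ := ck_mx_sub _ _ hx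
      exact ⟨v, by simpa using (h.maxi v).2 hx, rfl⟩
    · rintro ⟨v, hv, rfl⟩
      have hv' : ckC u m v := by simpa using hv
      exact (h.maxi v).1 hv'
  rw [h1, Set.ncard_image_of_injective _ h.inj, Set.ncard_coe_finset]
  unfold ckn
  have h2 : (Finset.range N).filter (fun v => ckC u m v) =
      (Finset.univ.filter (fun v : Fin N => ckC u m v)).map Fin.valEmbedding := by
    ext v
    rw [Finset.mem_filter, Finset.mem_range, Finset.mem_map]
    constructor
    · rintro ⟨h3, h4⟩
      exact ⟨⟨v, h3⟩, by simpa using h4, rfl⟩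
    · rintro ⟨w, hw, rfl⟩
      exact ⟨w.2, by simpa using hw⟩
  rw [h2, Finset.card_map]

/-- masks of upper ideals -/
def ckId (L : Fin N → (Fin n → ℤ)) (m : ℕ) : Prop := m < 2 ^ N ∧ ckUp (Set.range L) (ckSet L m)

theorem CkH.id_r (h : CkH L u) (m : ℕ) : ckId L (ckr u N m) :=
  ⟨h.r_lt m, by rw [h.r_set]; exact ck_up_upIdeal _ _⟩

theorem CkH.id_iter (h : CkH L u) {m : ℕ} (hm : ckId L m) : ∀ s, ckId L ((ckr u N)^[s] m) := by
  intro s
  cases s with
  | zero => exact hm
  | succ s =>
    rw [Function.iterate_succ_apply']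
    exact h.id_r _

theorem CkH.r_inj (h : CkH L u) {m m' : ℕ} (hm : ckId L m) (hm' : ckId L m')
    (e : ckr u N m = ckr u N m') : m = m' := by
  refine ck_set_inj h.inj hm.1 hm'.1 (ck_R_inj (Set.finite_range L) hm.2 hm'.2 ?_)
  rw [← h.r_set, ← h.r_set, e]

theorem CkH.iter_inj (h : CkH L u) {m m' : ℕ} (hm : ckId L m) (hm' : ckId L m') :
    ∀ s, (ckr u N)^[s] m = (ckr u N)^[s] m' → m = m' := by
  intro s
  induction s with
  | zero => exact fun e => e
  | succ s ih =>
    intro e
    rw [Function.iterate_succ_apply', Function.iterate_succ_apply'] at e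
    exact ih (h.r_inj (h.id_iter hm s) (h.id_iter hm' s) e)

/-- the meaning of the orbit check -/
theorem ckO_spec (u : ℕ → ℕ) (N I : ℕ) : ∀ q J c : ℕ,
    ckO N (fun I κ J c => κ (ckJ I (ckT u N) J) (ckN I (ckT u N) c)) q I J c = true →
    (∃ s, 1 ≤ s ∧ s ≤ q ∧ (ckr u N)^[s] J < I) ∨
      ((ckr u N)^[q] J = I ∧ c + ∑ s ∈ Finset.range q, ckn u N ((ckr u N)^[s] J) = N) := by
  intro q
  induction q with
  | zero =>
    intro J c h
    obtain ⟨h1, h2⟩ := ck_A h
    right
    refine ⟨Nat.eq_of_beq_eq_true h1, ?_⟩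
    rw [Finset.range_zero, Finset.sum_empty, add_zero]
    exact Nat.eq_of_beq_eq_true h2
  | succ q ih =>
    intro J c h
    have h1 : Bool.rec (motive := fun _ => Bool)
      (ckO N (fun I κ J c => κ (ckJ I (ckT u N) J) (ckN I (ckT u N) c)) q I (ckr u N J)
        (ckN J (ckT u N) c)) true (Nat.ble (Nat.succ (ckr u N J)) I) = true := h
    cases h2 : Nat.ble (Nat.succ (ckr u N J)) I with
    | true =>
      left
      exact ⟨1, le_rfl, by omega, Nat.le_of_ble_eq_true h2⟩
    | false =>
      rw [h2] at h1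
      rcases ih _ _ h1 with ⟨s, h3, h4, h5⟩ | ⟨h3, h4⟩
      · left
        exact ⟨s + 1, by omega, by omega, h5⟩
      · right
        refine ⟨h3, ?_⟩
        rw [Finset.sum_range_succ']
        rw [ckN_eq] at h4
        change c + (∑ s ∈ Finset.range q, ckn u N ((ckr u N)^[s] (ckr u N J)) + ckn u N J) = N
        unfold ckn at h4 ⊢
        omega

/-- the meaning of the enumeration -/
theorem CkH.E_spec (h : CkH L u) (f : CkF) (q : ℕ) : ∀ k ≤ N, ∀ I : ℕ,
    ckE N f q (ckT u k) I = true → ∀ m, ckId L m →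
    (∀ i, I.testBit i = (decide (k ≤ i) && m.testBit i)) → ckO N f q m m 0 = true := by
  intro k
  induction k with
  | zero =>
    intro _ I hE m hm hb
    have h1 : I = m := by
      apply Nat.eq_of_testBit_eq
      intro i
      rw [hb i]
      simp
    subst h1
    exact hE
  | succ k ih =>
    intro hk I hE m hm hb
    have hk' : k < N := hk
    have h1 : Bool.rec (motive := fun _ => Bool) (ckE N f q (ckT u k) I)
      (ckA (ckE N f q (ckT u k) (Nat.lor I (u k ||| 2 ^ k))) (ckE N f q (ckT u k) I))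
      (Nat.beq (Nat.land I (u k)) (u k)) = true := hE
    cases hmk : m.testBit k with
    | true =>
      have h2 : ∀ i, (u k).testBit i = true → I.testBit i = true := by
        intro i hi
        have hiN : i < N := by
          by_contra hc
          rw [h.hi hk' (not_lt.1 hc)] at hi
          cases hi
        have hki : k < i := by
          by_contra hc
          rw [h.lo hk' (not_lt.1 hc)] at hi
          cases hi
        have h3 := (h.up ⟨k, hk'⟩ ⟨i, hiN⟩).1 hi
        have h4 : L ⟨i, hiN⟩ ∈ ckSet L m := hm.2.2 (L ⟨k, hk'⟩) ((ck_mem h.inj).2 hmk)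
          (L ⟨i, hiN⟩) ⟨_, rfl⟩ h3.1
        rw [ck_mem h.inj] at h4
        rw [hb i, h4, decide_eq_true (by omega : k + 1 ≤ i)]
        rfl
      have h3 : Nat.land I (u k) = u k := by
        change I &&& u k = u k
        apply Nat.eq_of_testBit_eq
        intro i
        rw [Nat.testBit_and]
        cases h4 : (u k).testBit i with
        | false => rw [Bool.and_false]
        | true => rw [h2 i h4]; rfl
      have h4 : Nat.beq (Nat.land I (u k)) (u k) = true := by rw [h3]; exact Nat.beq_refl _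
      rw [h4] at h1
      refine ih (by omega) _ (ck_A h1).1 m hm ?_
      intro i
      change (I ||| (u k ||| 2 ^ k)).testBit i = _
      rw [Nat.testBit_or, Nat.testBit_or, Nat.testBit_two_pow]
      cases h5 : (u k).testBit i with
      | true =>
        have h6 := h2 i h5
        have h7 := hb i
        rw [h6] at h7
        have h8 := h7.symm
        rw [Bool.and_eq_true, decide_eq_true_eq] at h8
        rw [h6, h8.2, decide_eq_true (by omega : k ≤ i)]
        rfl
      | false =>
        rw [hb i, Bool.false_or]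
        by_cases h6 : k = i
        · subst h6
          rw [hmk]
          simp
        · rw [decide_eq_false h6, Bool.or_false]
          congr 1
          simp only [decide_eq_decide]
          omega
    | false =>
      have h2 : ckE N f q (ckT u k) I = true := by
        cases h3 : Nat.beq (Nat.land I (u k)) (u k) with
        | true =>
          rw [h3] at h1
          exact (ck_A h1).2
        | false =>
          rw [h3] at h1
          exact h1
      refine ih (by omega) I h2 m hm ?_
      intro i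
      rw [hb i]
      by_cases h6 : k = i
      · subst h6
        rw [hmk, Bool.and_false, Bool.and_false]
      · congr 1
        simp only [decide_eq_decide]
        omega

end masks

/-! ### Periodic sequences -/

theorem ck_shift (f : ℕ → ℕ) (q : ℕ) (hf : ∀ t, f (t + q) = f t) : ∀ s : ℕ,
    ∑ t ∈ Finset.range q, f (t + s) = ∑ t ∈ Finset.range q, f t := by
  intro s
  induction s with
  | zero => simp
  | succ s ih =>
    rw [← ih]
    have h1 := Finset.sum_range_succ' (fun t => f (t + s)) q
    have h2 := Finset.sum_range_succ (fun t => f (t + s)) q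
    rw [h1] at h2
    have h3 : f (q + s) = f (0 + s) := by
      rw [add_comm q s, hf, zero_add]
    rw [h3] at h2
    have h4 : ∑ t ∈ Finset.range q, f (t + 1 + s) = ∑ t ∈ Finset.range q, f (t + (s + 1)) :=
      Finset.sum_congr rfl fun t _ => by rw [show t + 1 + s = t + (s + 1) by ring]
    rw [h4] at h2
    omega

theorem ck_mult (f : ℕ → ℕ) (q : ℕ) (hf : ∀ t, f (t + q) = f t) : ∀ k : ℕ,
    ∑ t ∈ Finset.range (k * q), f t = k * ∑ t ∈ Finset.range q, f t := by
  intro k
  induction k with
  | zero => simp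
  | succ k ih =>
    rw [Nat.succ_mul, Finset.sum_range_add, ih, Nat.succ_mul]
    congr 1
    rw [← ck_shift f q hf (k * q)]
    exact Finset.sum_congr rfl fun t _ => by rw [add_comm]

theorem ck_period {α : Type*} (g : α → α) (x : α) (q : ℕ) (h : g^[q] x = x) (t : ℕ) :
    g^[t + q] x = g^[t] x := by
  rw [Function.iterate_add_apply, h]

/-- every ideal returns after `q` steps, and the sizes sum up to `N` -/
theorem CkH.good {n N q : ℕ} {L : Fin N → (Fin n → ℤ)} {u : ℕ → ℕ} (h : CkH L u)
    (hO : ∀ m, ckId L m → ckO N (fun I κ J c => κ (ckJ I (ckT u N) J) (ckN I (ckT u N) c)) q m m 0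
      = true) : ∀ m, ckId L m → (ckr u N)^[q] m = m ∧
        ∑ s ∈ Finset.range q, ckn u N ((ckr u N)^[s] m) = N := by
  intro m
  induction m using Nat.strong_induction_on with
  | _ m ih =>
    intro hm
    rcases ckO_spec u N m q m 0 (hO m hm) with ⟨s, hs1, hs2, hs3⟩ | ⟨h1, h2⟩
    · obtain ⟨h1, h2⟩ := ih _ hs3 (h.id_iter hm s)
      have h3 : (ckr u N)^[q] m = m := by
        refine h.iter_inj (h.id_iter hm q) hm s ?_
        rw [← Function.iterate_add_apply, add_comm, Function.iterate_add_apply]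
        exact h1
      refine ⟨h3, ?_⟩
      have h4 := ck_shift (fun t => ckn u N ((ckr u N)^[t] m)) q
        (fun t => by rw [ck_period _ _ _ h3]) s
      refine Eq.trans h4.symm (Eq.trans ?_ h2)
      exact Finset.sum_congr rfl fun t _ => by rw [Function.iterate_add_apply]
    · rw [zero_add] at h2
      exact ⟨h1, h2⟩

theorem homomesy_of_check {n N q : ℕ} (L : Fin N → (Fin n → ℤ)) (hL : Function.Injective L)
    (up : List ℕ) (hup : ∀ a b : Fin N, (up.getD a 0).testBit b = true ↔ (L a ≤ L b ∧ a ≠ b))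
    (h : checkHomomesy N q up = true) : Homomesy (Set.range L) q := by
  -- the data
  have h1 : ckM (2 ^ N) (fun t => ckB t (fun f => ckE N f q t 0)) up (2 ^ 0)
    (ckT (fun i => up.getD i 0) 0) = true := h
  obtain ⟨h2, h3, h4⟩ := ckM_spec (2 ^ N) (fun t => ckB t (fun f => ckE N f q t 0)) up up 0
    rfl (Nat.zero_le _) h1
  have h5 : up.length = N := Nat.pow_right_injective le_rfl h2
  rw [h5] at h3 h4
  set u : ℕ → ℕ := fun i => up.getD i 0 with hu
  have hH : CkH L u := ⟨hL, hup, fun i hi => (h4 i (Nat.zero_le _) hi).1,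
    fun i hi => (h4 i (Nat.zero_le _) hi).2⟩
  have h3' : ckB (ckT u N) (fun f => ckE N f q (ckT u N) 0) = true := h3
  rw [ck_B] at h3'
  have hO : ∀ m, ckId L m → ckO N (fun I κ J c => κ (ckJ I (ckT u N) J) (ckN I (ckT u N) c)) q m m 0
      = true := by
    intro m hm
    refine hH.E_spec _ q N le_rfl 0 h3' m hm ?_
    intro i
    rw [Nat.zero_testBit]
    by_cases hi : N ≤ i
    · rw [Nat.testBit_lt_two_pow (lt_of_lt_of_le hm.1 (Nat.pow_le_pow_right (by norm_num) hi)),
        Bool.and_false]
    · rw [decide_eq_false hi, Bool.false_and]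
  have hgood := hH.good hO
  -- antichains
  set S := Set.range L with hS
  refine ⟨Set.finite_range L, fun A hA hanti T hT => ?_⟩
  obtain ⟨m, hm1, hm2⟩ := ck_exists_mask (L := L) (upIdeal S A) (fun x hx => hx.1) hL
  have hid : ckId L m := ⟨hm1, by rw [hm2]; exact ck_up_upIdeal _ _⟩
  obtain ⟨hq, hsum⟩ := hgood m hid
  have hU : ∀ t, upIdeal S ((rev S)^[t] A) = ckSet L ((ckr u N)^[t] m) := by
    intro t
    induction t with
    | zero => exact hm2.symm
    | succ t ih =>
      rw [Function.iterate_succ_apply', Function.iterate_succ_apply', hH.r_set, ← ih]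
      rfl
  have hF : ∀ t, (rev S)^[t] A ⊆ S ∧ IsAntichain (· ≤ ·) ((rev S)^[t] A) := by
    intro t
    cases t with
    | zero => exact ⟨hA, hanti⟩
    | succ t =>
      rw [Function.iterate_succ_apply']
      exact ⟨ck_mx_sub _ _, ck_mx_anti _ _⟩
  have hAq : (rev S)^[q] A = A := by
    refine ck_anti_eq (hF q).1 hA (hF q).2 hanti ?_
    rw [hU q, hq, hm2]
  have hcard : ∀ t, ((rev S)^[t + 1] A).ncard = ckn u N ((ckr u N)^[t] m) := by
    intro t
    rw [Function.iterate_succ_apply', hH.n_eq, ← hU t]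
    rfl
  have hsumq : ∑ t ∈ Finset.range q, ((rev S)^[t] A).ncard = N := by
    have e1 := ck_shift (fun t => ((rev S)^[t] A).ncard) q
      (fun t => by rw [ck_period _ _ _ hAq]) 1
    rw [← e1, ← hsum]
    exact Finset.sum_congr rfl fun t _ => hcard t
  have hNS : S.ncard = N := by
    rw [hS, ← Set.image_univ, Set.ncard_image_of_injective _ hL, Set.ncard_univ, Nat.card_eq_fintype_card,
      Fintype.card_fin]
  have e1 := ck_mult (fun t => ((rev S)^[t] A).ncard) T (fun t => by rw [ck_period _ _ _ hT]) q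
  have e2 := ck_mult (fun t => ((rev S)^[t] A).ncard) q (fun t => by rw [ck_period _ _ _ hAq]) T
  rw [mul_comm T q, e1, hsumq] at e2
  rw [hNS]
  exact e2

end Pool.Agent.TH657.Pan
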