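import Mathlib
import Pool.Agent.TH657.Pan.Defs

set_option autoImplicit false

/-!
# A checker for the list of the positive roots

`exCheck C R` is a Boolean check on a list `R` of integral vectors (written as lists) and the data
`C` of a Cartan matrix `M`.  If it succeeds then `R` is the list of the positive roots
(`isRoot_iff_of_exCheck`), and the roots with `k`-th coordinate one are the entries of `R` with
`k`-th coordinate one (`mem_delta1_of_exCheck`).
-/

namespace Pool.Agent.TH657.Pan

/-- dot product of lists -/
def exDot : List ℤ → List ℤ → ℤ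
  | a :: l, b :: m => a * b + exDot l m
  | _, _ => 0

/-- subtract `c` from the entry with index `j` -/
def exSub : List ℤ → ℕ → ℤ → List ℤ
  | [], _, _ => []
  | a :: l, 0, c => (a - c) :: l
  | a :: l, j + 1, c => a :: exSub l j c

/-- the data of the Cartan matrix used by the check: for every index `j`, the list of the
coordinates of the simple root `α_j` and the `j`-th column of the matrix. -/
def exData {n : ℕ} (M : Matrix (Fin n) (Fin n) ℤ) : List (ℕ × List ℤ × List ℤ) :=
  List.ofFn (fun j : Fin n =>
    ((j : ℕ), List.ofFn (Pi.single j (1 : ℤ) : Fin n → ℤ), List.ofFn (fun i => M i j)))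

/-- the check: all entries of `R` have nonnegative entries; the simple roots are in `R`; each entry
of `R` which is not a simple root has a positive product with a column, and the reflection of an
entry of `R` is in `R`, but for a simple root and its own reflection. -/
def exCheck (C : List (ℕ × List ℤ × List ℤ)) (R : List (List ℤ)) : Bool :=
  R.all (fun r => r.all (fun a => decide (0 ≤ a))) &&
  C.all (fun c => R.contains c.2.1) &&
  R.all (fun r => C.any (fun c => r == c.2.1) || C.any (fun c => decide (0 < exDot r c.2.2))) &&
  R.all (fun r => C.all (fun c => r == c.2.1 || R.contains (exSub r c.1 (exDot r c.2.2))))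

theorem exDot_ofFn {n : ℕ} (v w : Fin n → ℤ) :
    exDot (List.ofFn v) (List.ofFn w) = ∑ i, v i * w i := by
  induction n with
  | zero => simp [exDot]
  | succ n ih =>
    rw [List.ofFn_succ, List.ofFn_succ, exDot, ih, Fin.sum_univ_succ]

theorem exSub_ofFn {n : ℕ} (v : Fin n → ℤ) (j : Fin n) (c : ℤ) :
    exSub (List.ofFn v) (j : ℕ) c = List.ofFn (v - Pi.single j c) := by
  induction n with
  | zero => exact j.elim0
  | succ n ih =>
    rw [List.ofFn_succ, List.ofFn_succ]
    refine Fin.cases ?_ (fun j => ?_) j
    · simp only [Fin.val_zero, exSub, Pi.sub_apply, Pi.single_eq_same]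
      congr 1
      apply congrArg
      funext i
      simp [Fin.succ_ne_zero]
    · simp only [Fin.val_succ, exSub]
      congr 1
      · simp [(Fin.succ_ne_zero _).symm]
      · rw [ih]
        apply congrArg
        funext i
        simp [Pi.single_apply]

section Check

variable {n : ℕ} {M : Matrix (Fin n) (Fin n) ℤ} {R : List (List ℤ)}

private theorem ofFn_inj' {v w : Fin n → ℤ} : List.ofFn v = List.ofFn w ↔ v = w :=
  List.ofFn_injective.eq_iff

private theorem exCheck_spec (h : exCheck (exData M) R = true) :
    (∀ v : Fin n → ℤ, List.ofFn v ∈ R → ∀ i, 0 ≤ v i) ∧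
    (∀ j : Fin n, List.ofFn (Pi.single j (1 : ℤ) : Fin n → ℤ) ∈ R) ∧
    (∀ v : Fin n → ℤ, List.ofFn v ∈ R → (∃ j : Fin n, v = Pi.single j 1) ∨
      ∃ j : Fin n, 0 < ∑ i, v i * M i j) ∧
    (∀ v : Fin n → ℤ, List.ofFn v ∈ R → ∀ j : Fin n, v = Pi.single j 1 ∨
      List.ofFn (v - Pi.single j (∑ i, v i * M i j)) ∈ R) := by
  simp only [exCheck, Bool.and_eq_true, List.all_eq_true, List.contains_iff_mem, Bool.or_eq_true,
    List.any_eq_true, decide_eq_true_eq, beq_iff_eq] at h
  obtain ⟨⟨⟨h1, h2⟩, h3⟩, h4⟩ := h
  have hmem : ∀ j : Fin n, (((j : ℕ), List.ofFn (Pi.single j (1 : ℤ) : Fin n → ℤ),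
      List.ofFn (fun i => M i j)) : ℕ × List ℤ × List ℤ) ∈ exData M := by
    intro j
    rw [exData, List.mem_ofFn]
    exact ⟨j, rfl⟩
  refine ⟨fun v hv i => ?_, fun j => ?_, fun v hv => ?_, fun v hv j => ?_⟩
  · exact h1 _ hv (v i) (by rw [List.mem_ofFn]; exact ⟨i, rfl⟩)
  · exact h2 _ (hmem j)
  · rcases h3 _ hv with ⟨c, hc, hc'⟩ | ⟨c, hc, hc'⟩
    · rw [exData, List.mem_ofFn] at hc
      obtain ⟨j, rfl⟩ := hc
      exact Or.inl ⟨j, List.ofFn_injective hc'⟩
    · rw [exData, List.mem_ofFn] at hc
      obtain ⟨j, rfl⟩ := hc
      refine Or.inr ⟨j, ?_⟩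
      rw [exDot_ofFn] at hc'
      exact hc'
  · rcases h4 _ hv _ (hmem j) with h | h
    · exact Or.inl (List.ofFn_injective h)
    · right
      rw [exDot_ofFn, exSub_ofFn] at h
      exact h

private theorem isRoot_neg (hM : ∀ j, M j j = 2) {v : Fin n → ℤ} (hv : IsRoot M v) :
    IsRoot M (-v) := by
  induction hv with
  | simple i =>
    have h := IsRoot.reflect i _ (IsRoot.simple (M := M) i)
    have h2 : ∑ i', (Pi.single i (1 : ℤ) : Fin n → ℤ) i' * M i' i = 2 := by
      rw [Finset.sum_eq_single i]
      · simp [hM]
      · intro b _ hb; simp [Pi.single_eq_of_ne hb]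
      · simp
    rw [h2] at h
    have h3 : (Pi.single i (1 : ℤ) - Pi.single i 2 : Fin n → ℤ) = -Pi.single i 1 := by
      funext j
      by_cases hj : j = i
      · subst hj; simp
      · simp [Pi.single_eq_of_ne hj]
    rw [h3] at h
    exact h
  | reflect j v hv ih =>
    have h := IsRoot.reflect j _ ih
    have h3 : (-v - Pi.single j (∑ i, (-v) i * M i j) : Fin n → ℤ)
        = -(v - Pi.single j (∑ i, v i * M i j)) := by
      have : ∑ i, (-v) i * M i j = -∑ i, v i * M i j := by
        rw [← Finset.sum_neg_distrib]
        exact Finset.sum_congr rfl (fun i _ => by simp)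
      rw [this, Pi.single_neg]
      abel
    rw [h3] at h
    exact h

/-- If the check succeeds, then the roots are the elements of the list and their opposites. -/
theorem isRoot_iff_of_exCheck (hM : ∀ j, M j j = 2) (h : exCheck (exData M) R = true)
    (v : Fin n → ℤ) :
    IsRoot M v ↔ List.ofFn v ∈ R ∨ List.ofFn (-v) ∈ R := by
  obtain ⟨h1, h2, h3, h4⟩ := exCheck_spec h
  have hsum : ∀ j : Fin n, ∑ i', (Pi.single j (1 : ℤ) : Fin n → ℤ) i' * M i' j = 2 := by
    intro j
    rw [Finset.sum_eq_single j]
    · simp [hM]
    · intro b _ hb; simp [Pi.single_eq_of_ne hb]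
    · simp
  have hpos : ∀ (v : Fin n → ℤ) (j : Fin n), List.ofFn v ∈ R →
      List.ofFn (v - Pi.single j (∑ i, v i * M i j)) ∈ R ∨
      List.ofFn (-(v - Pi.single j (∑ i, v i * M i j))) ∈ R := by
    intro v j hv
    rcases h4 v hv j with rfl | h
    · right
      rw [hsum j]
      have h5 : (-(Pi.single j (1 : ℤ) - Pi.single j 2) : Fin n → ℤ) = Pi.single j 1 := by
        funext i
        by_cases hj : i = j
        · subst hj; simp
        · simp [Pi.single_eq_of_ne hj]
      rw [h5]
      exact h2 j
    · exact Or.inl h
  constructor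
  · intro hv
    induction hv with
    | simple i => exact Or.inl (h2 i)
    | reflect j v hv ih =>
      rcases ih with ih | ih
      · exact hpos v j ih
      · have h6 := hpos (-v) j ih
        have h7 : (-v - Pi.single j (∑ i, (-v) i * M i j) : Fin n → ℤ)
            = -(v - Pi.single j (∑ i, v i * M i j)) := by
          have : ∑ i, (-v) i * M i j = -∑ i, v i * M i j := by
            rw [← Finset.sum_neg_distrib]
            exact Finset.sum_congr rfl (fun i _ => by simp)
          rw [this, Pi.single_neg]
          abel
        rw [h7, neg_neg] at h6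
        exact h6.symm
  · have key : ∀ (N : ℕ) (v : Fin n → ℤ), List.ofFn v ∈ R → ∑ i, v i ≤ (N : ℤ) → IsRoot M v := by
      intro N
      induction N with
      | zero =>
        intro v hv hN
        rcases h3 v hv with ⟨j, rfl⟩ | ⟨j, hj⟩
        · exact IsRoot.simple j
        · exfalso
          have h0 : ∀ i, v i = 0 := by
            have h00 : ∑ i, v i = 0 := le_antisymm (by simpa using hN)
              (Finset.sum_nonneg (fun i _ => h1 v hv i))
            intro i
            exact (Finset.sum_eq_zero_iff_of_nonneg (fun i _ => h1 v hv i)).1 h00 i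
              (Finset.mem_univ i)
          have : ∑ i, v i * M i j = 0 := Finset.sum_eq_zero (fun i _ => by rw [h0 i, zero_mul])
          omega
      | succ N ih =>
        intro v hv hN
        rcases h3 v hv with ⟨j, rfl⟩ | ⟨j, hj⟩
        · exact IsRoot.simple j
        · rcases h4 v hv j with rfl | h5
          · exact IsRoot.simple j
          · set c := ∑ i, v i * M i j with hc
            have h6 : IsRoot M (v - Pi.single j c) := by
              apply ih _ h5
              have : ∑ i, (v - Pi.single j c : Fin n → ℤ) i = ∑ i, v i - c := by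
                simp only [Pi.sub_apply, Finset.sum_sub_distrib]
                congr 1
                rw [Finset.sum_eq_single j]
                · simp
                · intro b _ hb; simp [Pi.single_eq_of_ne hb]
                · simp
              rw [this]
              push_cast at hN
              omega
            have h7 := IsRoot.reflect j _ h6
            have h8 : ∑ i, (v - Pi.single j c : Fin n → ℤ) i * M i j = -c := by
              have : ∀ i, (v - Pi.single j c : Fin n → ℤ) i * M i j
                  = v i * M i j - (Pi.single j c : Fin n → ℤ) i * M i j := by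
                intro i; simp only [Pi.sub_apply]; ring
              simp only [this, Finset.sum_sub_distrib]
              have h9 : ∑ i, (Pi.single j c : Fin n → ℤ) i * M i j = 2 * c := by
                rw [Finset.sum_eq_single j]
                · simp [hM, mul_comm]
                · intro b _ hb; simp [Pi.single_eq_of_ne hb]
                · simp
              rw [h9, ← hc]; ring
            rw [h8, Pi.single_neg] at h7
            have h10 : v - Pi.single j c - -Pi.single j c = v := by abel
            rw [h10] at h7
            exact h7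
    have key' : ∀ v : Fin n → ℤ, List.ofFn v ∈ R → IsRoot M v := by
      intro v hv
      exact key (∑ i, v i).toNat v hv (Int.self_le_toNat _)
    rintro (hv | hv)
    · exact key' v hv
    · have := isRoot_neg hM (key' (-v) hv)
      rwa [neg_neg] at this

/-- If the check succeeds, then `Delta1 M k` is the set of the elements of the list with `k`-th
coordinate one. -/
theorem mem_delta1_of_exCheck (hM : ∀ j, M j j = 2) (h : exCheck (exData M) R = true) (k : Fin n)
    (v : Fin n → ℤ) :
    v ∈ Delta1 M k ↔ List.ofFn v ∈ R.filter (fun r => r.getD (k : ℕ) 0 == 1) := by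
  have h1 := (exCheck_spec h).1
  rw [List.mem_filter, beq_iff_eq]
  have h2 : (List.ofFn v).getD (k : ℕ) 0 = v k := by
    rw [List.getD_eq_getElem _ _ (by simp), List.getElem_ofFn]
  rw [h2, Delta1, Set.mem_ofPred_eq, isRoot_iff_of_exCheck hM h]
  constructor
  · rintro ⟨hv | hv, hk⟩
    · exact ⟨hv, hk⟩
    · exfalso
      have := h1 _ hv k
      simp only [Pi.neg_apply] at this
      omega
  · rintro ⟨hv, hk⟩
    exact ⟨Or.inl hv, hk⟩

/-- A computable check that `L` lists exactly the vectors of `Delta1 M k`, given the list `R` of the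
positive roots and the data `C` of the Cartan matrix. -/
def checkDelta {n : ℕ} (M : Matrix (Fin n) (Fin n) ℤ) (R : List (List ℤ)) (k : Fin n)
    (L : List (List ℤ)) : Bool :=
  exCheck (exData M) R && (List.finRange n).all (fun j => M j j == 2) &&
    (R.filter (fun r => r.getD (k : ℕ) 0 == 1) == L)

theorem mem_delta1_of_checkDelta {k : Fin n} {L : List (List ℤ)} (h : checkDelta M R k L = true)
    (v : Fin n → ℤ) : v ∈ Delta1 M k ↔ List.ofFn v ∈ L := by
  simp only [checkDelta, Bool.and_eq_true, List.all_eq_true, beq_iff_eq] at h
  obtain ⟨⟨h1, h2⟩, h3⟩ := h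
  rw [← h3]
  exact mem_delta1_of_exCheck (fun j => h2 j (List.mem_finRange j)) h1 k v

end Check

section Family

/-- The family of vectors given by a list of lists. -/
def exFam (n : ℕ) (L : List (List ℤ)) (a : Fin L.length) : Fin n → ℤ :=
  fun i => (L.get a).getD (i : ℕ) 0

theorem ofFn_exFam {n : ℕ} {L : List (List ℤ)} (hl : ∀ l ∈ L, l.length = n)
    (a : Fin L.length) : List.ofFn (exFam n L a) = L.get a := by
  have h := hl (L.get a) (List.get_mem L a)
  apply List.ext_getElem
  · rw [List.length_ofFn, h]
  · intro i h1 h2
    rw [List.getElem_ofFn]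
    simp only [exFam]
    rw [List.getD_eq_getElem _ _ h2]

/-- The family given by a list without duplicates is injective. -/
theorem exFam_injective {n : ℕ} {L : List (List ℤ)} (hl : ∀ l ∈ L, l.length = n)
    (hd : L.Nodup) : Function.Injective (exFam n L) := by
  intro a b hab
  have h : L.get a = L.get b := by rw [← ofFn_exFam hl a, ← ofFn_exFam hl b, hab]
  exact hd.injective_get h

/-- If `L` lists the vectors of a set `S`, then the range of the family is `S`. -/
theorem range_exFam {n : ℕ} {L : List (List ℤ)} (hl : ∀ l ∈ L, l.length = n)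
    {S : Set (Fin n → ℤ)} (h : ∀ v, v ∈ S ↔ List.ofFn v ∈ L) : Set.range (exFam n L) = S := by
  ext v
  rw [h v]
  constructor
  · rintro ⟨a, rfl⟩
    rw [ofFn_exFam hl a]
    exact List.get_mem L a
  · intro hv
    obtain ⟨a, ha⟩ := List.mem_iff_get.1 hv
    refine ⟨a, ?_⟩
    apply List.ofFn_injective
    rw [ofFn_exFam hl a, ha]

/-- The coordinatewise order of lists of the same length. -/
def exLe : List ℤ → List ℤ → Bool
  | a :: l, b :: m => decide (a ≤ b) && exLe l m
  | _, _ => true

theorem exLe_ofFn {n : ℕ} (v w : Fin n → ℤ) :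
    exLe (List.ofFn v) (List.ofFn w) = true ↔ v ≤ w := by
  induction n with
  | zero => simp only [List.ofFn_zero, exLe, true_iff]; intro i; exact i.elim0
  | succ n ih =>
    rw [List.ofFn_succ, List.ofFn_succ, exLe, Bool.and_eq_true, decide_eq_true_eq, ih,
      Pi.le_def, Pi.le_def, Fin.forall_fin_succ]

theorem exFam_le {n : ℕ} {L : List (List ℤ)} (hl : ∀ l ∈ L, l.length = n)
    (a b : Fin L.length) : exFam n L a ≤ exFam n L b ↔ exLe (L.get a) (L.get b) = true := by
  rw [← exLe_ofFn, ofFn_exFam hl a, ofFn_exFam hl b]

/-- The bitmask of the entries `m` of `L'` (numbered from `s` on) with `l ≤ m`, `l ≠ m`. -/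
def exMask (l : List ℤ) : List (List ℤ) → ℕ → ℕ
  | [], _ => 0
  | m :: L', s => (if exLe l m && !(l == m) then 2 ^ s else 0) ||| exMask l L' (s + 1)

/-- The list of the bitmasks of the elements strictly above the entries of `L`. -/
def exUp (L : List (List ℤ)) : List ℕ := L.map (fun l => exMask l L 0)

theorem exMask_testBit (l : List ℤ) (L : List (List ℤ)) (s b : ℕ) :
    (exMask l L s).testBit b = true ↔
      ∃ (i : ℕ) (hi : i < L.length), b = s + i ∧ exLe l L[i] = true ∧ l ≠ L[i] := by
  induction L generalizing s with
  | nil => simp [exMask]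
  | cons m L ih =>
    rw [exMask, Nat.testBit_or, Bool.or_eq_true, ih]
    constructor
    · rintro (h | ⟨i, hi, h1, h2, h3⟩)
      · split_ifs at h with h'
        · rw [Nat.testBit_two_pow, decide_eq_true_eq] at h
          simp only [Bool.and_eq_true, Bool.not_eq_true', beq_eq_false_iff_ne] at h'
          exact ⟨0, by simp, by omega, by simpa using h'.1, by simpa using h'.2⟩
        · simp at h
      · exact ⟨i + 1, by simpa using hi, by omega, by simpa using h2, by simpa using h3⟩
    · rintro ⟨i, hi, h1, h2, h3⟩
      rcases i with _ | i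
      · left
        simp only [List.getElem_cons_zero] at h2 h3
        have h' : (exLe l m && !(l == m)) = true := by
          simp only [Bool.and_eq_true, Bool.not_eq_true', beq_eq_false_iff_ne]
          exact ⟨h2, h3⟩
        rw [if_pos h', Nat.testBit_two_pow, decide_eq_true_eq]
        omega
      · right
        exact ⟨i, by simpa using hi, by omega, by simpa using h2, by simpa using h3⟩

/-- The bitmasks describe the order of the family. -/
theorem exUp_testBit {n : ℕ} {L : List (List ℤ)} (hl : ∀ l ∈ L, l.length = n) (hd : L.Nodup)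
    (a b : Fin L.length) :
    ((exUp L).getD a 0).testBit b = true ↔ (exFam n L a ≤ exFam n L b ∧ a ≠ b) := by
  rw [exFam_le hl, exUp, List.getD_eq_getElem _ _ (by simp), List.getElem_map, exMask_testBit]
  constructor
  · rintro ⟨i, hi, h1, h2, h3⟩
    have h4 : b = ⟨i, hi⟩ := Fin.ext (by simpa using h1)
    subst h4
    refine ⟨h2, ?_⟩
    rintro rfl
    exact h3 rfl
  · rintro ⟨h1, h2⟩
    refine ⟨b, b.2, by simp, h1, ?_⟩
    intro h3
    apply h2
    exact hd.injective_get h3

end Family

end Pool.Agent.TH657.Pan
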