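import Mathlib
import Pool.Agent.TH657.Pan.Defs
import Pool.Agent.TH657.Pan.Rot
import Pool.Agent.TH657.Pan.Homs

set_option autoImplicit false

namespace Pool.Agent.TH657.Pan

open Finset Classical

section Orbit

variable {P : Type*} [PartialOrder P]

/-- The orbit of `A` under the reverse operator of `S`. -/
def orbit (S A : Set P) : Set (Set P) := {B | ∃ t : ℕ, (rev S)^[t] A = B}

theorem rev_mem {S : Set P} {A : Set P} :
    rev S A ⊆ S ∧ IsAntichain (· ≤ ·) (rev S A) := ⟨rev_subset _ _, rev_antichain _ _⟩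

theorem iter_mem {S A : Set P} (hAS : A ⊆ S) (hA : IsAntichain (· ≤ ·) A) (t : ℕ) :
    (rev S)^[t] A ⊆ S ∧ IsAntichain (· ≤ ·) ((rev S)^[t] A) := by
  cases t with
  | zero => exact ⟨hAS, hA⟩
  | succ t =>
    rw [Function.iterate_succ_apply']
    exact ⟨rev_subset _ _, rev_antichain _ _⟩

theorem not_up_iff {S A : Set P} (hS : S.Finite) (v : P) (hv : v ∈ S) :
    (∀ b ∈ A, ¬ b ≤ v) ↔ ∃ w ∈ rev S A, v ≤ w := by
  constructor
  · intro h
    have hfin : {w | w ∈ S ∧ v ≤ w ∧ ∀ b ∈ A, ¬ b ≤ w}.Finite := hS.subset (fun w hw => hw.1)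
    obtain ⟨w, ⟨hwS, hvw, hwU⟩, hmax⟩ := hfin.exists_maximal ⟨v, hv, le_refl _, h⟩
    refine ⟨w, mem_rev.2 ⟨hwS, hwU, ?_⟩, hvw⟩
    intro x hx hxU hwx
    exact hmax ⟨hx, hvw.trans hwx, hxU⟩ hwx
  · rintro ⟨w, hw, hvw⟩ b hb hbv
    exact (mem_rev.1 hw).2.1 b hb (hbv.trans hvw)

theorem rev_inj {S A B : Set P} (hS : S.Finite) (hAS : A ⊆ S) (hBS : B ⊆ S)
    (hA : IsAntichain (· ≤ ·) A) (hB : IsAntichain (· ≤ ·) B) (h : rev S A = rev S B) :
    A = B := by
  have key : ∀ v ∈ S, (∃ b ∈ A, b ≤ v) ↔ (∃ b ∈ B, b ≤ v) := by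
    intro v hv
    have h1 := not_up_iff (A := A) hS v hv
    have h2 := not_up_iff (A := B) hS v hv
    rw [h] at h1
    have h3 := h1.trans h2.symm
    constructor
    · intro h4
      by_contra h5
      push Not at h5
      obtain ⟨b, hb, hbv⟩ := h4
      exact h3.2 h5 b hb hbv
    · intro h4
      by_contra h5
      push Not at h5
      obtain ⟨b, hb, hbv⟩ := h4
      exact h3.1 h5 b hb hbv
  have one : ∀ C D : Set P, C ⊆ S → D ⊆ S → IsAntichain (· ≤ ·) C →
      (∀ v ∈ S, (∃ b ∈ C, b ≤ v) ↔ (∃ b ∈ D, b ≤ v)) → C ⊆ D := by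
    intro C D hCS hDS hC hk a ha
    obtain ⟨b, hb, hba⟩ := (hk a (hCS ha)).1 ⟨a, ha, le_refl _⟩
    obtain ⟨c, hc, hcb⟩ := (hk b (hDS hb)).2 ⟨b, hb, le_refl _⟩
    have hca : c = a := hC.eq hc ha (hcb.trans hba)
    subst hca
    have : b = c := le_antisymm hba hcb
    subst this
    exact hb
  exact Set.Subset.antisymm (one A B hAS hBS hA key)
    (one B A hBS hAS hB (fun v hv => (key v hv).symm))

theorem periodic {S A : Set P} (hS : S.Finite) (hAS : A ⊆ S) (hA : IsAntichain (· ≤ ·) A) :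
    A ∈ Function.periodicPts (rev S) := by
  -- two of the iterates coincide
  have hfin : {B : Set P | B ⊆ S}.Finite := hS.finite_subsets
  obtain ⟨s, _, t, _, hst, heq⟩ : ∃ s ∈ (Set.univ : Set ℕ), ∃ t ∈ (Set.univ : Set ℕ), s < t ∧
      (rev S)^[s] A = (rev S)^[t] A := by
    have := Set.infinite_univ.exists_lt_map_eq_of_mapsTo (f := fun t : ℕ => (rev S)^[t] A)
      (t := {B : Set P | B ⊆ S}) (fun t _ => (iter_mem hAS hA t).1) hfin
    exact this
  -- cancel
  have cancel : ∀ s : ℕ, ∀ B C : Set P, B ⊆ S → C ⊆ S → IsAntichain (· ≤ ·) B →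
      IsAntichain (· ≤ ·) C → (rev S)^[s] B = (rev S)^[s] C → B = C := by
    intro s
    induction s with
    | zero => intro B C _ _ _ _ h; exact h
    | succ s ih =>
      intro B C hB hC hB' hC' h
      rw [Function.iterate_succ_apply', Function.iterate_succ_apply'] at h
      exact ih B C hB hC hB' hC' (rev_inj hS (iter_mem hB hB' s).1 (iter_mem hC hC' s).1
        (iter_mem hB hB' s).2 (iter_mem hC hC' s).2 h)
  refine ⟨t - s, by omega, ?_⟩
  have h1 : (rev S)^[s] A = (rev S)^[s] ((rev S)^[t - s] A) := by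
    rw [← Function.iterate_add_apply, show s + (t - s) = t by omega]
    exact heq
  exact (cancel s A _ hAS (iter_mem hAS hA _).1 hA (iter_mem hAS hA _).2 h1).symm

theorem orbit_eq {S A : Set P} (h : A ∈ Function.periodicPts (rev S)) :
    orbit S A = ((range (Function.minimalPeriod (rev S) A)).image (fun t => (rev S)^[t] A) :
      Finset (Set P)) := by
  ext B
  simp only [orbit, Finset.coe_image, Set.mem_image, Finset.coe_range, Set.mem_Iio]
  constructor
  · rintro ⟨t, rfl⟩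
    exact ⟨t % Function.minimalPeriod (rev S) A,
      Nat.mod_lt _ (Function.minimalPeriod_pos_of_mem_periodicPts h),
      Function.iterate_mod_minimalPeriod_eq⟩
  · rintro ⟨t, _, rfl⟩
    exact ⟨t, rfl⟩

/-- The statement on averages, from the statement on closed walks. -/
theorem average_of_homomesy {S A : Set P} {q : ℕ} (hq : 0 < q) (hS : Homomesy S q) (hAS : A ⊆ S)
    (hA : IsAntichain (· ≤ ·) A) :
    (orbit S A).Finite ∧
      (∑ᶠ B ∈ orbit S A, (B.ncard : ℚ)) / ((orbit S A).ncard : ℚ) = (S.ncard : ℚ) / (q : ℚ) := by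
  have hper := periodic hS.1 hAS hA
  have hpos := Function.minimalPeriod_pos_of_mem_periodicPts hper
  have horb := orbit_eq hper
  have hinj : Set.InjOn (fun t => (rev S)^[t] A)
      (range (Function.minimalPeriod (rev S) A) : Set ℕ) := by
    rw [Finset.coe_range]
    exact Function.iterate_injOn_Iio_minimalPeriod
  refine ⟨by rw [horb]; exact Finset.finite_toSet _, ?_⟩
  have h1 := hS.2 A hAS hA (Function.minimalPeriod (rev S) A)
    (Function.isPeriodicPt_minimalPeriod (rev S) A)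
  set T := Function.minimalPeriod (rev S) A with hT
  have h2 : (orbit S A).ncard = T := by
    rw [horb, Set.ncard_coe_finset, Finset.card_image_of_injOn hinj, Finset.card_range]
  have h3 : ∑ᶠ B ∈ orbit S A, (B.ncard : ℚ) =
      ((∑ t ∈ range T, ((rev S)^[t] A).ncard : ℕ) : ℚ) := by
    rw [horb, finsum_mem_coe_finset, Finset.sum_image hinj]
    push_cast
    rfl
  rw [h2, h3, div_eq_div_iff (by exact_mod_cast hpos.ne') (by exact_mod_cast hq.ne')]
  have h4 : (q : ℚ) * ((∑ t ∈ range T, ((rev S)^[t] A).ncard : ℕ) : ℚ) = (T : ℚ) * (S.ncard : ℚ) := by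
    exact_mod_cast h1
  linarith

end Orbit

section Transfer

variable {P P' : Type*} [PartialOrder P] [PartialOrder P']

theorem rev_image {S : Set P} {T : Set P'} (f : P → P') (hf : ∀ p ∈ S, ∀ q ∈ S, (f p ≤ f q ↔ p ≤ q))
    (hT : f '' S = T) {A : Set P} (hAS : A ⊆ S) : rev T (f '' A) = f '' (rev S A) := by
  subst hT
  ext v
  constructor
  · intro hv
    obtain ⟨⟨x, hx, rfl⟩, hU, hmax⟩ := mem_rev.1 hv
    refine ⟨x, mem_rev.2 ⟨hx, ?_, ?_⟩, rfl⟩
    · intro b hb hle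
      exact hU (f b) ⟨b, hb, rfl⟩ ((hf b (hAS hb) x hx).2 hle)
    · intro w hw hwU hxw
      refine (hf w hw x hx).1 (hmax (f w) ⟨w, hw, rfl⟩ ?_ ((hf x hx w hw).2 hxw))
      rintro _ ⟨b, hb, rfl⟩ hle
      exact hwU b hb ((hf b (hAS hb) w hw).1 hle)
  · rintro ⟨x, hxr, rfl⟩
    obtain ⟨hx, hU, hmax⟩ := mem_rev.1 hxr
    refine mem_rev.2 ⟨⟨x, hx, rfl⟩, ?_, ?_⟩
    · rintro _ ⟨b, hb, rfl⟩ hle
      exact hU b hb ((hf b (hAS hb) x hx).1 hle)
    · rintro _ ⟨w, hw, rfl⟩ hwU hxw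
      refine (hf w hw x hx).2 (hmax w hw ?_ ((hf x hx w hw).1 hxw))
      intro b hb hle
      exact hwU (f b) ⟨b, hb, rfl⟩ ((hf b (hAS hb) w hw).2 hle)

theorem homomesy_transfer {S : Set P} {T : Set P'} (f : P → P')
    (hf : ∀ p ∈ S, ∀ q ∈ S, (f p ≤ f q ↔ p ≤ q)) (hT : f '' S = T) {q : ℕ}
    (hS : Homomesy S q) : Homomesy T q := by
  have hinj : Set.InjOn f S := by
    intro x hx y hy h
    exact le_antisymm ((hf x hx y hy).1 h.le) ((hf y hy x hx).1 h.ge)
  refine ⟨by rw [← hT]; exact hS.1.image f, ?_⟩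
  intro B hB hBanti N hN
  obtain ⟨A, hAS, rfl⟩ : ∃ A ⊆ S, B = f '' A := by
    rw [← hT] at hB
    obtain ⟨A, hA1, hA2⟩ := Set.subset_image_iff.1 hB
    exact ⟨A, hA1, hA2.symm⟩
  have hA : IsAntichain (· ≤ ·) A := by
    intro x hx y hy hne hle
    exact hBanti ⟨x, hx, rfl⟩ ⟨y, hy, rfl⟩ (fun h => hne (hinj (hAS hx) (hAS hy) h))
      ((hf x (hAS hx) y (hAS hy)).2 hle)
  have hiter : ∀ t : ℕ, (rev T)^[t] (f '' A) = f '' ((rev S)^[t] A) := by
    intro t
    induction t with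
    | zero => rfl
    | succ t ih =>
      rw [Function.iterate_succ_apply', Function.iterate_succ_apply', ih,
        rev_image f hf hT (iter_mem hAS hA t).1]
  have hN' : (rev S)^[N] A = A := by
    have h := hN
    rw [hiter] at h
    exact hinj.image_eq_image_iff (iter_mem hAS hA N).1 hAS |>.1 h
  have h1 := hS.2 A hAS hA N hN'
  have h2 : ∀ t ∈ range N, ((rev T)^[t] (f '' A)).ncard = ((rev S)^[t] A).ncard := by
    intro t _
    rw [hiter]
    exact (hinj.mono (iter_mem hAS hA t).1).ncard_image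
  rw [Finset.sum_congr rfl h2, h1, ← hT, hinj.ncard_image]

end Transfer

/-- `d` is the largest height of a root of `Delta(1)`, all orbits of the reverse operator on
antichains of `Delta(1)` have average antichain size `#Delta(1) / (d + 1)`. -/
def OrbitAverages {n : ℕ} (M : Matrix (Fin n) (Fin n) ℤ) (k : Fin n) : Prop :=
  (Delta1 M k).Finite ∧ ∃ d : ℕ, IsGreatest {h : ℤ | ∃ v ∈ Delta1 M k, h = ∑ i, v i} (d : ℤ) ∧
    ∀ A : Set (Fin n → ℤ), A ⊆ Delta1 M k → IsAntichain (· ≤ ·) A →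
      (orbit (Delta1 M k) A).Finite ∧
        (∑ᶠ B ∈ orbit (Delta1 M k) A, (B.ncard : ℚ)) / ((orbit (Delta1 M k) A).ncard : ℚ) =
          ((Delta1 M k).ncard : ℚ) / ((d : ℚ) + 1)

theorem orbitAverages_of {n : ℕ} {M : Matrix (Fin n) (Fin n) ℤ} {k : Fin n} (d : ℕ)
    (hd : IsGreatest {h : ℤ | ∃ v ∈ Delta1 M k, h = ∑ i, v i} (d : ℤ))
    (h : Homomesy (Delta1 M k) (d + 1)) : OrbitAverages M k := by
  refine ⟨h.1, d, hd, ?_⟩
  intro A hAS hA
  have := average_of_homomesy (Nat.succ_pos d) h hAS hA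
  refine ⟨this.1, ?_⟩
  rw [this.2]
  push_cast
  rfl

theorem orbitAverages_of_model {Q : Type*} [PartialOrder Q] {S : Set Q} {rk : Q → ℕ} {n : ℕ}
    {M : Matrix (Fin n) (Fin n) ℤ} {k : Fin n} (hM : Model S rk (Delta1 M k)) {d : ℕ}
    (hrk : ∀ p ∈ S, rk p + 1 ≤ d) (top : Q) (htop : top ∈ S) (htop' : rk top + 1 = d)
    (h : Homomesy S (d + 1)) : OrbitAverages M k := by
  obtain ⟨f, hf, hT, hsum⟩ := hM
  refine orbitAverages_of d ?_ (homomesy_transfer f hf hT h)
  constructor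
  · refine ⟨f top, ?_, ?_⟩
    · rw [← hT]; exact ⟨top, htop, rfl⟩
    · rw [hsum top htop]; exact_mod_cast htop'.symm
  · rintro _ ⟨v, hv, rfl⟩
    rw [← hT] at hv
    obtain ⟨p, hp, rfl⟩ := hv
    rw [hsum p hp]
    exact_mod_cast hrk p hp

end Pool.Agent.TH657.Pan
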