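import Mathlib
import Pool.Agent.TH657.Pan.Transfer
import Pool.Agent.TH657.Pan.ExceptBase
import Pool.Agent.TH657.Pan.Check

set_option autoImplicit false

/-!
# From the lists and the bitmask checker to the statement on orbit averages
-/

namespace Pool.Agent.TH657.Pan

/-- If `L` lists `Delta1 M k`, the largest height is `d` and the bitmask check succeeds, then all
orbits have the predicted average. -/
theorem orbitAverages_of_lists {n : ℕ} {M : Matrix (Fin n) (Fin n) ℤ} {k : Fin n}
    (L : List (List ℤ)) (hl : ∀ l ∈ L, l.length = n) (hn : L.Nodup)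
    (hS : Set.range (exFam n L) = Delta1 M k) (N d : ℕ) (hN : L.length = N)
    (hmax : L.all (fun l => decide (l.sum ≤ (d : ℤ))) = true)
    (htop : L.any (fun l => decide (l.sum = (d : ℤ))) = true)
    (hc : checkHomomesy N (d + 1) (exUp L) = true) : OrbitAverages M k := by
  subst hN
  have hsum : ∀ a : Fin L.length, ∑ i, exFam n L a i = (L.get a).sum := by
    intro a
    rw [← ofFn_exFam hl a, List.sum_ofFn]
  refine orbitAverages_of d ?_ ?_
  · rw [← hS]
    constructor
    · obtain ⟨l, hlL, hl'⟩ := List.any_eq_true.1 htop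
      rw [decide_eq_true_eq] at hl'
      obtain ⟨a, ha⟩ := List.mem_iff_get.1 hlL
      exact ⟨exFam n L a, ⟨a, rfl⟩, by rw [hsum, ha, hl']⟩
    · rintro _ ⟨_, ⟨a, rfl⟩, rfl⟩
      rw [hsum]
      have := List.all_eq_true.1 hmax (L.get a) (List.get_mem L a)
      simpa using this
  · rw [← hS]
    exact homomesy_of_check (exFam n L) (exFam_injective hl hn) (exUp L) (exUp_testBit hl hn) hc

end Pool.Agent.TH657.Pan
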