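import Mathlib
import Pool.Agent.TH657.Pan.ExceptBase

set_option autoImplicit false

/-!
# The root posets Delta(1) of type F4, G2 as explicit lists
-/

namespace Pool.Agent.TH657.Pan

/-- The list of the positive roots of type `F4`, by height. -/
def posRootsF4 : List (List ℤ) :=
  [[1, 0, 0, 0], [0, 1, 0, 0], [0, 0, 1, 0], [0, 0, 0, 1], [1, 1, 0, 0], [0, 1, 1, 0],
   [0, 0, 1, 1], [1, 1, 1, 0], [0, 1, 2, 0], [0, 1, 1, 1], [1, 1, 2, 0], [1, 1, 1, 1],
   [0, 1, 2, 1], [1, 2, 2, 0], [1, 1, 2, 1], [0, 1, 2, 2], [1, 2, 2, 1], [1, 1, 2, 2],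
   [1, 2, 3, 1], [1, 2, 2, 2], [1, 2, 3, 2], [1, 2, 4, 2], [1, 3, 4, 2], [2, 3, 4, 2]]

/-- The list of the vectors of `Delta(1)` for the type `F4` and the node `k`, by height. -/
def lsF4 (k : Fin 4) : List (List ℤ) :=
  match k with
  | 0 =>
    [[1, 0, 0, 0], [1, 1, 0, 0], [1, 1, 1, 0], [1, 1, 2, 0], [1, 1, 1, 1], [1, 2, 2, 0],
     [1, 1, 2, 1], [1, 2, 2, 1], [1, 1, 2, 2], [1, 2, 3, 1], [1, 2, 2, 2], [1, 2, 3, 2],
     [1, 2, 4, 2], [1, 3, 4, 2]]
  | 1 =>
    [[0, 1, 0, 0], [1, 1, 0, 0], [0, 1, 1, 0], [1, 1, 1, 0], [0, 1, 2, 0], [0, 1, 1, 1],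
     [1, 1, 2, 0], [1, 1, 1, 1], [0, 1, 2, 1], [1, 1, 2, 1], [0, 1, 2, 2], [1, 1, 2, 2]]
  | 2 =>
    [[0, 0, 1, 0], [0, 1, 1, 0], [0, 0, 1, 1], [1, 1, 1, 0], [0, 1, 1, 1], [1, 1, 1, 1]]
  | 3 =>
    [[0, 0, 0, 1], [0, 0, 1, 1], [0, 1, 1, 1], [1, 1, 1, 1], [0, 1, 2, 1], [1, 1, 2, 1],
     [1, 2, 2, 1], [1, 2, 3, 1]]

theorem exCheck_F4 : exCheck (exData CartanMatrix.F₄) posRootsF4 = true := by
  decide +kernel

theorem diag_F4 (j : Fin 4) : CartanMatrix.F₄ j j = 2 := by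
  revert j
  decide +kernel

theorem filter_F4 (k : Fin 4) :
    posRootsF4.filter (fun r => r.getD (k : ℕ) 0 == 1) = lsF4 k := by
  revert k
  decide +kernel

/-- The roots of type `F4` are the listed vectors and their opposites. -/
theorem isRoot_F4_iff (v : Fin 4 → ℤ) :
    IsRoot CartanMatrix.F₄ v ↔ List.ofFn v ∈ posRootsF4 ∨ List.ofFn (-v) ∈ posRootsF4 :=
  isRoot_iff_of_exCheck diag_F4 exCheck_F4 v

theorem mem_delta1_F4 (k : Fin 4) (v : Fin 4 → ℤ) :
    v ∈ Delta1 CartanMatrix.F₄ k ↔ List.ofFn v ∈ lsF4 k := by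
  rw [← filter_F4 k]
  exact mem_delta1_of_exCheck diag_F4 exCheck_F4 k v

theorem lsF4_length (k : Fin 4) : ∀ l ∈ lsF4 k, l.length = 4 := by
  revert k
  decide +kernel

theorem lsF4_nodup (k : Fin 4) : (lsF4 k).Nodup := by
  revert k
  decide +kernel

theorem lsF4_sorted (k : Fin 4) :
    ((lsF4 k).map List.sum).Pairwise (· ≤ ·) := by
  revert k
  decide +kernel

/-- `Delta1` is the range of the injective family given by the list. -/
theorem range_exFam_F4 (k : Fin 4) :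
    Set.range (exFam 4 (lsF4 k)) = Delta1 CartanMatrix.F₄ k :=
  range_exFam (lsF4_length k) (mem_delta1_F4 k)

/-- The list of the positive roots of type `G2`, by height. -/
def posRootsG2 : List (List ℤ) :=
  [[1, 0], [0, 1], [1, 1], [1, 2], [1, 3], [2, 3]]

/-- The list of the vectors of `Delta(1)` for the type `G2` and the node `k`, by height. -/
def lsG2 (k : Fin 2) : List (List ℤ) :=
  match k with
  | 0 =>
    [[1, 0], [1, 1], [1, 2], [1, 3]]
  | 1 =>
    [[0, 1], [1, 1]]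

theorem exCheck_G2 : exCheck (exData CartanMatrix.G₂) posRootsG2 = true := by
  decide +kernel

theorem diag_G2 (j : Fin 2) : CartanMatrix.G₂ j j = 2 := by
  revert j
  decide +kernel

theorem filter_G2 (k : Fin 2) :
    posRootsG2.filter (fun r => r.getD (k : ℕ) 0 == 1) = lsG2 k := by
  revert k
  decide +kernel

/-- The roots of type `G2` are the listed vectors and their opposites. -/
theorem isRoot_G2_iff (v : Fin 2 → ℤ) :
    IsRoot CartanMatrix.G₂ v ↔ List.ofFn v ∈ posRootsG2 ∨ List.ofFn (-v) ∈ posRootsG2 :=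
  isRoot_iff_of_exCheck diag_G2 exCheck_G2 v

theorem mem_delta1_G2 (k : Fin 2) (v : Fin 2 → ℤ) :
    v ∈ Delta1 CartanMatrix.G₂ k ↔ List.ofFn v ∈ lsG2 k := by
  rw [← filter_G2 k]
  exact mem_delta1_of_exCheck diag_G2 exCheck_G2 k v

theorem lsG2_length (k : Fin 2) : ∀ l ∈ lsG2 k, l.length = 2 := by
  revert k
  decide +kernel

theorem lsG2_nodup (k : Fin 2) : (lsG2 k).Nodup := by
  revert k
  decide +kernel

theorem lsG2_sorted (k : Fin 2) :
    ((lsG2 k).map List.sum).Pairwise (· ≤ ·) := by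
  revert k
  decide +kernel

/-- `Delta1` is the range of the injective family given by the list. -/
theorem range_exFam_G2 (k : Fin 2) :
    Set.range (exFam 2 (lsG2 k)) = Delta1 CartanMatrix.G₂ k :=
  range_exFam (lsG2_length k) (mem_delta1_G2 k)

end Pool.Agent.TH657.Pan
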