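import Mathlib
import Pool.Agent.TH657.Pan.ExGlue
import Pool.Agent.TH657.Pan.ExceptE6
import Pool.Agent.TH657.Pan.ExceptFG

set_option autoImplicit false

/-!
# Orbit averages for Delta(1) in the exceptional types G2, F4, E6
-/

namespace Pool.Agent.TH657.Pan

theorem orbitAverages_G2_0 : OrbitAverages CartanMatrix.G₂ 0 :=
  orbitAverages_of_lists (lsG2 0) (lsG2_length 0) (lsG2_nodup 0) (range_exFam_G2 0) 4 4
    (by decide +kernel) (by decide +kernel) (by decide +kernel) (by decide +kernel)

theorem orbitAverages_G2_1 : OrbitAverages CartanMatrix.G₂ 1 :=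
  orbitAverages_of_lists (lsG2 1) (lsG2_length 1) (lsG2_nodup 1) (range_exFam_G2 1) 2 2
    (by decide +kernel) (by decide +kernel) (by decide +kernel) (by decide +kernel)

theorem orbitAverages_F4_0 : OrbitAverages CartanMatrix.F₄ 0 :=
  orbitAverages_of_lists (lsF4 0) (lsF4_length 0) (lsF4_nodup 0) (range_exFam_F4 0) 14 10
    (by decide +kernel) (by decide +kernel) (by decide +kernel) (by decide +kernel)

theorem orbitAverages_F4_1 : OrbitAverages CartanMatrix.F₄ 1 :=
  orbitAverages_of_lists (lsF4 1) (lsF4_length 1) (lsF4_nodup 1) (range_exFam_F4 1) 12 6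
    (by decide +kernel) (by decide +kernel) (by decide +kernel) (by decide +kernel)

theorem orbitAverages_F4_2 : OrbitAverages CartanMatrix.F₄ 2 :=
  orbitAverages_of_lists (lsF4 2) (lsF4_length 2) (lsF4_nodup 2) (range_exFam_F4 2) 6 4
    (by decide +kernel) (by decide +kernel) (by decide +kernel) (by decide +kernel)

theorem orbitAverages_F4_3 : OrbitAverages CartanMatrix.F₄ 3 :=
  orbitAverages_of_lists (lsF4 3) (lsF4_length 3) (lsF4_nodup 3) (range_exFam_F4 3) 8 7
    (by decide +kernel) (by decide +kernel) (by decide +kernel) (by decide +kernel)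

theorem orbitAverages_E6_0 : OrbitAverages CartanMatrix.E₆ 0 :=
  orbitAverages_of_lists (lsE6 0) (lsE6_length 0) (lsE6_nodup 0) (range_exFam_E6 0) 16 11
    (by decide +kernel) (by decide +kernel) (by decide +kernel) (by decide +kernel)

theorem orbitAverages_E6_1 : OrbitAverages CartanMatrix.E₆ 1 :=
  orbitAverages_of_lists (lsE6 1) (lsE6_length 1) (lsE6_nodup 1) (range_exFam_E6 1) 20 10
    (by decide +kernel) (by decide +kernel) (by decide +kernel) (by decide +kernel)

theorem orbitAverages_E6_2 : OrbitAverages CartanMatrix.E₆ 2 :=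
  orbitAverages_of_lists (lsE6 2) (lsE6_length 2) (lsE6_nodup 2) (range_exFam_E6 2) 20 8
    (by decide +kernel) (by decide +kernel) (by decide +kernel) (by decide +kernel)

theorem orbitAverages_E6_3 : OrbitAverages CartanMatrix.E₆ 3 :=
  orbitAverages_of_lists (lsE6 3) (lsE6_length 3) (lsE6_nodup 3) (range_exFam_E6 3) 18 6
    (by decide +kernel) (by decide +kernel) (by decide +kernel) (by decide +kernel)

theorem orbitAverages_E6_4 : OrbitAverages CartanMatrix.E₆ 4 :=
  orbitAverages_of_lists (lsE6 4) (lsE6_length 4) (lsE6_nodup 4) (range_exFam_E6 4) 20 8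
    (by decide +kernel) (by decide +kernel) (by decide +kernel) (by decide +kernel)

theorem orbitAverages_E6_5 : OrbitAverages CartanMatrix.E₆ 5 :=
  orbitAverages_of_lists (lsE6 5) (lsE6_length 5) (lsE6_nodup 5) (range_exFam_E6 5) 16 11
    (by decide +kernel) (by decide +kernel) (by decide +kernel) (by decide +kernel)

end Pool.Agent.TH657.Pan
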