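import Mathlib
import Pool.Agent.TH657.Pan.ExceptBase

set_option autoImplicit false

/-!
# The root posets Delta(1) of type E7 as explicit lists
-/

namespace Pool.Agent.TH657.Pan

/-- The list of the positive roots of type `E7`, by height. -/
def posRootsE7 : List (List ℤ) :=
  [[1, 0, 0, 0, 0, 0, 0], [0, 1, 0, 0, 0, 0, 0], [0, 0, 1, 0, 0, 0, 0], [0, 0, 0, 1, 0, 0, 0],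
   [0, 0, 0, 0, 1, 0, 0], [0, 0, 0, 0, 0, 1, 0], [0, 0, 0, 0, 0, 0, 1], [1, 0, 1, 0, 0, 0, 0],
   [0, 1, 0, 1, 0, 0, 0], [0, 0, 1, 1, 0, 0, 0], [0, 0, 0, 1, 1, 0, 0], [0, 0, 0, 0, 1, 1, 0],
   [0, 0, 0, 0, 0, 1, 1], [1, 0, 1, 1, 0, 0, 0], [0, 1, 1, 1, 0, 0, 0], [0, 1, 0, 1, 1, 0, 0],
   [0, 0, 1, 1, 1, 0, 0], [0, 0, 0, 1, 1, 1, 0], [0, 0, 0, 0, 1, 1, 1], [1, 1, 1, 1, 0, 0, 0],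
   [1, 0, 1, 1, 1, 0, 0], [0, 1, 1, 1, 1, 0, 0], [0, 1, 0, 1, 1, 1, 0], [0, 0, 1, 1, 1, 1, 0],
   [0, 0, 0, 1, 1, 1, 1], [1, 1, 1, 1, 1, 0, 0], [1, 0, 1, 1, 1, 1, 0], [0, 1, 1, 2, 1, 0, 0],
   [0, 1, 1, 1, 1, 1, 0], [0, 1, 0, 1, 1, 1, 1], [0, 0, 1, 1, 1, 1, 1], [1, 1, 1, 2, 1, 0, 0],
   [1, 1, 1, 1, 1, 1, 0], [1, 0, 1, 1, 1, 1, 1], [0, 1, 1, 2, 1, 1, 0], [0, 1, 1, 1, 1, 1, 1],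
   [1, 1, 2, 2, 1, 0, 0], [1, 1, 1, 2, 1, 1, 0], [1, 1, 1, 1, 1, 1, 1], [0, 1, 1, 2, 2, 1, 0],
   [0, 1, 1, 2, 1, 1, 1], [1, 1, 2, 2, 1, 1, 0], [1, 1, 1, 2, 2, 1, 0], [1, 1, 1, 2, 1, 1, 1],
   [0, 1, 1, 2, 2, 1, 1], [1, 1, 2, 2, 2, 1, 0], [1, 1, 2, 2, 1, 1, 1], [1, 1, 1, 2, 2, 1, 1],
   [0, 1, 1, 2, 2, 2, 1], [1, 1, 2, 3, 2, 1, 0], [1, 1, 2, 2, 2, 1, 1], [1, 1, 1, 2, 2, 2, 1],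
   [1, 2, 2, 3, 2, 1, 0], [1, 1, 2, 3, 2, 1, 1], [1, 1, 2, 2, 2, 2, 1], [1, 2, 2, 3, 2, 1, 1],
   [1, 1, 2, 3, 2, 2, 1], [1, 2, 2, 3, 2, 2, 1], [1, 1, 2, 3, 3, 2, 1], [1, 2, 2, 3, 3, 2, 1],
   [1, 2, 2, 4, 3, 2, 1], [1, 2, 3, 4, 3, 2, 1], [2, 2, 3, 4, 3, 2, 1]]

/-- The list of the vectors of `Delta(1)` for the type `E7` and the node `k`, by height. -/
def lsE7 (k : Fin 7) : List (List ℤ) :=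
  match k with
  | 0 =>
    [[1, 0, 0, 0, 0, 0, 0], [1, 0, 1, 0, 0, 0, 0], [1, 0, 1, 1, 0, 0, 0], [1, 1, 1, 1, 0, 0, 0],
     [1, 0, 1, 1, 1, 0, 0], [1, 1, 1, 1, 1, 0, 0], [1, 0, 1, 1, 1, 1, 0], [1, 1, 1, 2, 1, 0, 0],
     [1, 1, 1, 1, 1, 1, 0], [1, 0, 1, 1, 1, 1, 1], [1, 1, 2, 2, 1, 0, 0], [1, 1, 1, 2, 1, 1, 0],
     [1, 1, 1, 1, 1, 1, 1], [1, 1, 2, 2, 1, 1, 0], [1, 1, 1, 2, 2, 1, 0], [1, 1, 1, 2, 1, 1, 1],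
     [1, 1, 2, 2, 2, 1, 0], [1, 1, 2, 2, 1, 1, 1], [1, 1, 1, 2, 2, 1, 1], [1, 1, 2, 3, 2, 1, 0],
     [1, 1, 2, 2, 2, 1, 1], [1, 1, 1, 2, 2, 2, 1], [1, 2, 2, 3, 2, 1, 0], [1, 1, 2, 3, 2, 1, 1],
     [1, 1, 2, 2, 2, 2, 1], [1, 2, 2, 3, 2, 1, 1], [1, 1, 2, 3, 2, 2, 1], [1, 2, 2, 3, 2, 2, 1],
     [1, 1, 2, 3, 3, 2, 1], [1, 2, 2, 3, 3, 2, 1], [1, 2, 2, 4, 3, 2, 1], [1, 2, 3, 4, 3, 2, 1]]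
  | 1 =>
    [[0, 1, 0, 0, 0, 0, 0], [0, 1, 0, 1, 0, 0, 0], [0, 1, 1, 1, 0, 0, 0], [0, 1, 0, 1, 1, 0, 0],
     [1, 1, 1, 1, 0, 0, 0], [0, 1, 1, 1, 1, 0, 0], [0, 1, 0, 1, 1, 1, 0], [1, 1, 1, 1, 1, 0, 0],
     [0, 1, 1, 2, 1, 0, 0], [0, 1, 1, 1, 1, 1, 0], [0, 1, 0, 1, 1, 1, 1], [1, 1, 1, 2, 1, 0, 0],
     [1, 1, 1, 1, 1, 1, 0], [0, 1, 1, 2, 1, 1, 0], [0, 1, 1, 1, 1, 1, 1], [1, 1, 2, 2, 1, 0, 0],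
     [1, 1, 1, 2, 1, 1, 0], [1, 1, 1, 1, 1, 1, 1], [0, 1, 1, 2, 2, 1, 0], [0, 1, 1, 2, 1, 1, 1],
     [1, 1, 2, 2, 1, 1, 0], [1, 1, 1, 2, 2, 1, 0], [1, 1, 1, 2, 1, 1, 1], [0, 1, 1, 2, 2, 1, 1],
     [1, 1, 2, 2, 2, 1, 0], [1, 1, 2, 2, 1, 1, 1], [1, 1, 1, 2, 2, 1, 1], [0, 1, 1, 2, 2, 2, 1],
     [1, 1, 2, 3, 2, 1, 0], [1, 1, 2, 2, 2, 1, 1], [1, 1, 1, 2, 2, 2, 1], [1, 1, 2, 3, 2, 1, 1],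
     [1, 1, 2, 2, 2, 2, 1], [1, 1, 2, 3, 2, 2, 1], [1, 1, 2, 3, 3, 2, 1]]
  | 2 =>
    [[0, 0, 1, 0, 0, 0, 0], [1, 0, 1, 0, 0, 0, 0], [0, 0, 1, 1, 0, 0, 0], [1, 0, 1, 1, 0, 0, 0],
     [0, 1, 1, 1, 0, 0, 0], [0, 0, 1, 1, 1, 0, 0], [1, 1, 1, 1, 0, 0, 0], [1, 0, 1, 1, 1, 0, 0],
     [0, 1, 1, 1, 1, 0, 0], [0, 0, 1, 1, 1, 1, 0], [1, 1, 1, 1, 1, 0, 0], [1, 0, 1, 1, 1, 1, 0],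
     [0, 1, 1, 2, 1, 0, 0], [0, 1, 1, 1, 1, 1, 0], [0, 0, 1, 1, 1, 1, 1], [1, 1, 1, 2, 1, 0, 0],
     [1, 1, 1, 1, 1, 1, 0], [1, 0, 1, 1, 1, 1, 1], [0, 1, 1, 2, 1, 1, 0], [0, 1, 1, 1, 1, 1, 1],
     [1, 1, 1, 2, 1, 1, 0], [1, 1, 1, 1, 1, 1, 1], [0, 1, 1, 2, 2, 1, 0], [0, 1, 1, 2, 1, 1, 1],
     [1, 1, 1, 2, 2, 1, 0], [1, 1, 1, 2, 1, 1, 1], [0, 1, 1, 2, 2, 1, 1], [1, 1, 1, 2, 2, 1, 1],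
     [0, 1, 1, 2, 2, 2, 1], [1, 1, 1, 2, 2, 2, 1]]
  | 3 =>
    [[0, 0, 0, 1, 0, 0, 0], [0, 1, 0, 1, 0, 0, 0], [0, 0, 1, 1, 0, 0, 0], [0, 0, 0, 1, 1, 0, 0],
     [1, 0, 1, 1, 0, 0, 0], [0, 1, 1, 1, 0, 0, 0], [0, 1, 0, 1, 1, 0, 0], [0, 0, 1, 1, 1, 0, 0],
     [0, 0, 0, 1, 1, 1, 0], [1, 1, 1, 1, 0, 0, 0], [1, 0, 1, 1, 1, 0, 0], [0, 1, 1, 1, 1, 0, 0],
     [0, 1, 0, 1, 1, 1, 0], [0, 0, 1, 1, 1, 1, 0], [0, 0, 0, 1, 1, 1, 1], [1, 1, 1, 1, 1, 0, 0],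
     [1, 0, 1, 1, 1, 1, 0], [0, 1, 1, 1, 1, 1, 0], [0, 1, 0, 1, 1, 1, 1], [0, 0, 1, 1, 1, 1, 1],
     [1, 1, 1, 1, 1, 1, 0], [1, 0, 1, 1, 1, 1, 1], [0, 1, 1, 1, 1, 1, 1], [1, 1, 1, 1, 1, 1, 1]]
  | 4 =>
    [[0, 0, 0, 0, 1, 0, 0], [0, 0, 0, 1, 1, 0, 0], [0, 0, 0, 0, 1, 1, 0], [0, 1, 0, 1, 1, 0, 0],
     [0, 0, 1, 1, 1, 0, 0], [0, 0, 0, 1, 1, 1, 0], [0, 0, 0, 0, 1, 1, 1], [1, 0, 1, 1, 1, 0, 0],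
     [0, 1, 1, 1, 1, 0, 0], [0, 1, 0, 1, 1, 1, 0], [0, 0, 1, 1, 1, 1, 0], [0, 0, 0, 1, 1, 1, 1],
     [1, 1, 1, 1, 1, 0, 0], [1, 0, 1, 1, 1, 1, 0], [0, 1, 1, 2, 1, 0, 0], [0, 1, 1, 1, 1, 1, 0],
     [0, 1, 0, 1, 1, 1, 1], [0, 0, 1, 1, 1, 1, 1], [1, 1, 1, 2, 1, 0, 0], [1, 1, 1, 1, 1, 1, 0],
     [1, 0, 1, 1, 1, 1, 1], [0, 1, 1, 2, 1, 1, 0], [0, 1, 1, 1, 1, 1, 1], [1, 1, 2, 2, 1, 0, 0],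
     [1, 1, 1, 2, 1, 1, 0], [1, 1, 1, 1, 1, 1, 1], [0, 1, 1, 2, 1, 1, 1], [1, 1, 2, 2, 1, 1, 0],
     [1, 1, 1, 2, 1, 1, 1], [1, 1, 2, 2, 1, 1, 1]]
  | 5 =>
    [[0, 0, 0, 0, 0, 1, 0], [0, 0, 0, 0, 1, 1, 0], [0, 0, 0, 0, 0, 1, 1], [0, 0, 0, 1, 1, 1, 0],
     [0, 0, 0, 0, 1, 1, 1], [0, 1, 0, 1, 1, 1, 0], [0, 0, 1, 1, 1, 1, 0], [0, 0, 0, 1, 1, 1, 1],
     [1, 0, 1, 1, 1, 1, 0], [0, 1, 1, 1, 1, 1, 0], [0, 1, 0, 1, 1, 1, 1], [0, 0, 1, 1, 1, 1, 1],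
     [1, 1, 1, 1, 1, 1, 0], [1, 0, 1, 1, 1, 1, 1], [0, 1, 1, 2, 1, 1, 0], [0, 1, 1, 1, 1, 1, 1],
     [1, 1, 1, 2, 1, 1, 0], [1, 1, 1, 1, 1, 1, 1], [0, 1, 1, 2, 2, 1, 0], [0, 1, 1, 2, 1, 1, 1],
     [1, 1, 2, 2, 1, 1, 0], [1, 1, 1, 2, 2, 1, 0], [1, 1, 1, 2, 1, 1, 1], [0, 1, 1, 2, 2, 1, 1],
     [1, 1, 2, 2, 2, 1, 0], [1, 1, 2, 2, 1, 1, 1], [1, 1, 1, 2, 2, 1, 1], [1, 1, 2, 3, 2, 1, 0],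
     [1, 1, 2, 2, 2, 1, 1], [1, 2, 2, 3, 2, 1, 0], [1, 1, 2, 3, 2, 1, 1], [1, 2, 2, 3, 2, 1, 1]]
  | 6 =>
    [[0, 0, 0, 0, 0, 0, 1], [0, 0, 0, 0, 0, 1, 1], [0, 0, 0, 0, 1, 1, 1], [0, 0, 0, 1, 1, 1, 1],
     [0, 1, 0, 1, 1, 1, 1], [0, 0, 1, 1, 1, 1, 1], [1, 0, 1, 1, 1, 1, 1], [0, 1, 1, 1, 1, 1, 1],
     [1, 1, 1, 1, 1, 1, 1], [0, 1, 1, 2, 1, 1, 1], [1, 1, 1, 2, 1, 1, 1], [0, 1, 1, 2, 2, 1, 1],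
     [1, 1, 2, 2, 1, 1, 1], [1, 1, 1, 2, 2, 1, 1], [0, 1, 1, 2, 2, 2, 1], [1, 1, 2, 2, 2, 1, 1],
     [1, 1, 1, 2, 2, 2, 1], [1, 1, 2, 3, 2, 1, 1], [1, 1, 2, 2, 2, 2, 1], [1, 2, 2, 3, 2, 1, 1],
     [1, 1, 2, 3, 2, 2, 1], [1, 2, 2, 3, 2, 2, 1], [1, 1, 2, 3, 3, 2, 1], [1, 2, 2, 3, 3, 2, 1],
     [1, 2, 2, 4, 3, 2, 1], [1, 2, 3, 4, 3, 2, 1], [2, 2, 3, 4, 3, 2, 1]]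

theorem exCheck_E7 : exCheck (exData CartanMatrix.E₇) posRootsE7 = true := by
  decide +kernel

theorem diag_E7 (j : Fin 7) : CartanMatrix.E₇ j j = 2 := by
  revert j
  decide +kernel

theorem filter_E7 (k : Fin 7) :
    posRootsE7.filter (fun r => r.getD (k : ℕ) 0 == 1) = lsE7 k := by
  revert k
  decide +kernel

/-- The roots of type `E7` are the listed vectors and their opposites. -/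
theorem isRoot_E7_iff (v : Fin 7 → ℤ) :
    IsRoot CartanMatrix.E₇ v ↔ List.ofFn v ∈ posRootsE7 ∨ List.ofFn (-v) ∈ posRootsE7 :=
  isRoot_iff_of_exCheck diag_E7 exCheck_E7 v

theorem mem_delta1_E7 (k : Fin 7) (v : Fin 7 → ℤ) :
    v ∈ Delta1 CartanMatrix.E₇ k ↔ List.ofFn v ∈ lsE7 k := by
  rw [← filter_E7 k]
  exact mem_delta1_of_exCheck diag_E7 exCheck_E7 k v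

theorem lsE7_length (k : Fin 7) : ∀ l ∈ lsE7 k, l.length = 7 := by
  revert k
  decide +kernel

theorem lsE7_nodup (k : Fin 7) : (lsE7 k).Nodup := by
  revert k
  decide +kernel

theorem lsE7_sorted (k : Fin 7) :
    ((lsE7 k).map List.sum).Pairwise (· ≤ ·) := by
  revert k
  decide +kernel

/-- `Delta1` is the range of the injective family given by the list. -/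
theorem range_exFam_E7 (k : Fin 7) :
    Set.range (exFam 7 (lsE7 k)) = Delta1 CartanMatrix.E₇ k :=
  range_exFam (lsE7_length k) (mem_delta1_E7 k)

end Pool.Agent.TH657.Pan
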