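import Mathlib
import Pool.Agent.TH657.Pan.ExGlue
import Pool.Agent.TH657.Pan.ExceptE7

set_option autoImplicit false

/-!
# Orbit averages for Delta(1) in the exceptional types E7
-/

namespace Pool.Agent.TH657.Pan

theorem orbitAverages_E7_0 : OrbitAverages CartanMatrix.E₇ 0 :=
  orbitAverages_of_lists (lsE7 0) (lsE7_length 0) (lsE7_nodup 0) (range_exFam_E7 0) 32 16
    (by decide +kernel) (by decide +kernel) (by decide +kernel) (by decide +kernel)

theorem orbitAverages_E7_1 : OrbitAverages CartanMatrix.E₇ 1 :=
  orbitAverages_of_lists (lsE7 1) (lsE7_length 1) (lsE7_nodup 1) (range_exFam_E7 1) 35 13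
    (by decide +kernel) (by decide +kernel) (by decide +kernel) (by decide +kernel)

theorem orbitAverages_E7_2 : OrbitAverages CartanMatrix.E₇ 2 :=
  orbitAverages_of_lists (lsE7 2) (lsE7_length 2) (lsE7_nodup 2) (range_exFam_E7 2) 30 10
    (by decide +kernel) (by decide +kernel) (by decide +kernel) (by decide +kernel)

theorem orbitAverages_E7_3 : OrbitAverages CartanMatrix.E₇ 3 :=
  orbitAverages_of_lists (lsE7 3) (lsE7_length 3) (lsE7_nodup 3) (range_exFam_E7 3) 24 7
    (by decide +kernel) (by decide +kernel) (by decide +kernel) (by decide +kernel)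

theorem orbitAverages_E7_4 : OrbitAverages CartanMatrix.E₇ 4 :=
  orbitAverages_of_lists (lsE7 4) (lsE7_length 4) (lsE7_nodup 4) (range_exFam_E7 4) 30 9
    (by decide +kernel) (by decide +kernel) (by decide +kernel) (by decide +kernel)

theorem orbitAverages_E7_5 : OrbitAverages CartanMatrix.E₇ 5 :=
  orbitAverages_of_lists (lsE7 5) (lsE7_length 5) (lsE7_nodup 5) (range_exFam_E7 5) 32 12
    (by decide +kernel) (by decide +kernel) (by decide +kernel) (by decide +kernel)

theorem orbitAverages_E7_6 : OrbitAverages CartanMatrix.E₇ 6 :=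
  orbitAverages_of_lists (lsE7 6) (lsE7_length 6) (lsE7_nodup 6) (range_exFam_E7 6) 27 17
    (by decide +kernel) (by decide +kernel) (by decide +kernel) (by decide +kernel)

end Pool.Agent.TH657.Pan
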