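import Mathlib
import Pool.Agent.TH657.Pan.ExceptBase

set_option autoImplicit false

/-!
# The root posets Delta(1) of type E8 as explicit lists
-/

namespace Pool.Agent.TH657.Pan

/-- The list of the positive roots of type `E8`, by height. -/
def posRootsE8 : List (List ℤ) :=
  [[1, 0, 0, 0, 0, 0, 0, 0], [0, 1, 0, 0, 0, 0, 0, 0], [0, 0, 1, 0, 0, 0, 0, 0],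
   [0, 0, 0, 1, 0, 0, 0, 0], [0, 0, 0, 0, 1, 0, 0, 0], [0, 0, 0, 0, 0, 1, 0, 0],
   [0, 0, 0, 0, 0, 0, 1, 0], [0, 0, 0, 0, 0, 0, 0, 1], [1, 0, 1, 0, 0, 0, 0, 0],
   [0, 1, 0, 1, 0, 0, 0, 0], [0, 0, 1, 1, 0, 0, 0, 0], [0, 0, 0, 1, 1, 0, 0, 0],
   [0, 0, 0, 0, 1, 1, 0, 0], [0, 0, 0, 0, 0, 1, 1, 0], [0, 0, 0, 0, 0, 0, 1, 1],
   [1, 0, 1, 1, 0, 0, 0, 0], [0, 1, 1, 1, 0, 0, 0, 0], [0, 1, 0, 1, 1, 0, 0, 0],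
   [0, 0, 1, 1, 1, 0, 0, 0], [0, 0, 0, 1, 1, 1, 0, 0], [0, 0, 0, 0, 1, 1, 1, 0],
   [0, 0, 0, 0, 0, 1, 1, 1], [1, 1, 1, 1, 0, 0, 0, 0], [1, 0, 1, 1, 1, 0, 0, 0],
   [0, 1, 1, 1, 1, 0, 0, 0], [0, 1, 0, 1, 1, 1, 0, 0], [0, 0, 1, 1, 1, 1, 0, 0],
   [0, 0, 0, 1, 1, 1, 1, 0], [0, 0, 0, 0, 1, 1, 1, 1], [1, 1, 1, 1, 1, 0, 0, 0],
   [1, 0, 1, 1, 1, 1, 0, 0], [0, 1, 1, 2, 1, 0, 0, 0], [0, 1, 1, 1, 1, 1, 0, 0],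
   [0, 1, 0, 1, 1, 1, 1, 0], [0, 0, 1, 1, 1, 1, 1, 0], [0, 0, 0, 1, 1, 1, 1, 1],
   [1, 1, 1, 2, 1, 0, 0, 0], [1, 1, 1, 1, 1, 1, 0, 0], [1, 0, 1, 1, 1, 1, 1, 0],
   [0, 1, 1, 2, 1, 1, 0, 0], [0, 1, 1, 1, 1, 1, 1, 0], [0, 1, 0, 1, 1, 1, 1, 1],
   [0, 0, 1, 1, 1, 1, 1, 1], [1, 1, 2, 2, 1, 0, 0, 0], [1, 1, 1, 2, 1, 1, 0, 0],
   [1, 1, 1, 1, 1, 1, 1, 0], [1, 0, 1, 1, 1, 1, 1, 1], [0, 1, 1, 2, 2, 1, 0, 0],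
   [0, 1, 1, 2, 1, 1, 1, 0], [0, 1, 1, 1, 1, 1, 1, 1], [1, 1, 2, 2, 1, 1, 0, 0],
   [1, 1, 1, 2, 2, 1, 0, 0], [1, 1, 1, 2, 1, 1, 1, 0], [1, 1, 1, 1, 1, 1, 1, 1],
   [0, 1, 1, 2, 2, 1, 1, 0], [0, 1, 1, 2, 1, 1, 1, 1], [1, 1, 2, 2, 2, 1, 0, 0],
   [1, 1, 2, 2, 1, 1, 1, 0], [1, 1, 1, 2, 2, 1, 1, 0], [1, 1, 1, 2, 1, 1, 1, 1],
   [0, 1, 1, 2, 2, 2, 1, 0], [0, 1, 1, 2, 2, 1, 1, 1], [1, 1, 2, 3, 2, 1, 0, 0],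
   [1, 1, 2, 2, 2, 1, 1, 0], [1, 1, 2, 2, 1, 1, 1, 1], [1, 1, 1, 2, 2, 2, 1, 0],
   [1, 1, 1, 2, 2, 1, 1, 1], [0, 1, 1, 2, 2, 2, 1, 1], [1, 2, 2, 3, 2, 1, 0, 0],
   [1, 1, 2, 3, 2, 1, 1, 0], [1, 1, 2, 2, 2, 2, 1, 0], [1, 1, 2, 2, 2, 1, 1, 1],
   [1, 1, 1, 2, 2, 2, 1, 1], [0, 1, 1, 2, 2, 2, 2, 1], [1, 2, 2, 3, 2, 1, 1, 0],
   [1, 1, 2, 3, 2, 2, 1, 0], [1, 1, 2, 3, 2, 1, 1, 1], [1, 1, 2, 2, 2, 2, 1, 1],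
   [1, 1, 1, 2, 2, 2, 2, 1], [1, 2, 2, 3, 2, 2, 1, 0], [1, 2, 2, 3, 2, 1, 1, 1],
   [1, 1, 2, 3, 3, 2, 1, 0], [1, 1, 2, 3, 2, 2, 1, 1], [1, 1, 2, 2, 2, 2, 2, 1],
   [1, 2, 2, 3, 3, 2, 1, 0], [1, 2, 2, 3, 2, 2, 1, 1], [1, 1, 2, 3, 3, 2, 1, 1],
   [1, 1, 2, 3, 2, 2, 2, 1], [1, 2, 2, 4, 3, 2, 1, 0], [1, 2, 2, 3, 3, 2, 1, 1],
   [1, 2, 2, 3, 2, 2, 2, 1], [1, 1, 2, 3, 3, 2, 2, 1], [1, 2, 3, 4, 3, 2, 1, 0],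
   [1, 2, 2, 4, 3, 2, 1, 1], [1, 2, 2, 3, 3, 2, 2, 1], [1, 1, 2, 3, 3, 3, 2, 1],
   [2, 2, 3, 4, 3, 2, 1, 0], [1, 2, 3, 4, 3, 2, 1, 1], [1, 2, 2, 4, 3, 2, 2, 1],
   [1, 2, 2, 3, 3, 3, 2, 1], [2, 2, 3, 4, 3, 2, 1, 1], [1, 2, 3, 4, 3, 2, 2, 1],
   [1, 2, 2, 4, 3, 3, 2, 1], [2, 2, 3, 4, 3, 2, 2, 1], [1, 2, 3, 4, 3, 3, 2, 1],
   [1, 2, 2, 4, 4, 3, 2, 1], [2, 2, 3, 4, 3, 3, 2, 1], [1, 2, 3, 4, 4, 3, 2, 1],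
   [2, 2, 3, 4, 4, 3, 2, 1], [1, 2, 3, 5, 4, 3, 2, 1], [2, 2, 3, 5, 4, 3, 2, 1],
   [1, 3, 3, 5, 4, 3, 2, 1], [2, 3, 3, 5, 4, 3, 2, 1], [2, 2, 4, 5, 4, 3, 2, 1],
   [2, 3, 4, 5, 4, 3, 2, 1], [2, 3, 4, 6, 4, 3, 2, 1], [2, 3, 4, 6, 5, 3, 2, 1],
   [2, 3, 4, 6, 5, 4, 2, 1], [2, 3, 4, 6, 5, 4, 3, 1], [2, 3, 4, 6, 5, 4, 3, 2]]

/-- The list of the vectors of `Delta(1)` for the type `E8` and the node `k`, by height. -/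
def lsE8 (k : Fin 8) : List (List ℤ) :=
  match k with
  | 0 =>
    [[1, 0, 0, 0, 0, 0, 0, 0], [1, 0, 1, 0, 0, 0, 0, 0], [1, 0, 1, 1, 0, 0, 0, 0],
     [1, 1, 1, 1, 0, 0, 0, 0], [1, 0, 1, 1, 1, 0, 0, 0], [1, 1, 1, 1, 1, 0, 0, 0],
     [1, 0, 1, 1, 1, 1, 0, 0], [1, 1, 1, 2, 1, 0, 0, 0], [1, 1, 1, 1, 1, 1, 0, 0],
     [1, 0, 1, 1, 1, 1, 1, 0], [1, 1, 2, 2, 1, 0, 0, 0], [1, 1, 1, 2, 1, 1, 0, 0],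
     [1, 1, 1, 1, 1, 1, 1, 0], [1, 0, 1, 1, 1, 1, 1, 1], [1, 1, 2, 2, 1, 1, 0, 0],
     [1, 1, 1, 2, 2, 1, 0, 0], [1, 1, 1, 2, 1, 1, 1, 0], [1, 1, 1, 1, 1, 1, 1, 1],
     [1, 1, 2, 2, 2, 1, 0, 0], [1, 1, 2, 2, 1, 1, 1, 0], [1, 1, 1, 2, 2, 1, 1, 0],
     [1, 1, 1, 2, 1, 1, 1, 1], [1, 1, 2, 3, 2, 1, 0, 0], [1, 1, 2, 2, 2, 1, 1, 0],
     [1, 1, 2, 2, 1, 1, 1, 1], [1, 1, 1, 2, 2, 2, 1, 0], [1, 1, 1, 2, 2, 1, 1, 1],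
     [1, 2, 2, 3, 2, 1, 0, 0], [1, 1, 2, 3, 2, 1, 1, 0], [1, 1, 2, 2, 2, 2, 1, 0],
     [1, 1, 2, 2, 2, 1, 1, 1], [1, 1, 1, 2, 2, 2, 1, 1], [1, 2, 2, 3, 2, 1, 1, 0],
     [1, 1, 2, 3, 2, 2, 1, 0], [1, 1, 2, 3, 2, 1, 1, 1], [1, 1, 2, 2, 2, 2, 1, 1],
     [1, 1, 1, 2, 2, 2, 2, 1], [1, 2, 2, 3, 2, 2, 1, 0], [1, 2, 2, 3, 2, 1, 1, 1],
     [1, 1, 2, 3, 3, 2, 1, 0], [1, 1, 2, 3, 2, 2, 1, 1], [1, 1, 2, 2, 2, 2, 2, 1],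
     [1, 2, 2, 3, 3, 2, 1, 0], [1, 2, 2, 3, 2, 2, 1, 1], [1, 1, 2, 3, 3, 2, 1, 1],
     [1, 1, 2, 3, 2, 2, 2, 1], [1, 2, 2, 4, 3, 2, 1, 0], [1, 2, 2, 3, 3, 2, 1, 1],
     [1, 2, 2, 3, 2, 2, 2, 1], [1, 1, 2, 3, 3, 2, 2, 1], [1, 2, 3, 4, 3, 2, 1, 0],
     [1, 2, 2, 4, 3, 2, 1, 1], [1, 2, 2, 3, 3, 2, 2, 1], [1, 1, 2, 3, 3, 3, 2, 1],
     [1, 2, 3, 4, 3, 2, 1, 1], [1, 2, 2, 4, 3, 2, 2, 1], [1, 2, 2, 3, 3, 3, 2, 1],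
     [1, 2, 3, 4, 3, 2, 2, 1], [1, 2, 2, 4, 3, 3, 2, 1], [1, 2, 3, 4, 3, 3, 2, 1],
     [1, 2, 2, 4, 4, 3, 2, 1], [1, 2, 3, 4, 4, 3, 2, 1], [1, 2, 3, 5, 4, 3, 2, 1],
     [1, 3, 3, 5, 4, 3, 2, 1]]
  | 1 =>
    [[0, 1, 0, 0, 0, 0, 0, 0], [0, 1, 0, 1, 0, 0, 0, 0], [0, 1, 1, 1, 0, 0, 0, 0],
     [0, 1, 0, 1, 1, 0, 0, 0], [1, 1, 1, 1, 0, 0, 0, 0], [0, 1, 1, 1, 1, 0, 0, 0],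
     [0, 1, 0, 1, 1, 1, 0, 0], [1, 1, 1, 1, 1, 0, 0, 0], [0, 1, 1, 2, 1, 0, 0, 0],
     [0, 1, 1, 1, 1, 1, 0, 0], [0, 1, 0, 1, 1, 1, 1, 0], [1, 1, 1, 2, 1, 0, 0, 0],
     [1, 1, 1, 1, 1, 1, 0, 0], [0, 1, 1, 2, 1, 1, 0, 0], [0, 1, 1, 1, 1, 1, 1, 0],
     [0, 1, 0, 1, 1, 1, 1, 1], [1, 1, 2, 2, 1, 0, 0, 0], [1, 1, 1, 2, 1, 1, 0, 0],
     [1, 1, 1, 1, 1, 1, 1, 0], [0, 1, 1, 2, 2, 1, 0, 0], [0, 1, 1, 2, 1, 1, 1, 0],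
     [0, 1, 1, 1, 1, 1, 1, 1], [1, 1, 2, 2, 1, 1, 0, 0], [1, 1, 1, 2, 2, 1, 0, 0],
     [1, 1, 1, 2, 1, 1, 1, 0], [1, 1, 1, 1, 1, 1, 1, 1], [0, 1, 1, 2, 2, 1, 1, 0],
     [0, 1, 1, 2, 1, 1, 1, 1], [1, 1, 2, 2, 2, 1, 0, 0], [1, 1, 2, 2, 1, 1, 1, 0],
     [1, 1, 1, 2, 2, 1, 1, 0], [1, 1, 1, 2, 1, 1, 1, 1], [0, 1, 1, 2, 2, 2, 1, 0],
     [0, 1, 1, 2, 2, 1, 1, 1], [1, 1, 2, 3, 2, 1, 0, 0], [1, 1, 2, 2, 2, 1, 1, 0],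
     [1, 1, 2, 2, 1, 1, 1, 1], [1, 1, 1, 2, 2, 2, 1, 0], [1, 1, 1, 2, 2, 1, 1, 1],
     [0, 1, 1, 2, 2, 2, 1, 1], [1, 1, 2, 3, 2, 1, 1, 0], [1, 1, 2, 2, 2, 2, 1, 0],
     [1, 1, 2, 2, 2, 1, 1, 1], [1, 1, 1, 2, 2, 2, 1, 1], [0, 1, 1, 2, 2, 2, 2, 1],
     [1, 1, 2, 3, 2, 2, 1, 0], [1, 1, 2, 3, 2, 1, 1, 1], [1, 1, 2, 2, 2, 2, 1, 1],
     [1, 1, 1, 2, 2, 2, 2, 1], [1, 1, 2, 3, 3, 2, 1, 0], [1, 1, 2, 3, 2, 2, 1, 1],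
     [1, 1, 2, 2, 2, 2, 2, 1], [1, 1, 2, 3, 3, 2, 1, 1], [1, 1, 2, 3, 2, 2, 2, 1],
     [1, 1, 2, 3, 3, 2, 2, 1], [1, 1, 2, 3, 3, 3, 2, 1]]
  | 2 =>
    [[0, 0, 1, 0, 0, 0, 0, 0], [1, 0, 1, 0, 0, 0, 0, 0], [0, 0, 1, 1, 0, 0, 0, 0],
     [1, 0, 1, 1, 0, 0, 0, 0], [0, 1, 1, 1, 0, 0, 0, 0], [0, 0, 1, 1, 1, 0, 0, 0],
     [1, 1, 1, 1, 0, 0, 0, 0], [1, 0, 1, 1, 1, 0, 0, 0], [0, 1, 1, 1, 1, 0, 0, 0],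
     [0, 0, 1, 1, 1, 1, 0, 0], [1, 1, 1, 1, 1, 0, 0, 0], [1, 0, 1, 1, 1, 1, 0, 0],
     [0, 1, 1, 2, 1, 0, 0, 0], [0, 1, 1, 1, 1, 1, 0, 0], [0, 0, 1, 1, 1, 1, 1, 0],
     [1, 1, 1, 2, 1, 0, 0, 0], [1, 1, 1, 1, 1, 1, 0, 0], [1, 0, 1, 1, 1, 1, 1, 0],
     [0, 1, 1, 2, 1, 1, 0, 0], [0, 1, 1, 1, 1, 1, 1, 0], [0, 0, 1, 1, 1, 1, 1, 1],
     [1, 1, 1, 2, 1, 1, 0, 0], [1, 1, 1, 1, 1, 1, 1, 0], [1, 0, 1, 1, 1, 1, 1, 1],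
     [0, 1, 1, 2, 2, 1, 0, 0], [0, 1, 1, 2, 1, 1, 1, 0], [0, 1, 1, 1, 1, 1, 1, 1],
     [1, 1, 1, 2, 2, 1, 0, 0], [1, 1, 1, 2, 1, 1, 1, 0], [1, 1, 1, 1, 1, 1, 1, 1],
     [0, 1, 1, 2, 2, 1, 1, 0], [0, 1, 1, 2, 1, 1, 1, 1], [1, 1, 1, 2, 2, 1, 1, 0],
     [1, 1, 1, 2, 1, 1, 1, 1], [0, 1, 1, 2, 2, 2, 1, 0], [0, 1, 1, 2, 2, 1, 1, 1],
     [1, 1, 1, 2, 2, 2, 1, 0], [1, 1, 1, 2, 2, 1, 1, 1], [0, 1, 1, 2, 2, 2, 1, 1],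
     [1, 1, 1, 2, 2, 2, 1, 1], [0, 1, 1, 2, 2, 2, 2, 1], [1, 1, 1, 2, 2, 2, 2, 1]]
  | 3 =>
    [[0, 0, 0, 1, 0, 0, 0, 0], [0, 1, 0, 1, 0, 0, 0, 0], [0, 0, 1, 1, 0, 0, 0, 0],
     [0, 0, 0, 1, 1, 0, 0, 0], [1, 0, 1, 1, 0, 0, 0, 0], [0, 1, 1, 1, 0, 0, 0, 0],
     [0, 1, 0, 1, 1, 0, 0, 0], [0, 0, 1, 1, 1, 0, 0, 0], [0, 0, 0, 1, 1, 1, 0, 0],
     [1, 1, 1, 1, 0, 0, 0, 0], [1, 0, 1, 1, 1, 0, 0, 0], [0, 1, 1, 1, 1, 0, 0, 0],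
     [0, 1, 0, 1, 1, 1, 0, 0], [0, 0, 1, 1, 1, 1, 0, 0], [0, 0, 0, 1, 1, 1, 1, 0],
     [1, 1, 1, 1, 1, 0, 0, 0], [1, 0, 1, 1, 1, 1, 0, 0], [0, 1, 1, 1, 1, 1, 0, 0],
     [0, 1, 0, 1, 1, 1, 1, 0], [0, 0, 1, 1, 1, 1, 1, 0], [0, 0, 0, 1, 1, 1, 1, 1],
     [1, 1, 1, 1, 1, 1, 0, 0], [1, 0, 1, 1, 1, 1, 1, 0], [0, 1, 1, 1, 1, 1, 1, 0],
     [0, 1, 0, 1, 1, 1, 1, 1], [0, 0, 1, 1, 1, 1, 1, 1], [1, 1, 1, 1, 1, 1, 1, 0],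
     [1, 0, 1, 1, 1, 1, 1, 1], [0, 1, 1, 1, 1, 1, 1, 1], [1, 1, 1, 1, 1, 1, 1, 1]]
  | 4 =>
    [[0, 0, 0, 0, 1, 0, 0, 0], [0, 0, 0, 1, 1, 0, 0, 0], [0, 0, 0, 0, 1, 1, 0, 0],
     [0, 1, 0, 1, 1, 0, 0, 0], [0, 0, 1, 1, 1, 0, 0, 0], [0, 0, 0, 1, 1, 1, 0, 0],
     [0, 0, 0, 0, 1, 1, 1, 0], [1, 0, 1, 1, 1, 0, 0, 0], [0, 1, 1, 1, 1, 0, 0, 0],
     [0, 1, 0, 1, 1, 1, 0, 0], [0, 0, 1, 1, 1, 1, 0, 0], [0, 0, 0, 1, 1, 1, 1, 0],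
     [0, 0, 0, 0, 1, 1, 1, 1], [1, 1, 1, 1, 1, 0, 0, 0], [1, 0, 1, 1, 1, 1, 0, 0],
     [0, 1, 1, 2, 1, 0, 0, 0], [0, 1, 1, 1, 1, 1, 0, 0], [0, 1, 0, 1, 1, 1, 1, 0],
     [0, 0, 1, 1, 1, 1, 1, 0], [0, 0, 0, 1, 1, 1, 1, 1], [1, 1, 1, 2, 1, 0, 0, 0],
     [1, 1, 1, 1, 1, 1, 0, 0], [1, 0, 1, 1, 1, 1, 1, 0], [0, 1, 1, 2, 1, 1, 0, 0],
     [0, 1, 1, 1, 1, 1, 1, 0], [0, 1, 0, 1, 1, 1, 1, 1], [0, 0, 1, 1, 1, 1, 1, 1],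
     [1, 1, 2, 2, 1, 0, 0, 0], [1, 1, 1, 2, 1, 1, 0, 0], [1, 1, 1, 1, 1, 1, 1, 0],
     [1, 0, 1, 1, 1, 1, 1, 1], [0, 1, 1, 2, 1, 1, 1, 0], [0, 1, 1, 1, 1, 1, 1, 1],
     [1, 1, 2, 2, 1, 1, 0, 0], [1, 1, 1, 2, 1, 1, 1, 0], [1, 1, 1, 1, 1, 1, 1, 1],
     [0, 1, 1, 2, 1, 1, 1, 1], [1, 1, 2, 2, 1, 1, 1, 0], [1, 1, 1, 2, 1, 1, 1, 1],
     [1, 1, 2, 2, 1, 1, 1, 1]]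
  | 5 =>
    [[0, 0, 0, 0, 0, 1, 0, 0], [0, 0, 0, 0, 1, 1, 0, 0], [0, 0, 0, 0, 0, 1, 1, 0],
     [0, 0, 0, 1, 1, 1, 0, 0], [0, 0, 0, 0, 1, 1, 1, 0], [0, 0, 0, 0, 0, 1, 1, 1],
     [0, 1, 0, 1, 1, 1, 0, 0], [0, 0, 1, 1, 1, 1, 0, 0], [0, 0, 0, 1, 1, 1, 1, 0],
     [0, 0, 0, 0, 1, 1, 1, 1], [1, 0, 1, 1, 1, 1, 0, 0], [0, 1, 1, 1, 1, 1, 0, 0],
     [0, 1, 0, 1, 1, 1, 1, 0], [0, 0, 1, 1, 1, 1, 1, 0], [0, 0, 0, 1, 1, 1, 1, 1],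
     [1, 1, 1, 1, 1, 1, 0, 0], [1, 0, 1, 1, 1, 1, 1, 0], [0, 1, 1, 2, 1, 1, 0, 0],
     [0, 1, 1, 1, 1, 1, 1, 0], [0, 1, 0, 1, 1, 1, 1, 1], [0, 0, 1, 1, 1, 1, 1, 1],
     [1, 1, 1, 2, 1, 1, 0, 0], [1, 1, 1, 1, 1, 1, 1, 0], [1, 0, 1, 1, 1, 1, 1, 1],
     [0, 1, 1, 2, 2, 1, 0, 0], [0, 1, 1, 2, 1, 1, 1, 0], [0, 1, 1, 1, 1, 1, 1, 1],
     [1, 1, 2, 2, 1, 1, 0, 0], [1, 1, 1, 2, 2, 1, 0, 0], [1, 1, 1, 2, 1, 1, 1, 0],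
     [1, 1, 1, 1, 1, 1, 1, 1], [0, 1, 1, 2, 2, 1, 1, 0], [0, 1, 1, 2, 1, 1, 1, 1],
     [1, 1, 2, 2, 2, 1, 0, 0], [1, 1, 2, 2, 1, 1, 1, 0], [1, 1, 1, 2, 2, 1, 1, 0],
     [1, 1, 1, 2, 1, 1, 1, 1], [0, 1, 1, 2, 2, 1, 1, 1], [1, 1, 2, 3, 2, 1, 0, 0],
     [1, 1, 2, 2, 2, 1, 1, 0], [1, 1, 2, 2, 1, 1, 1, 1], [1, 1, 1, 2, 2, 1, 1, 1],
     [1, 2, 2, 3, 2, 1, 0, 0], [1, 1, 2, 3, 2, 1, 1, 0], [1, 1, 2, 2, 2, 1, 1, 1],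
     [1, 2, 2, 3, 2, 1, 1, 0], [1, 1, 2, 3, 2, 1, 1, 1], [1, 2, 2, 3, 2, 1, 1, 1]]
  | 6 =>
    [[0, 0, 0, 0, 0, 0, 1, 0], [0, 0, 0, 0, 0, 1, 1, 0], [0, 0, 0, 0, 0, 0, 1, 1],
     [0, 0, 0, 0, 1, 1, 1, 0], [0, 0, 0, 0, 0, 1, 1, 1], [0, 0, 0, 1, 1, 1, 1, 0],
     [0, 0, 0, 0, 1, 1, 1, 1], [0, 1, 0, 1, 1, 1, 1, 0], [0, 0, 1, 1, 1, 1, 1, 0],
     [0, 0, 0, 1, 1, 1, 1, 1], [1, 0, 1, 1, 1, 1, 1, 0], [0, 1, 1, 1, 1, 1, 1, 0],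
     [0, 1, 0, 1, 1, 1, 1, 1], [0, 0, 1, 1, 1, 1, 1, 1], [1, 1, 1, 1, 1, 1, 1, 0],
     [1, 0, 1, 1, 1, 1, 1, 1], [0, 1, 1, 2, 1, 1, 1, 0], [0, 1, 1, 1, 1, 1, 1, 1],
     [1, 1, 1, 2, 1, 1, 1, 0], [1, 1, 1, 1, 1, 1, 1, 1], [0, 1, 1, 2, 2, 1, 1, 0],
     [0, 1, 1, 2, 1, 1, 1, 1], [1, 1, 2, 2, 1, 1, 1, 0], [1, 1, 1, 2, 2, 1, 1, 0],
     [1, 1, 1, 2, 1, 1, 1, 1], [0, 1, 1, 2, 2, 2, 1, 0], [0, 1, 1, 2, 2, 1, 1, 1],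
     [1, 1, 2, 2, 2, 1, 1, 0], [1, 1, 2, 2, 1, 1, 1, 1], [1, 1, 1, 2, 2, 2, 1, 0],
     [1, 1, 1, 2, 2, 1, 1, 1], [0, 1, 1, 2, 2, 2, 1, 1], [1, 1, 2, 3, 2, 1, 1, 0],
     [1, 1, 2, 2, 2, 2, 1, 0], [1, 1, 2, 2, 2, 1, 1, 1], [1, 1, 1, 2, 2, 2, 1, 1],
     [1, 2, 2, 3, 2, 1, 1, 0], [1, 1, 2, 3, 2, 2, 1, 0], [1, 1, 2, 3, 2, 1, 1, 1],
     [1, 1, 2, 2, 2, 2, 1, 1], [1, 2, 2, 3, 2, 2, 1, 0], [1, 2, 2, 3, 2, 1, 1, 1],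
     [1, 1, 2, 3, 3, 2, 1, 0], [1, 1, 2, 3, 2, 2, 1, 1], [1, 2, 2, 3, 3, 2, 1, 0],
     [1, 2, 2, 3, 2, 2, 1, 1], [1, 1, 2, 3, 3, 2, 1, 1], [1, 2, 2, 4, 3, 2, 1, 0],
     [1, 2, 2, 3, 3, 2, 1, 1], [1, 2, 3, 4, 3, 2, 1, 0], [1, 2, 2, 4, 3, 2, 1, 1],
     [2, 2, 3, 4, 3, 2, 1, 0], [1, 2, 3, 4, 3, 2, 1, 1], [2, 2, 3, 4, 3, 2, 1, 1]]
  | 7 =>
    [[0, 0, 0, 0, 0, 0, 0, 1], [0, 0, 0, 0, 0, 0, 1, 1], [0, 0, 0, 0, 0, 1, 1, 1],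
     [0, 0, 0, 0, 1, 1, 1, 1], [0, 0, 0, 1, 1, 1, 1, 1], [0, 1, 0, 1, 1, 1, 1, 1],
     [0, 0, 1, 1, 1, 1, 1, 1], [1, 0, 1, 1, 1, 1, 1, 1], [0, 1, 1, 1, 1, 1, 1, 1],
     [1, 1, 1, 1, 1, 1, 1, 1], [0, 1, 1, 2, 1, 1, 1, 1], [1, 1, 1, 2, 1, 1, 1, 1],
     [0, 1, 1, 2, 2, 1, 1, 1], [1, 1, 2, 2, 1, 1, 1, 1], [1, 1, 1, 2, 2, 1, 1, 1],
     [0, 1, 1, 2, 2, 2, 1, 1], [1, 1, 2, 2, 2, 1, 1, 1], [1, 1, 1, 2, 2, 2, 1, 1],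
     [0, 1, 1, 2, 2, 2, 2, 1], [1, 1, 2, 3, 2, 1, 1, 1], [1, 1, 2, 2, 2, 2, 1, 1],
     [1, 1, 1, 2, 2, 2, 2, 1], [1, 2, 2, 3, 2, 1, 1, 1], [1, 1, 2, 3, 2, 2, 1, 1],
     [1, 1, 2, 2, 2, 2, 2, 1], [1, 2, 2, 3, 2, 2, 1, 1], [1, 1, 2, 3, 3, 2, 1, 1],
     [1, 1, 2, 3, 2, 2, 2, 1], [1, 2, 2, 3, 3, 2, 1, 1], [1, 2, 2, 3, 2, 2, 2, 1],
     [1, 1, 2, 3, 3, 2, 2, 1], [1, 2, 2, 4, 3, 2, 1, 1], [1, 2, 2, 3, 3, 2, 2, 1],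
     [1, 1, 2, 3, 3, 3, 2, 1], [1, 2, 3, 4, 3, 2, 1, 1], [1, 2, 2, 4, 3, 2, 2, 1],
     [1, 2, 2, 3, 3, 3, 2, 1], [2, 2, 3, 4, 3, 2, 1, 1], [1, 2, 3, 4, 3, 2, 2, 1],
     [1, 2, 2, 4, 3, 3, 2, 1], [2, 2, 3, 4, 3, 2, 2, 1], [1, 2, 3, 4, 3, 3, 2, 1],
     [1, 2, 2, 4, 4, 3, 2, 1], [2, 2, 3, 4, 3, 3, 2, 1], [1, 2, 3, 4, 4, 3, 2, 1],
     [2, 2, 3, 4, 4, 3, 2, 1], [1, 2, 3, 5, 4, 3, 2, 1], [2, 2, 3, 5, 4, 3, 2, 1],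
     [1, 3, 3, 5, 4, 3, 2, 1], [2, 3, 3, 5, 4, 3, 2, 1], [2, 2, 4, 5, 4, 3, 2, 1],
     [2, 3, 4, 5, 4, 3, 2, 1], [2, 3, 4, 6, 4, 3, 2, 1], [2, 3, 4, 6, 5, 3, 2, 1],
     [2, 3, 4, 6, 5, 4, 2, 1], [2, 3, 4, 6, 5, 4, 3, 1]]

theorem exCheck_E8 : exCheck (exData CartanMatrix.E₈) posRootsE8 = true := by
  decide +kernel

theorem diag_E8 (j : Fin 8) : CartanMatrix.E₈ j j = 2 := by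
  revert j
  decide +kernel

theorem filter_E8 (k : Fin 8) :
    posRootsE8.filter (fun r => r.getD (k : ℕ) 0 == 1) = lsE8 k := by
  revert k
  decide +kernel

/-- The roots of type `E8` are the listed vectors and their opposites. -/
theorem isRoot_E8_iff (v : Fin 8 → ℤ) :
    IsRoot CartanMatrix.E₈ v ↔ List.ofFn v ∈ posRootsE8 ∨ List.ofFn (-v) ∈ posRootsE8 :=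
  isRoot_iff_of_exCheck diag_E8 exCheck_E8 v

theorem mem_delta1_E8 (k : Fin 8) (v : Fin 8 → ℤ) :
    v ∈ Delta1 CartanMatrix.E₈ k ↔ List.ofFn v ∈ lsE8 k := by
  rw [← filter_E8 k]
  exact mem_delta1_of_exCheck diag_E8 exCheck_E8 k v

theorem lsE8_length (k : Fin 8) : ∀ l ∈ lsE8 k, l.length = 8 := by
  revert k
  decide +kernel

theorem lsE8_nodup (k : Fin 8) : (lsE8 k).Nodup := by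
  revert k
  decide +kernel

theorem lsE8_sorted (k : Fin 8) :
    ((lsE8 k).map List.sum).Pairwise (· ≤ ·) := by
  revert k
  decide +kernel

/-- `Delta1` is the range of the injective family given by the list. -/
theorem range_exFam_E8 (k : Fin 8) :
    Set.range (exFam 8 (lsE8 k)) = Delta1 CartanMatrix.E₈ k :=
  range_exFam (lsE8_length k) (mem_delta1_E8 k)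

end Pool.Agent.TH657.Pan
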