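import Mathlib
import Pool.Agent.TH657.Pan.ExGlue
import Pool.Agent.TH657.Pan.ExceptE8

set_option autoImplicit false

/-!
# Orbit averages for Delta(1) in the exceptional types E8
-/

namespace Pool.Agent.TH657.Pan

theorem orbitAverages_E8_0 : OrbitAverages CartanMatrix.E₈ 0 :=
  orbitAverages_of_lists (lsE8 0) (lsE8_length 0) (lsE8_nodup 0) (range_exFam_E8 0) 64 22
    (by decide +kernel) (by decide +kernel) (by decide +kernel) (by decide +kernel)

theorem orbitAverages_E8_1 : OrbitAverages CartanMatrix.E₈ 1 :=
  orbitAverages_of_lists (lsE8 1) (lsE8_length 1) (lsE8_nodup 1) (range_exFam_E8 1) 56 16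
    (by decide +kernel) (by decide +kernel) (by decide +kernel) (by decide +kernel)

theorem orbitAverages_E8_2 : OrbitAverages CartanMatrix.E₈ 2 :=
  orbitAverages_of_lists (lsE8 2) (lsE8_length 2) (lsE8_nodup 2) (range_exFam_E8 2) 42 12
    (by decide +kernel) (by decide +kernel) (by decide +kernel) (by decide +kernel)

theorem orbitAverages_E8_3 : OrbitAverages CartanMatrix.E₈ 3 :=
  orbitAverages_of_lists (lsE8 3) (lsE8_length 3) (lsE8_nodup 3) (range_exFam_E8 3) 30 8
    (by decide +kernel) (by decide +kernel) (by decide +kernel) (by decide +kernel)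

end Pool.Agent.TH657.Pan
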