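import Mathlib
import Pool.Agent.TH657.Pan.ExGlue
import Pool.Agent.TH657.Pan.ExceptE8

set_option autoImplicit false

/-!
# Orbit averages for Delta(1) in the exceptional types E8
-/

namespace Pool.Agent.TH657.Pan

theorem orbitAverages_E8_4 : OrbitAverages CartanMatrix.E₈ 4 :=
  orbitAverages_of_lists (lsE8 4) (lsE8_length 4) (lsE8_nodup 4) (range_exFam_E8 4) 40 10
    (by decide +kernel) (by decide +kernel) (by decide +kernel) (by decide +kernel)

theorem orbitAverages_E8_5 : OrbitAverages CartanMatrix.E₈ 5 :=
  orbitAverages_of_lists (lsE8 5) (lsE8_length 5) (lsE8_nodup 5) (range_exFam_E8 5) 48 13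
    (by decide +kernel) (by decide +kernel) (by decide +kernel) (by decide +kernel)

theorem orbitAverages_E8_6 : OrbitAverages CartanMatrix.E₈ 6 :=
  orbitAverages_of_lists (lsE8 6) (lsE8_length 6) (lsE8_nodup 6) (range_exFam_E8 6) 54 18
    (by decide +kernel) (by decide +kernel) (by decide +kernel) (by decide +kernel)

theorem orbitAverages_E8_7 : OrbitAverages CartanMatrix.E₈ 7 :=
  orbitAverages_of_lists (lsE8 7) (lsE8_length 7) (lsE8_nodup 7) (range_exFam_E8 7) 56 28
    (by decide +kernel) (by decide +kernel) (by decide +kernel) (by decide +kernel)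

end Pool.Agent.TH657.Pan
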