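import Mathlib
import Pool.Agent.TH657.Pan.Defs

set_option autoImplicit false

/-!
# Type A: `Delta(1)` is a product of two chains
-/

namespace Pool.Agent.TH657.Pan

namespace MdA

/-- the column sums of the Cartan matrix of type A -/
lemma sumA {n : ℕ} (v : Fin n → ℤ) (j : Fin n) :
    ∑ i, v i * CartanMatrix.A n i j =
      2 * v j - (if h : 0 < j.val then v ⟨j.val - 1, by omega⟩ else 0) -
        (if h : j.val + 1 < n then v ⟨j.val + 1, h⟩ else 0) := by
  have h1 : ∀ i : Fin n, v i * CartanMatrix.A n i j = 2 * (if i = j then v i else 0) -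
      (if i.val + 1 = j.val then v i else 0) - (if j.val + 1 = i.val then v i else 0) := by
    intro i
    unfold CartanMatrix.A
    rw [Matrix.of_apply]
    by_cases h1 : i = j
    · subst h1
      simp
      ring
    · by_cases h2 : i.val + 1 = j.val
      · have h3 : ¬ j.val + 1 = i.val := by omega
        simp [h1, h2, h3]
      · by_cases h3 : j.val + 1 = i.val
        · simp [h1, h2, h3]
        · simp [h1, h2, h3]
  rw [Finset.sum_congr rfl fun i _ => h1 i, Finset.sum_sub_distrib, Finset.sum_sub_distrib,
    ← Finset.mul_sum, Finset.sum_ite_eq' Finset.univ j v, if_pos (Finset.mem_univ j)]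
  congr 1
  · congr 1
    split_ifs with h
    · have h2 : ∀ i : Fin n, (if i.val + 1 = j.val then v i else 0) =
          if i = (⟨j.val - 1, by omega⟩ : Fin n) then v i else 0 := by
        intro i
        congr 1
        rw [Fin.ext_iff]
        simp only [eq_iff_iff]
        omega
      rw [Finset.sum_congr rfl fun i _ => h2 i, Finset.sum_ite_eq' Finset.univ _ v,
        if_pos (Finset.mem_univ _)]
    · refine Finset.sum_eq_zero fun i _ => ?_
      rw [if_neg (by omega)]
  · split_ifs with h
    · have h2 : ∀ i : Fin n, (if j.val + 1 = i.val then v i else 0) =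
          if i = (⟨j.val + 1, h⟩ : Fin n) then v i else 0 := by
        intro i
        congr 1
        rw [Fin.ext_iff]
        simp only [eq_iff_iff]
        omega
      rw [Finset.sum_congr rfl fun i _ => h2 i, Finset.sum_ite_eq' Finset.univ _ v,
        if_pos (Finset.mem_univ _)]
    · refine Finset.sum_eq_zero fun i _ => ?_
      rw [if_neg (by omega)]

/-- the step function -/
def gs (r i : ℕ) : ℤ := if r ≤ i then 1 else 0

/-- the indicator of `[r, s)` -/
def ind {n : ℕ} (r s : ℕ) : Fin n → ℤ := fun i => if r ≤ i.val ∧ i.val < s then 1 else 0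

/-- the transposition of `j` and `j + 1` -/
def sw (j r : ℕ) : ℕ := if r = j then j + 1 else if r = j + 1 then j else r

lemma gs_sw (j r i : ℕ) (h : i ≠ j) : gs (sw j r) i = gs r i := by
  unfold gs sw
  split_ifs <;> omega

lemma c_form (n j r : ℕ) (hr : r ≤ n) (hj : j < n) :
    gs r j - (2 * gs r j - (if 0 < j then gs r (j - 1) else 0) -
      (if j + 1 < n then gs r (j + 1) else 0)) =
      gs (sw j r) j - (if j + 1 < n then 0 else 1) := by
  rcases Nat.lt_trichotomy r j with h | h | h
  · have e1 : sw j r = r := by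
      unfold sw
      rw [if_neg (by omega), if_neg (by omega)]
    rw [e1]
    unfold gs
    rw [if_pos (by omega : r ≤ j), if_pos (by omega : r ≤ j - 1), if_pos (by omega : 0 < j),
      if_pos (by omega : r ≤ j + 1)]
    split_ifs <;> norm_num
  · subst h
    have e1 : sw r r = r + 1 := by
      unfold sw
      rw [if_pos rfl]
    rw [e1]
    unfold gs
    rw [if_pos (le_refl r), if_neg (by omega : ¬ r + 1 ≤ r), if_pos (by omega : r ≤ r + 1)]
    have e2 : (if 0 < r then (if r ≤ r - 1 then (1 : ℤ) else 0) else 0) = 0 := by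
      split_ifs <;> omega
    rw [e2]
    split_ifs <;> norm_num
  · unfold gs
    rw [if_neg (by omega : ¬ r ≤ j)]
    have e2 : (if 0 < j then (if r ≤ j - 1 then (1 : ℤ) else 0) else 0) = 0 := by
      split_ifs <;> omega
    rw [e2]
    unfold sw
    split_ifs <;> omega

lemma ind_le {n : ℕ} (a b a' b' : ℕ) (h1 : a' ≤ a) (h2 : b ≤ b') (i : Fin n) :
    ind a b i ≤ ind a' b' i := by
  unfold ind
  split_ifs <;> omega

lemma root_form {n : ℕ} (v : Fin n → ℤ) (hv : IsRoot (CartanMatrix.A n) v) :
    ∃ r s : ℕ, r ≤ n ∧ s ≤ n ∧ r ≠ s ∧ ∀ i : Fin n, v i = gs r i.val - gs s i.val := by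
  induction hv with
  | simple i =>
    refine ⟨i.val, i.val + 1, by omega, by omega, by omega, fun l => ?_⟩
    unfold gs
    by_cases h : l = i
    · subst h
      simp
    · rw [Pi.single_eq_of_ne h]
      have h' : l.val ≠ i.val := fun h2 => h (Fin.ext h2)
      split_ifs <;> omega
  | reflect j v hv ih =>
    obtain ⟨r, s, hr, hs, hrs, hf⟩ := ih
    refine ⟨sw j.val r, sw j.val s, ?_, ?_, ?_, fun i => ?_⟩
    · unfold sw
      split_ifs <;> omega
    · unfold sw
      split_ifs <;> omega
    · unfold sw
      split_ifs <;> omega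
    · rw [Pi.sub_apply]
      by_cases h : i = j
      · subst h
        rw [Pi.single_eq_same, sumA, hf i]
        have e1 : (if h : 0 < i.val then v ⟨i.val - 1, by omega⟩ else 0) =
            (if 0 < i.val then gs r (i.val - 1) else 0) -
              (if 0 < i.val then gs s (i.val - 1) else 0) := by
          split_ifs with h
          · rw [hf]
          · rfl
        have e2 : (if h : i.val + 1 < n then v ⟨i.val + 1, h⟩ else 0) =
            (if i.val + 1 < n then gs r (i.val + 1) else 0) -
              (if i.val + 1 < n then gs s (i.val + 1) else 0) := by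
          split_ifs with h
          · rw [hf]
          · rfl
        rw [e1, e2]
        have h1 := c_form n i.val r hr i.2
        have h2 := c_form n i.val s hs i.2
        linarith
      · have h' : i.val ≠ j.val := fun h2 => h (Fin.ext h2)
        rw [Pi.single_eq_of_ne h, sub_zero, hf, gs_sw _ _ _ h', gs_sw _ _ _ h']

lemma ind_root {n : ℕ} (r : ℕ) : ∀ m : ℕ, r + m < n →
    IsRoot (CartanMatrix.A n) (ind (n := n) r (r + m + 1))
  | 0, h => by
    have h1 : ind (n := n) r (r + 0 + 1) = Pi.single (⟨r, by omega⟩ : Fin n) 1 := by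
      funext i
      unfold ind
      by_cases hi : i = (⟨r, by omega⟩ : Fin n)
      · subst hi
        simp
      · rw [Pi.single_eq_of_ne hi, if_neg]
        intro h2
        apply hi
        apply Fin.ext
        show i.val = r
        omega
    rw [h1]
    exact IsRoot.simple _
  | (m + 1), h => by
    have ih := ind_root (n := n) r m (by omega)
    have h2 := IsRoot.reflect (⟨r + m + 1, by omega⟩ : Fin n) _ ih
    have h3 : ∑ i, ind (n := n) r (r + m + 1) i *
        CartanMatrix.A n i (⟨r + m + 1, by omega⟩ : Fin n) = -1 := by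
      rw [sumA]
      simp only
      unfold ind
      simp only
      split_ifs <;> omega
    rw [h3] at h2
    have h4 : ind (n := n) r (r + (m + 1) + 1) = ind (n := n) r (r + m + 1) -
        Pi.single (⟨r + m + 1, by omega⟩ : Fin n) (-1) := by
      funext i
      rw [Pi.sub_apply]
      by_cases hi : i = (⟨r + m + 1, by omega⟩ : Fin n)
      · subst hi
        rw [Pi.single_eq_same]
        unfold ind
        simp only
        split_ifs <;> omega
      · have h' : i.val ≠ r + m + 1 := fun h2 => hi (Fin.ext h2)
        rw [Pi.single_eq_of_ne hi]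
        unfold ind
        split_ifs <;> omega
    rw [h4]
    exact h2

lemma ind_sum {n : ℕ} (a b : ℕ) (hab : a ≤ b) (hb : b ≤ n) :
    ∑ i, ind (n := n) a b i = (b : ℤ) - a := by
  unfold ind
  have h1 := Finset.sum_range (n := n) (fun i : ℕ => if a ≤ i ∧ i < b then (1 : ℤ) else 0)
  rw [← h1, ← Finset.sum_filter, Finset.sum_const]
  have h2 : (Finset.range n).filter (fun i => a ≤ i ∧ i < b) = Finset.Ico a b := by
    ext i
    simp only [Finset.mem_filter, Finset.mem_range, Finset.mem_Ico]
    omega
  rw [h2, Nat.card_Ico, nsmul_eq_mul, mul_one, Nat.cast_sub hab]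

end MdA

open MdA

theorem modelA (n : ℕ) (k : Fin n) :
    Model (rect (k.1 + 1) (n - k.1)) (fun p => p.1 + p.2) (Delta1 (CartanMatrix.A n) k) := by
  have hk := k.2
  refine ⟨fun p => ind (k.1 - p.1) (k.1 + p.2 + 1), ?_, ?_, ?_⟩
  · rintro ⟨x, y⟩ ⟨hx, hy⟩ ⟨x', y'⟩ ⟨hx', hy'⟩
    simp only at hx hy hx' hy' ⊢
    rw [Prod.mk_le_mk]
    constructor
    · intro h
      have h1 := h (⟨k.1 - x, by omega⟩ : Fin n)
      have h2 := h (⟨k.1 + y, by omega⟩ : Fin n)
      unfold ind at h1 h2
      simp only at h1 h2
      split_ifs at h1 h2 <;> omega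
    · rintro ⟨h1, h2⟩ i
      exact ind_le _ _ _ _ (by omega) (by omega) i
  · ext v
    constructor
    · rintro ⟨⟨x, y⟩, ⟨hx, hy⟩, rfl⟩
      simp only at hx hy ⊢
      refine ⟨?_, ?_⟩
      · have h1 := ind_root (n := n) (k.1 - x) (x + y) (by omega)
        have h2 : k.1 - x + (x + y) + 1 = k.1 + y + 1 := by omega
        rw [h2] at h1
        exact h1
      · unfold ind
        rw [if_pos]
        omega
    · rintro ⟨hv, hvk⟩
      obtain ⟨r, s, hr, hs, hrs, hf⟩ := root_form v hv
      have h1 := hf k
      rw [hvk] at h1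
      unfold gs at h1
      have h2 : r ≤ k.1 ∧ k.1 < s := by
        split_ifs at h1 <;> omega
      refine ⟨(k.1 - r, s - 1 - k.1), ⟨?_, ?_⟩, ?_⟩
      · show k.1 - r < k.1 + 1
        omega
      · show s - 1 - k.1 < n - k.1
        omega
      · funext i
        rw [hf i]
        unfold ind gs
        simp only
        split_ifs <;> omega
  · rintro ⟨x, y⟩ ⟨hx, hy⟩
    simp only at hx hy ⊢
    rw [ind_sum _ _ (by omega) (by omega)]
    push_cast
    omega

end Pool.Agent.TH657.Pan
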