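import Mathlib
import Pool.Agent.TH657.Pan.Defs

set_option autoImplicit false

/-!
# Delta(1) in type B is a product of two chains (helper81)
-/

namespace Pool.Agent.TH657.Pan

namespace MB

/-- the coordinate vector number `r`, in simple-root coordinates -/
def E (n r : ℕ) : Fin n → ℤ := fun i => if r ≤ i.1 then 1 else 0

/-- the simple reflection -/
def R (n : ℕ) (j : Fin n) (v : Fin n → ℤ) : Fin n → ℤ :=
  v - Pi.single j (∑ i, v i * CartanMatrix.B n i j)

theorem R_comb (n : ℕ) (j : Fin n) (a b : ℤ) (v w : Fin n → ℤ) :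
    R n j (a • v + b • w) = a • R n j v + b • R n j w := by
  unfold R
  have h : ∑ i, (a • v + b • w) i * CartanMatrix.B n i j =
      a * ∑ i, v i * CartanMatrix.B n i j + b * ∑ i, w i * CartanMatrix.B n i j := by
    rw [Finset.mul_sum, Finset.mul_sum, ← Finset.sum_add_distrib]
    refine Finset.sum_congr rfl fun i _ => ?_
    simp only [Pi.add_apply, Pi.smul_apply, smul_eq_mul]
    ring
  rw [h]
  funext i
  by_cases hi : i = j
  · subst hi
    simp only [Pi.sub_apply, Pi.add_apply, Pi.smul_apply, smul_eq_mul, Pi.single_eq_same]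
    ring
  · simp only [Pi.sub_apply, Pi.add_apply, Pi.smul_apply, smul_eq_mul, Pi.single_eq_of_ne hi]
    ring

theorem B_eq (n : ℕ) (i j : Fin n) : CartanMatrix.B n i j =
    (if i = j then 2 else 0) + (if i.1 + 1 = j.1 then (if j.1 = n - 1 then -2 else -1) else 0) +
      (if j.1 + 1 = i.1 then -1 else 0) := by
  unfold CartanMatrix.B
  rw [Matrix.of_apply]
  by_cases h1 : i = j
  · subst h1
    simp
  · have h1' : i.1 ≠ j.1 := fun h => h1 (Fin.ext h)
    by_cases h2 : i.1 + 1 = j.1
    · have h3 : ¬ j.1 + 1 = i.1 := by omega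
      simp [h1, h2, h3]
    · simp [h1, h2]

theorem sum_fin (n : ℕ) (V : ℕ → ℤ) (j : ℕ) (hj : j < n) :
    ∑ i : Fin n, V i.1 * (if i.1 = j then 1 else 0) = V j := by
  rw [Finset.sum_eq_single (⟨j, hj⟩ : Fin n)]
  · simp
  · intro b _ hb
    have : b.1 ≠ j := fun h => hb (Fin.ext h)
    simp [this]
  · simp

theorem sum_fin_zero (n : ℕ) (V : ℕ → ℤ) (P : ℕ → Prop) [DecidablePred P]
    (h : ∀ i < n, ¬ P i) (c : ℤ) :
    ∑ i : Fin n, V i.1 * (if P i.1 then c else 0) = 0 := by
  refine Finset.sum_eq_zero fun i _ => ?_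
  rw [if_neg (h i.1 i.2), mul_zero]

theorem sum_B (n : ℕ) (V : ℕ → ℤ) (j : Fin n) :
    ∑ i : Fin n, V i.1 * CartanMatrix.B n i j =
      2 * V j.1 - (if 1 ≤ j.1 then (if j.1 = n - 1 then 2 else 1) * V (j.1 - 1) else 0) -
        (if j.1 + 1 < n then V (j.1 + 1) else 0) := by
  have e : ∀ i : Fin n, V i.1 * CartanMatrix.B n i j =
      2 * (V i.1 * (if i.1 = j.1 then 1 else 0)) +
      (if j.1 = n - 1 then -2 else -1) * (V i.1 * (if i.1 + 1 = j.1 then 1 else 0)) -
      V i.1 * (if i.1 = j.1 + 1 then 1 else 0) := by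
    intro i
    rw [B_eq]
    have h1 : (i = j) = (i.1 = j.1) := by rw [Fin.ext_iff]
    have h2 : (j.1 + 1 = i.1) = (i.1 = j.1 + 1) := propext eq_comm
    simp only [h1, h2]
    split_ifs <;> ring
  rw [Finset.sum_congr rfl fun i _ => e i, Finset.sum_sub_distrib, Finset.sum_add_distrib,
    ← Finset.mul_sum, ← Finset.mul_sum, sum_fin n V j.1 j.2]
  have a1 : ∑ i : Fin n, V i.1 * (if i.1 + 1 = j.1 then 1 else 0) =
      if 1 ≤ j.1 then V (j.1 - 1) else 0 := by
    split_ifs with h
    · rw [← sum_fin n V (j.1 - 1) (by omega)]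
      refine Finset.sum_congr rfl fun i _ => ?_
      have : (i.1 + 1 = j.1) = (i.1 = j.1 - 1) := by
        apply propext
        omega
      simp only [this]
    · refine Finset.sum_eq_zero fun i _ => ?_
      rw [if_neg (by omega), mul_zero]
  have a2 : ∑ i : Fin n, V i.1 * (if i.1 = j.1 + 1 then 1 else 0) =
      if j.1 + 1 < n then V (j.1 + 1) else 0 := by
    split_ifs with h
    · exact sum_fin n V (j.1 + 1) h
    · refine Finset.sum_eq_zero fun i _ => ?_
      rw [if_neg (by omega), mul_zero]
  rw [a1, a2]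
  split_ifs <;> ring

/-- the reflection of a coordinate vector -/
theorem R_E (n : ℕ) (j : Fin n) (r : ℕ) (hr : r ≤ n) :
    R n j (E n r) = if j.1 + 1 < n then
      (if r = j.1 then E n (j.1 + 1) else if r = j.1 + 1 then E n j.1 else E n r)
      else (if r = j.1 then - E n r else E n r) := by
  have h := sum_B n (fun i => if r ≤ i then 1 else 0) j
  have hj := j.2
  funext i
  unfold R
  have hE : (∑ i, E n r i * CartanMatrix.B n i j) =
      ∑ i : Fin n, (fun i => if r ≤ i then (1 : ℤ) else 0) i.1 * CartanMatrix.B n i j := rfl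
  rw [hE, h]
  by_cases hi : i = j
  · subst hi
    rw [Pi.sub_apply, Pi.single_eq_same]
    split_ifs <;> simp only [E, Pi.neg_apply] <;> split_ifs <;> omega
  · have hi' : i.1 ≠ j.1 := fun h => hi (Fin.ext h)
    have hi2 := i.2
    rw [Pi.sub_apply, Pi.single_eq_of_ne hi, sub_zero]
    split_ifs <;> simp only [E, Pi.neg_apply] <;> split_ifs <;> omega

theorem E_big {n r : ℕ} (h : n ≤ r) : E n r = 0 := by
  funext i
  have := i.2
  simp only [E, Pi.zero_apply]
  rw [if_neg (by omega)]

theorem single_eq (n : ℕ) (i : Fin n) : (Pi.single i 1 : Fin n → ℤ) =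
    (1 : ℤ) • E n i.1 + (-1 : ℤ) • E n (i.1 + 1) := by
  funext l
  by_cases h : l = i
  · subst h
    simp [E]
  · have h' : l.1 ≠ i.1 := fun h' => h (Fin.ext h')
    rw [Pi.single_eq_of_ne h]
    simp only [E, Pi.add_apply, Pi.smul_apply, smul_eq_mul]
    split_ifs <;> omega

theorem root_R {n : ℕ} (j : Fin n) {v : Fin n → ℤ} (h : IsRoot (CartanMatrix.B n) v) :
    IsRoot (CartanMatrix.B n) (R n j v) := IsRoot.reflect j v h

/-- the shape of the roots -/
theorem shape {n : ℕ} {v : Fin n → ℤ} (h : IsRoot (CartanMatrix.B n) v) :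
    ∃ (r s : ℕ) (a b : ℤ), r < n ∧ s ≤ n ∧ r ≠ s ∧ (a = 1 ∨ a = -1) ∧ (b = 1 ∨ b = -1) ∧
      v = a • E n r + b • E n s := by
  induction h with
  | simple i => exact ⟨i.1, i.1 + 1, 1, -1, i.2, i.2, by omega, by simp, by simp, single_eq n i⟩
  | reflect j v _ ih =>
    obtain ⟨r, s, a, b, hr, hs, hrs, ha, hb, hv⟩ := ih
    have e : v - Pi.single j (∑ i, v i * CartanMatrix.B n i j) = R n j v := rfl
    rw [e, hv, R_comb, R_E n j r hr.le, R_E n j s hs]
    have hj := j.2
    by_cases hjn : j.1 + 1 < n
    · rw [if_pos hjn, if_pos hjn]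
      refine ⟨if r = j.1 then j.1 + 1 else if r = j.1 + 1 then j.1 else r,
        if s = j.1 then j.1 + 1 else if s = j.1 + 1 then j.1 else s, a, b, ?_, ?_, ?_, ha, hb, ?_⟩
      · split_ifs <;> omega
      · split_ifs <;> omega
      · split_ifs <;> omega
      · split_ifs <;> rfl
    · rw [if_neg hjn, if_neg hjn]
      refine ⟨r, s, if r = j.1 then -a else a, if s = j.1 then -b else b, hr, hs, hrs, ?_, ?_, ?_⟩
      · split_ifs <;> omega
      · split_ifs <;> omega
      · split_ifs <;> simp

theorem root_E {n : ℕ} (d : ℕ) : ∀ r, r + d + 1 = n → IsRoot (CartanMatrix.B n) (E n r) := by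
  induction d with
  | zero =>
    intro r hr
    have h := IsRoot.simple (M := CartanMatrix.B n) ⟨r, by omega⟩
    rw [single_eq] at h
    dsimp only at h
    rw [E_big (r := r + 1) (by omega), smul_zero, add_zero, one_smul] at h
    exact h
  | succ d ih =>
    intro r hr
    have h := root_R ⟨r, by omega⟩ (ih (r + 1) (by omega))
    rw [R_E n _ (r + 1) (by omega)] at h
    dsimp only at h
    rw [if_pos (by omega), if_neg (by omega), if_pos rfl] at h
    exact h

theorem root_sub {n a : ℕ} (d : ℕ) : a + d + 1 < n →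
    IsRoot (CartanMatrix.B n) ((1 : ℤ) • E n a + (-1 : ℤ) • E n (a + d + 1)) := by
  induction d with
  | zero =>
    intro h0
    have h := IsRoot.simple (M := CartanMatrix.B n) ⟨a, by omega⟩
    rw [single_eq] at h
    exact h
  | succ d ih =>
    intro h0
    have h := root_R ⟨a + d + 1, by omega⟩ (ih (by omega))
    rw [R_comb, R_E n _ a (by omega), R_E n _ (a + d + 1) (by omega)] at h
    dsimp only at h
    rw [if_pos (by omega), if_neg (by omega), if_neg (by omega), if_pos (by omega),
      if_pos rfl] at h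
    exact h

theorem root_add {n a : ℕ} (d : ℕ) : ∀ s, a < s → s + d + 1 = n →
    IsRoot (CartanMatrix.B n) ((1 : ℤ) • E n a + (1 : ℤ) • E n s) := by
  induction d with
  | zero =>
    intro s has hs
    obtain ⟨e, he⟩ := Nat.exists_eq_add_of_lt has
    have h0 := root_sub (n := n) (a := a) e (by omega)
    rw [← he] at h0
    have h := root_R ⟨s, by omega⟩ h0
    rw [R_comb, R_E n _ a (by omega), R_E n _ s (by omega)] at h
    dsimp only at h
    rw [if_neg (by omega), if_neg (by omega), if_neg (by omega), if_pos rfl, neg_smul_neg] at h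
    exact h
  | succ d ih =>
    intro s has hs
    have h := root_R ⟨s, by omega⟩ (ih (s + 1) (by omega) (by omega))
    rw [R_comb, R_E n _ a (by omega), R_E n _ (s + 1) (by omega)] at h
    dsimp only at h
    rw [if_pos (by omega), if_neg (by omega), if_neg (by omega), if_pos (by omega),
      if_neg (by omega), if_pos rfl] at h
    exact h

/-- the model map -/
def f (n k : ℕ) (p : ℕ × ℕ) : Fin n → ℤ :=
  E n (k - p.1) + E n (2 * n - 1 - k - p.2) - E n (k + p.2 + 1)

theorem sum_E {n r : ℕ} : ∑ i, E n r i = ((n - r : ℕ) : ℤ) := by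
  unfold E
  rw [Fin.sum_univ_eq_sum_range (fun i => if r ≤ i then (1 : ℤ) else 0) n, Finset.sum_ite,
    Finset.sum_const_zero, add_zero, Finset.sum_const, nsmul_eq_mul, mul_one]
  congr 1
  have : (Finset.range n).filter (fun i => r ≤ i) = Finset.Ico r n := by
    ext i
    simp only [Finset.mem_filter, Finset.mem_range, Finset.mem_Ico]
    omega
  rw [this, Nat.card_Ico]

end MB

theorem modelB (n : ℕ) (k : Fin n) :
    Model (rect (k.1 + 1) (2 * (n - 1 - k.1) + 1)) (fun p => p.1 + p.2)
      (Delta1 (CartanMatrix.B n) k) := by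
  have hk := k.2
  refine ⟨MB.f n k.1, ?_, ?_, ?_⟩
  · rintro ⟨x, y⟩ ⟨hx, hy⟩ ⟨x', y'⟩ ⟨hx', hy'⟩
    dsimp only at hx hy hx' hy'
    rw [Prod.mk_le_mk]
    constructor
    · intro h
      have h1 := h ⟨k.1 - x, by omega⟩
      unfold MB.f MB.E at h1
      simp only [Pi.add_apply, Pi.sub_apply] at h1
      have hxx : x ≤ x' := by
        split_ifs at h1 <;> omega
      refine ⟨hxx, ?_⟩
      by_cases hc : y + k.1 + 1 ≤ n
      · have h2 := h ⟨k.1 + y, by omega⟩
        unfold MB.f MB.E at h2
        simp only [Pi.add_apply, Pi.sub_apply] at h2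
        split_ifs at h2 <;> omega
      · have h2 := h ⟨2 * n - 1 - k.1 - y, by omega⟩
        unfold MB.f MB.E at h2
        simp only [Pi.add_apply, Pi.sub_apply] at h2
        split_ifs at h2 <;> omega
    · rintro ⟨h1, h2⟩ i
      have hi := i.2
      unfold MB.f MB.E
      simp only [Pi.add_apply, Pi.sub_apply]
      split_ifs <;> omega
  · ext v
    constructor
    · rintro ⟨⟨x, y⟩, ⟨hx, hy⟩, rfl⟩
      dsimp only at hx hy
      constructor
      · unfold MB.f
        dsimp only
        by_cases h1 : y + k.1 + 1 < n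
        · have h2 := MB.root_sub (n := n) (a := k.1 - x) (x + y) (by omega)
          rw [MB.E_big (r := 2 * n - 1 - k.1 - y) (by omega), add_zero]
          rw [one_smul, neg_one_smul, ← sub_eq_add_neg,
            show k.1 - x + (x + y) + 1 = k.1 + y + 1 by omega] at h2
          exact h2
        · rw [MB.E_big (r := k.1 + y + 1) (by omega), sub_zero]
          by_cases h2 : y + k.1 + 1 = n
          · rw [MB.E_big (r := 2 * n - 1 - k.1 - y) (by omega), add_zero]
            exact MB.root_E (n - 1 - (k.1 - x)) _ (by omega)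
          · have h3 := MB.root_add (n := n) (a := k.1 - x) (n - 1 - (2 * n - 1 - k.1 - y))
              (2 * n - 1 - k.1 - y) (by omega) (by omega)
            rw [one_smul, one_smul] at h3
            exact h3
      · unfold MB.f MB.E
        simp only [Pi.add_apply, Pi.sub_apply]
        split_ifs <;> omega
    · rintro ⟨hv, hvk⟩
      obtain ⟨r, s, a, b, hr, hs, hrs, ha, hb, rfl⟩ := MB.shape hv
      simp only [Pi.add_apply, Pi.smul_apply, smul_eq_mul, MB.E] at hvk
      have main : ∀ (r s : ℕ) (b : ℤ), r ≤ k.1 → k.1 < s → s ≤ n → (b = 1 ∨ b = -1) →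
          (1 : ℤ) • MB.E n r + b • MB.E n s ∈ MB.f n k.1 ''
            rect (k.1 + 1) (2 * (n - 1 - k.1) + 1) := by
        intro r s b hr hs hsn hb
        by_cases h1 : s = n
        · refine ⟨(k.1 - r, n - 1 - k.1), ⟨by simp only; omega, by simp only; omega⟩, ?_⟩
          unfold MB.f
          dsimp only
          rw [MB.E_big (r := 2 * n - 1 - k.1 - (n - 1 - k.1)) (by omega),
            MB.E_big (r := k.1 + (n - 1 - k.1) + 1) (by omega),
            MB.E_big (r := s) (by omega), smul_zero, one_smul,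
            show k.1 - (k.1 - r) = r by omega]
          simp
        · rcases hb with hb | hb
          · refine ⟨(k.1 - r, 2 * n - 1 - k.1 - s), ⟨by simp only; omega, by simp only; omega⟩, ?_⟩
            unfold MB.f
            dsimp only
            rw [MB.E_big (r := k.1 + (2 * n - 1 - k.1 - s) + 1) (by omega), hb, one_smul,
              one_smul, show k.1 - (k.1 - r) = r by omega,
              show 2 * n - 1 - k.1 - (2 * n - 1 - k.1 - s) = s by omega, sub_zero]
          · refine ⟨(k.1 - r, s - 1 - k.1), ⟨by simp only; omega, by simp only; omega⟩, ?_⟩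
            unfold MB.f
            dsimp only
            rw [MB.E_big (r := 2 * n - 1 - k.1 - (s - 1 - k.1)) (by omega), hb, one_smul,
              neg_one_smul, show k.1 - (k.1 - r) = r by omega,
              show k.1 + (s - 1 - k.1) + 1 = s by omega, add_zero, sub_eq_add_neg]
      by_cases h1 : r ≤ k.1
      · by_cases h2 : s ≤ k.1
        · exfalso
          rw [if_pos h1, if_pos h2] at hvk
          omega
        · rw [if_pos h1, if_neg h2] at hvk
          have h3 : a = 1 := by omega
          rw [h3]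
          exact main r s b h1 (by omega) hs hb
      · rw [if_neg h1] at hvk
        by_cases h2 : s ≤ k.1
        · rw [if_pos h2] at hvk
          have h3 : b = 1 := by omega
          rw [h3, add_comm (a • MB.E n r)]
          exact main s r a h2 (by omega) hr.le ha
        · rw [if_neg h2] at hvk
          omega
  · rintro ⟨x, y⟩ ⟨hx, hy⟩
    dsimp only at hx hy
    unfold MB.f
    simp only [Pi.add_apply, Pi.sub_apply]
    rw [Finset.sum_sub_distrib, Finset.sum_add_distrib, MB.sum_E, MB.sum_E, MB.sum_E]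
    push_cast
    omega

end Pool.Agent.TH657.Pan
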