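import Mathlib
import Pool.Agent.TH657.Pan.Defs

set_option autoImplicit false

/-!
# The posets `Delta(1)` in type `C`
-/

namespace Pool.Agent.TH657.Pan

namespace MC

/-- Extended coordinates: `W 0 = 0`, `W i = v (i-1)` for `1 ≤ i < n`, `W n = 2 v (n-1)`. -/
def W (n : ℕ) (v : Fin n → ℤ) (i : ℕ) : ℤ :=
  if h : 1 ≤ i ∧ i ≤ n then
    (if i = n then 2 * v ⟨i - 1, by omega⟩ else v ⟨i - 1, by omega⟩) else 0

/-- A step function. -/
def TT (r : ℕ) (e : ℤ) (i : ℕ) : ℤ := if r < i then e else 0

lemma sumC (n : ℕ) (v : Fin n → ℤ) (j : Fin n) :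
    ∑ i, v i * CartanMatrix.C n i j =
      2 * v j - (if h : 0 < j.1 then v ⟨j.1 - 1, by omega⟩ else 0) -
        (if h : j.1 + 1 < n then (if j.1 + 2 = n then 2 else 1) * v ⟨j.1 + 1, h⟩ else 0) := by
  have h1 : ∀ i : Fin n, v i * CartanMatrix.C n i j = (if i = j then 2 * v j else 0)
      - (if h : 0 < j.1 then (if i = ⟨j.1 - 1, by omega⟩ then v ⟨j.1 - 1, by omega⟩ else 0) else 0)
      - (if h : j.1 + 1 < n then (if i = ⟨j.1 + 1, h⟩ then
          (if j.1 + 2 = n then 2 else 1) * v ⟨j.1 + 1, h⟩ else 0) else 0) := by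
    intro i
    simp only [CartanMatrix.C, Matrix.of_apply]
    by_cases hij : i = j
    · subst hij
      have e1 : ∀ h : 0 < i.1, i ≠ ⟨i.1 - 1, by omega⟩ := by
        intro h h'
        have := congrArg Fin.val h'
        simp at this
        omega
      have e2 : ∀ h : i.1 + 1 < n, i ≠ ⟨i.1 + 1, h⟩ := by
        intro h h'
        have := congrArg Fin.val h'
        simp at this
      have e3 : (if h : 0 < i.1 then (if i = ⟨i.1 - 1, by omega⟩ then v ⟨i.1 - 1, by omega⟩
          else 0) else 0) = 0 := by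
        split_ifs with a b
        · exact absurd b (e1 a)
        · rfl
        · rfl
      rw [e3]
      simp [e2, mul_comm]
    · rw [if_neg hij, if_neg hij]
      by_cases h1 : i.1 + 1 = j.1
      · have hi : i = ⟨j.1 - 1, by omega⟩ := Fin.ext (by simp; omega)
        have h2 : ¬ (∃ h : j.1 + 1 < n, i = ⟨j.1 + 1, h⟩) := by
          rintro ⟨h, h'⟩
          have := congrArg Fin.val h'
          simp at this
          omega
        rw [if_pos h1, dif_pos (by omega), if_pos hi]
        have h3 : (if h : j.1 + 1 < n then (if i = ⟨j.1 + 1, h⟩ then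
          (if j.1 + 2 = n then (2 : ℤ) else 1) * v ⟨j.1 + 1, h⟩ else 0) else 0) = 0 := by
          split_ifs with a b
          · exact absurd ⟨a, b⟩ h2
          · exact absurd ⟨a, b⟩ h2
          · rfl
          · rfl
        rw [h3, ← hi]
        ring
      · rw [if_neg h1]
        have h3 : (if h : 0 < j.1 then (if i = ⟨j.1 - 1, by omega⟩ then v ⟨j.1 - 1, by omega⟩
            else 0) else 0) = 0 := by
          split_ifs with a b
          · exfalso
            have := congrArg Fin.val b
            simp at this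
            omega
          · rfl
          · rfl
        rw [h3]
        by_cases h2 : j.1 + 1 = i.1
        · have h4 : j.1 + 1 < n := by have := i.2; omega
          have hi : i = ⟨j.1 + 1, h4⟩ := Fin.ext (by simp; omega)
          rw [if_pos h2, dif_pos h4, if_pos hi, ← hi]
          by_cases h5 : j.1 + 2 = n
          · rw [if_pos h5, if_pos (by omega)]
            ring
          · rw [if_neg h5, if_neg (by omega)]
            ring
        · rw [if_neg h2]
          have h4 : (if h : j.1 + 1 < n then (if i = ⟨j.1 + 1, h⟩ then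
            (if j.1 + 2 = n then (2 : ℤ) else 1) * v ⟨j.1 + 1, h⟩ else 0) else 0) = 0 := by
            split_ifs with a b
            · exfalso
              have := congrArg Fin.val b
              simp at this
              omega
            · exfalso
              have := congrArg Fin.val b
              simp at this
              omega
            · rfl
            · rfl
          rw [h4]
          ring
  rw [Finset.sum_congr rfl fun i _ => h1 i, Finset.sum_sub_distrib, Finset.sum_sub_distrib]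
  congr 1
  · congr 1
    · simp
    · split_ifs with h
      · simp
      · simp
  · split_ifs with h h'
    · simp
    · simp
    · simp

lemma W_zero (n : ℕ) (v : Fin n → ℤ) : W n v 0 = 0 := by
  unfold W
  rw [dif_neg (by omega)]

lemma W_mid (n : ℕ) (v : Fin n → ℤ) (j : Fin n) (h : j.1 + 1 < n) : W n v (j.1 + 1) = v j := by
  unfold W
  rw [dif_pos (by omega), if_neg (by omega)]
  exact congrArg v (Fin.ext (by simp))

lemma W_last (n : ℕ) (v : Fin n → ℤ) (j : Fin n) (h : ¬ j.1 + 1 < n) :
    W n v (j.1 + 1) = 2 * v j := by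
  have := j.2
  unfold W
  rw [dif_pos (by omega), if_pos (by omega)]
  exact congrArg (fun i => 2 * v i) (Fin.ext (by simp))

lemma sumW (n : ℕ) (v : Fin n → ℤ) (j : Fin n) :
    ∑ i, v i * CartanMatrix.C n i j =
      if j.1 + 1 < n then 2 * W n v (j.1 + 1) - W n v j.1 - W n v (j.1 + 2)
        else W n v (j.1 + 1) - W n v j.1 := by
  rw [sumC]
  have hj := j.2
  have h0 : (if h : 0 < j.1 then v ⟨j.1 - 1, by omega⟩ else 0) = W n v j.1 := by
    split_ifs with h
    · have := W_mid n v ⟨j.1 - 1, by omega⟩ (by simp; omega)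
      rw [← this]
      congr 1
      simp
      omega
    · have : j.1 = 0 := by omega
      rw [this, W_zero]
  rw [h0]
  by_cases h1 : j.1 + 1 < n
  · rw [if_pos h1, dif_pos h1, W_mid n v j h1]
    congr 1
    by_cases h2 : j.1 + 2 = n
    · rw [if_pos h2]
      exact (W_last n v ⟨j.1 + 1, h1⟩ (by simp; omega)).symm
    · rw [if_neg h2, one_mul]
      exact (W_mid n v ⟨j.1 + 1, h1⟩ (by simp; omega)).symm
  · rw [if_neg h1, dif_neg h1, W_last n v j h1]
    ring

lemma W_reflect (n : ℕ) (v : Fin n → ℤ) (j : Fin n) (i : ℕ) :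
    W n (v - Pi.single j (∑ i, v i * CartanMatrix.C n i j)) i =
      if i = j.1 + 1 then (if j.1 + 1 < n then W n v j.1 + W n v (j.1 + 2) - W n v (j.1 + 1)
        else 2 * W n v j.1 - W n v (j.1 + 1)) else W n v i := by
  have hj := j.2
  rw [sumW]
  by_cases h : i = j.1 + 1
  · subst h
    rw [if_pos rfl]
    by_cases h1 : j.1 + 1 < n
    · rw [if_pos h1, if_pos h1, W_mid n _ j h1, W_mid n v j h1]
      simp only [Pi.sub_apply, Pi.single_eq_same]
      ring
    · rw [if_neg h1, if_neg h1, W_last n _ j h1, W_last n v j h1]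
      simp only [Pi.sub_apply, Pi.single_eq_same]
      ring
  · rw [if_neg h]
    generalize (if j.1 + 1 < n then 2 * W n v (j.1 + 1) - W n v j.1 - W n v (j.1 + 2)
        else W n v (j.1 + 1) - W n v j.1) = c
    unfold W
    by_cases h1 : 1 ≤ i ∧ i ≤ n
    · have h2 : (⟨i - 1, by omega⟩ : Fin n) ≠ j := by
        intro h'
        have := congrArg Fin.val h'
        simp at this
        omega
      rw [dif_pos h1, dif_pos h1]
      simp only [Pi.sub_apply, Pi.single_eq_of_ne h2, sub_zero]
    · rw [dif_neg h1, dif_neg h1]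

lemma W_inj (n : ℕ) (v w : Fin n → ℤ) (h : ∀ i, i ≤ n → W n v i = W n w i) : v = w := by
  funext i
  have h1 := h (i.1 + 1) (by omega)
  unfold W at h1
  rw [dif_pos (by omega), dif_pos (by omega)] at h1
  have e0 : (⟨i.1 + 1 - 1, by omega⟩ : Fin n) = i := Fin.ext (by simp)
  rw [e0] at h1
  split_ifs at h1 <;> omega

lemma W_le (n : ℕ) (v w : Fin n → ℤ) : v ≤ w ↔ ∀ i, i ≤ n → W n v i ≤ W n w i := by
  constructor
  · intro h i hi
    unfold W
    split_ifs with h1 h2
    · have h3 : v ⟨i - 1, by omega⟩ ≤ w ⟨i - 1, by omega⟩ := h _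
      omega
    · exact h ⟨i - 1, by omega⟩
    · exact le_rfl
  · intro h i
    have h1 := h (i.1 + 1) (by omega)
    by_cases h2 : i.1 + 1 < n
    · rw [W_mid n v i h2, W_mid n w i h2] at h1
      exact h1
    · rw [W_last n v i h2, W_last n w i h2] at h1
      have h3 : v i ≤ w i := by omega
      exact h3

/-- `v` has the shape given by two step functions. -/
def Sh (n : ℕ) (v : Fin n → ℤ) (r s : ℕ) (e d : ℤ) : Prop :=
  ∀ i, i ≤ n → W n v i = TT r e i + TT s d i

/-- The transposition of `j` and `j + 1`. -/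
def sw (j r : ℕ) : ℕ := if r = j then j + 1 else if r = j + 1 then j else r

lemma TT_sw (j r : ℕ) (e : ℤ) :
    TT r e j + TT r e (j + 2) - TT r e (j + 1) = TT (sw j r) e (j + 1) := by
  unfold TT sw
  split_ifs <;> omega

lemma TT_sw' (j r : ℕ) (e : ℤ) (i : ℕ) (hi : i ≠ j + 1) : TT r e i = TT (sw j r) e i := by
  unfold TT sw
  split_ifs <;> omega

lemma TT_ng (j r : ℕ) (e : ℤ) (h : r ≤ j) :
    2 * TT r e j - TT r e (j + 1) = TT r (if r = j then -e else e) (j + 1) := by
  unfold TT
  split_ifs <;> omega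

lemma TT_ng' (j r : ℕ) (e : ℤ) (i : ℕ) (hi : i ≤ j) :
    TT r e i = TT r (if r = j then -e else e) i := by
  unfold TT
  split_ifs <;> omega

lemma Sh_swap {n : ℕ} {v : Fin n → ℤ} {r s : ℕ} {e d : ℤ} (j : Fin n) (hj : j.1 + 1 < n)
    (h : Sh n v r s e d) :
    Sh n (v - Pi.single j (∑ i, v i * CartanMatrix.C n i j)) (sw j.1 r) (sw j.1 s) e d := by
  intro i hi
  rw [W_reflect n v j i, if_pos hj]
  by_cases h1 : i = j.1 + 1
  · rw [if_pos h1, h j.1 (by omega), h (j.1 + 1) (by omega), h (j.1 + 2) (by omega), h1,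
      ← TT_sw, ← TT_sw]
    ring
  · rw [if_neg h1, h i hi, ← TT_sw' _ _ _ _ h1, ← TT_sw' _ _ _ _ h1]

lemma Sh_neg {n : ℕ} {v : Fin n → ℤ} {r s : ℕ} {e d : ℤ} (j : Fin n) (hj : ¬ j.1 + 1 < n)
    (hr : r < n) (hs : s < n) (h : Sh n v r s e d) :
    Sh n (v - Pi.single j (∑ i, v i * CartanMatrix.C n i j)) r s (if r = j.1 then -e else e)
      (if s = j.1 then -d else d) := by
  have hj' := j.2
  intro i hi
  rw [W_reflect n v j i, if_neg hj]
  by_cases h1 : i = j.1 + 1
  · rw [if_pos h1, h j.1 (by omega), h (j.1 + 1) (by omega), h1,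
      ← TT_ng _ _ _ (by omega), ← TT_ng _ _ _ (by omega)]
    ring
  · rw [if_neg h1, h i hi, ← TT_ng' _ _ _ _ (by omega), ← TT_ng' _ _ _ _ (by omega)]

lemma W_single (n : ℕ) (j : Fin n) (i : ℕ) (hi : i ≤ n) :
    W n (Pi.single j 1) i = if i = j.1 + 1 then (if j.1 + 1 < n then 1 else 2) else 0 := by
  have hj := j.2
  by_cases h0 : i = 0
  · subst h0
    rw [W_zero, if_neg (by omega)]
  · obtain ⟨t, rfl⟩ : ∃ t, i = t + 1 := ⟨i - 1, by omega⟩
    have ht : t < n := by omega
    by_cases h1 : t = j.1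
    · have e0 : (⟨t, ht⟩ : Fin n) = j := Fin.ext h1
      rw [if_pos (by omega)]
      by_cases h2 : t + 1 < n
      · rw [W_mid n _ ⟨t, ht⟩ h2, e0, if_pos (by omega)]
        simp
      · rw [W_last n _ ⟨t, ht⟩ h2, e0, if_neg (by omega)]
        simp
    · have e0 : (⟨t, ht⟩ : Fin n) ≠ j := fun h => h1 (congrArg Fin.val h)
      rw [if_neg (by omega)]
      by_cases h2 : t + 1 < n
      · rw [W_mid n _ ⟨t, ht⟩ h2]
        simp [e0]
      · rw [W_last n _ ⟨t, ht⟩ h2]
        simp [e0]

lemma Sh_simple (n : ℕ) (j : Fin n) (h : j.1 + 1 < n) :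
    Sh n (Pi.single j 1) j.1 (j.1 + 1) 1 (-1) := by
  intro i hi
  rw [W_single n j i hi, if_pos h]
  unfold TT
  split_ifs <;> omega

lemma Sh_simple' (n : ℕ) (j : Fin n) (h : ¬ j.1 + 1 < n) :
    Sh n (Pi.single j 1) j.1 j.1 1 1 := by
  have := j.2
  intro i hi
  rw [W_single n j i hi, if_neg h]
  unfold TT
  split_ifs <;> omega

/-- The shape of a root. -/
lemma shape (n : ℕ) (v : Fin n → ℤ) (hv : IsRoot (CartanMatrix.C n) v) :
    ∃ r s : ℕ, ∃ e d : ℤ, r < n ∧ s < n ∧ (e = 1 ∨ e = -1) ∧ (d = 1 ∨ d = -1) ∧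
      (r = s → e = d) ∧ Sh n v r s e d := by
  induction hv with
  | simple j =>
    by_cases h : j.1 + 1 < n
    · exact ⟨j.1, j.1 + 1, 1, -1, j.2, h, Or.inl rfl, Or.inr rfl, by omega, Sh_simple n j h⟩
    · exact ⟨j.1, j.1, 1, 1, j.2, j.2, Or.inl rfl, Or.inl rfl, fun _ => rfl, Sh_simple' n j h⟩
  | reflect j v hv ih =>
    obtain ⟨r, s, e, d, hr, hs, he, hd, hrs, hW⟩ := ih
    by_cases h : j.1 + 1 < n
    · refine ⟨_, _, e, d, ?_, ?_, he, hd, ?_, Sh_swap j h hW⟩
      · unfold sw
        split_ifs <;> omega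
      · unfold sw
        split_ifs <;> omega
      · intro h'
        apply hrs
        unfold sw at h'
        split_ifs at h' <;> omega
    · refine ⟨_, _, _, _, hr, hs, ?_, ?_, ?_, Sh_neg j h hr hs hW⟩
      · split_ifs <;> omega
      · split_ifs <;> omega
      · intro h'
        have := hrs h'
        subst h'
        split_ifs <;> omega

/-- The roots `e_r - e_s`. -/
lemma ex_minus (n r : ℕ) : ∀ t : ℕ, r + 1 + t < n →
    ∃ v, IsRoot (CartanMatrix.C n) v ∧ Sh n v r (r + 1 + t) 1 (-1) := by
  intro t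
  induction t with
  | zero =>
    intro h
    exact ⟨_, IsRoot.simple ⟨r, by omega⟩, Sh_simple n ⟨r, by omega⟩ h⟩
  | succ t ih =>
    intro h
    obtain ⟨v, hv, hs⟩ := ih (by omega)
    refine ⟨_, IsRoot.reflect ⟨r + 1 + t, by omega⟩ v hv, ?_⟩
    have := Sh_swap ⟨r + 1 + t, by omega⟩ (by simp; omega) hs
    have e1 : sw (r + 1 + t) r = r := by
      unfold sw
      rw [if_neg (by omega), if_neg (by omega)]
    have e2 : sw (r + 1 + t) (r + 1 + t) = r + 1 + (t + 1) := by
      unfold sw
      rw [if_pos rfl]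
      ring
    simpa only [e1, e2] using this

/-- The roots `e_r + e_s`, `r < s`. -/
lemma ex_plus (n r : ℕ) (hr : r + 1 < n) : ∀ t : ℕ, r + 1 + t < n →
    ∃ v, IsRoot (CartanMatrix.C n) v ∧ Sh n v r (n - 1 - t) 1 1 := by
  intro t
  induction t with
  | zero =>
    intro h
    obtain ⟨v, hv, hs⟩ := ex_minus n r (n - 1 - (r + 1)) (by omega)
    refine ⟨_, IsRoot.reflect ⟨n - 1, by omega⟩ v hv, ?_⟩
    have e0 : r + 1 + (n - 1 - (r + 1)) = n - 1 := by omega
    rw [e0] at hs
    have := Sh_neg ⟨n - 1, by omega⟩ (by simp; omega) (by omega) (by omega) hs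
    simp only [if_neg (show r ≠ n - 1 by omega), if_true, neg_neg] at this
    exact this
  | succ t ih =>
    intro h
    obtain ⟨v, hv, hs⟩ := ih (by omega)
    refine ⟨_, IsRoot.reflect ⟨n - 1 - (t + 1), by omega⟩ v hv, ?_⟩
    have := Sh_swap ⟨n - 1 - (t + 1), by omega⟩ (by simp; omega) hs
    have e1 : sw (n - 1 - (t + 1)) r = r := by
      unfold sw
      rw [if_neg (by omega), if_neg (by omega)]
    have e2 : sw (n - 1 - (t + 1)) (n - 1 - t) = n - 1 - (t + 1) := by
      unfold sw
      rw [if_neg (by omega), if_pos (by omega)]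
    simpa only [e1, e2] using this

/-- The roots `2 e_r`. -/
lemma ex_two (n : ℕ) (hn : 0 < n) : ∀ t : ℕ, t < n →
    ∃ v, IsRoot (CartanMatrix.C n) v ∧ Sh n v (n - 1 - t) (n - 1 - t) 1 1 := by
  intro t
  induction t with
  | zero =>
    intro h
    exact ⟨_, IsRoot.simple ⟨n - 1, by omega⟩, Sh_simple' n ⟨n - 1, by omega⟩ (by simp; omega)⟩
  | succ t ih =>
    intro h
    obtain ⟨v, hv, hs⟩ := ih (by omega)
    refine ⟨_, IsRoot.reflect ⟨n - 1 - (t + 1), by omega⟩ v hv, ?_⟩
    have := Sh_swap ⟨n - 1 - (t + 1), by omega⟩ (by simp; omega) hs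
    have e2 : sw (n - 1 - (t + 1)) (n - 1 - t) = n - 1 - (t + 1) := by
      unfold sw
      rw [if_neg (by omega), if_pos (by omega)]
    simpa only [e2] using this

/-- The vector of the given shape. -/
def mk (n r s : ℕ) (d : ℤ) (i : Fin n) : ℤ :=
  if i.1 + 1 < n then TT r 1 (i.1 + 1) + TT s d (i.1 + 1) else (1 + d) / 2

lemma Sh_mk (n r s : ℕ) (d : ℤ) (hr : r < n) (hs : s < n) (hd : d = 1 ∨ d = -1) :
    Sh n (mk n r s d) r s 1 d := by
  intro i hi
  by_cases h0 : i = 0
  · subst h0
    rw [W_zero]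
    simp [TT]
  · obtain ⟨j, rfl⟩ : ∃ j, i = j + 1 := ⟨i - 1, by omega⟩
    have hj : j < n := by omega
    by_cases h1 : j + 1 < n
    · rw [W_mid n _ ⟨j, hj⟩ h1]
      simp [mk, h1]
    · rw [W_last n _ ⟨j, hj⟩ h1]
      simp only [mk, if_neg h1, TT]
      rw [if_pos (by omega), if_pos (by omega)]
      rcases hd with rfl | rfl <;> norm_num

lemma Sh_unique {n : ℕ} {v w : Fin n → ℤ} {r s : ℕ} {e d : ℤ} (h : Sh n v r s e d)
    (h' : Sh n w r s e d) : v = w :=
  W_inj n v w fun i hi => by rw [h i hi, h' i hi]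

lemma root_mk (n r s : ℕ) (d : ℤ) (hs : s < n) (h : (d = -1 ∧ r < s) ∨ (d = 1 ∧ r ≤ s)) :
    IsRoot (CartanMatrix.C n) (mk n r s d) := by
  rcases h with ⟨rfl, h⟩ | ⟨rfl, h⟩
  · obtain ⟨v, hv, hS⟩ := ex_minus n r (s - (r + 1)) (by omega)
    rw [show r + 1 + (s - (r + 1)) = s by omega] at hS
    rw [Sh_unique (Sh_mk n r s (-1) (by omega) hs (Or.inr rfl)) hS]
    exact hv
  · rcases h.lt_or_eq with h | rfl
    · obtain ⟨v, hv, hS⟩ := ex_plus n r (by omega) (n - 1 - s) (by omega)
      rw [show n - 1 - (n - 1 - s) = s by omega] at hS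
      rw [Sh_unique (Sh_mk n r s 1 (by omega) hs (Or.inl rfl)) hS]
      exact hv
    · obtain ⟨v, hv, hS⟩ := ex_two n (by omega) (n - 1 - r) (by omega)
      rw [show n - 1 - (n - 1 - r) = r by omega] at hS
      rw [Sh_unique (Sh_mk n r r 1 (by omega) hs (Or.inl rfl)) hS]
      exact hv

lemma sum_TT (r : ℕ) (e : ℤ) : ∀ n : ℕ, r ≤ n →
    ∑ i : Fin n, TT r e (i.1 + 1) = e * ((n : ℤ) - r) := by
  intro n hn
  induction n, hn using Nat.le_induction with
  | base =>
    rw [Finset.sum_eq_zero]
    · ring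
    · intro i _
      unfold TT
      rw [if_neg (by have := i.2; omega)]
  | succ n hn ih =>
    rw [Fin.sum_univ_castSucc]
    simp only [Fin.val_castSucc, Fin.val_last]
    rw [ih]
    unfold TT
    rw [if_pos (by omega)]
    push_cast
    ring

/-- The height. -/
lemma sum_mk (n r s : ℕ) (d : ℤ) (hr : r < n) (hs : s < n) (hd : d = 1 ∨ d = -1) :
    ∑ i, mk n r s d i = ((n : ℤ) - r) + d * ((n : ℤ) - s) - (1 + d) / 2 := by
  obtain ⟨m, rfl⟩ : ∃ m, n = m + 1 := ⟨n - 1, by omega⟩
  have h1 : ∀ i : Fin m, mk (m + 1) r s d i.castSucc = TT r 1 (i.1 + 1) + TT s d (i.1 + 1) := by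
    intro i
    unfold mk
    rw [if_pos (by have := i.2; simp)]
    rfl
  have h2 : mk (m + 1) r s d (Fin.last m) = (1 + d) / 2 := by
    unfold mk
    rw [if_neg (by simp)]
  rw [Fin.sum_univ_castSucc, Finset.sum_congr rfl fun i _ => h1 i, Finset.sum_add_distrib, h2,
    sum_TT r 1 m (by omega), sum_TT s d m (by omega)]
  rcases hd with rfl | rfl
  · norm_num
    ring
  · norm_num

end MC

open MC

theorem modelC_last (n : ℕ) (k : Fin n) (hk : k.1 + 1 = n) :
    Model (stair n) (fun p => p.1 + p.2) (Delta1 (CartanMatrix.C n) k) := by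
  have key : ∀ p ∈ stair n, Sh n (mk n (n - 1 - p.2) (n - 1 - p.1) 1) (n - 1 - p.2)
      (n - 1 - p.1) 1 1 := by
    rintro ⟨a, b⟩ ⟨h1, h2⟩
    simp only at h1 h2 ⊢
    exact Sh_mk n _ _ 1 (by omega) (by omega) (Or.inl rfl)
  refine ⟨fun p => mk n (n - 1 - p.2) (n - 1 - p.1) 1, ?_, ?_, ?_⟩
  · intro p hp q hq
    have hp' := key p hp
    have hq' := key q hq
    obtain ⟨a, b⟩ := p
    obtain ⟨c, d⟩ := q
    obtain ⟨h1, h2⟩ := hp
    obtain ⟨h3, h4⟩ := hq
    simp only at h1 h2 h3 h4 hp' hq' ⊢
    rw [W_le, Prod.mk_le_mk]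
    constructor
    · intro h
      have h5 := h (n - 1 - b + 1) (by omega)
      rw [hp' _ (by omega), hq' _ (by omega)] at h5
      have h6 := h (n - 1 - a + 1) (by omega)
      rw [hp' _ (by omega), hq' _ (by omega)] at h6
      unfold TT at h5 h6
      constructor
      · by_contra h7
        split_ifs at h6 <;> omega
      · by_contra h7
        split_ifs at h5 <;> omega
    · intro h i hi
      rw [hp' _ (by omega), hq' _ (by omega)]
      unfold TT
      split_ifs <;> omega
  · ext v
    constructor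
    · rintro ⟨⟨a, b⟩, ⟨h1, h2⟩, rfl⟩
      simp only at h1 h2 ⊢
      refine ⟨root_mk n _ _ 1 (by omega) (Or.inr ⟨rfl, by omega⟩), ?_⟩
      unfold mk
      rw [if_neg (by omega)]
      norm_num
    · rintro ⟨hv, hvk⟩
      obtain ⟨r, s, e, d, hr, hs, he, hd, hrs, hS⟩ := shape n v hv
      have h1 := hS n le_rfl
      have h2 := W_last n v k (by omega)
      rw [hk, hvk] at h2
      rw [h2] at h1
      unfold TT at h1
      rw [if_pos hr, if_pos hs] at h1
      have he' : e = 1 := by omega
      have hd' : d = 1 := by omega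
      subst he' hd'
      rcases le_total r s with h | h
      · refine ⟨(n - 1 - s, n - 1 - r), ⟨by simp only; omega, by simp only; omega⟩, ?_⟩
        simp only
        rw [show n - 1 - (n - 1 - r) = r by omega, show n - 1 - (n - 1 - s) = s by omega]
        exact Sh_unique (Sh_mk n r s 1 hr hs (Or.inl rfl)) hS
      · refine ⟨(n - 1 - r, n - 1 - s), ⟨by simp only; omega, by simp only; omega⟩, ?_⟩
        simp only
        rw [show n - 1 - (n - 1 - r) = r by omega, show n - 1 - (n - 1 - s) = s by omega]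
        apply Sh_unique (Sh_mk n s r 1 hs hr (Or.inl rfl))
        intro i hi
        rw [hS i hi]
        ring
  · rintro ⟨a, b⟩ ⟨h1, h2⟩
    simp only at h1 h2 ⊢
    rw [sum_mk n _ _ 1 (by omega) (by omega) (Or.inl rfl)]
    norm_num
    omega

/-- The second index and the sign. -/
def sd (n k y : ℕ) : ℕ × ℤ := if y + 1 + k < n then (k + 1 + y, -1) else (2 * (n - 1) - k - y, 1)

lemma sd_cases (n k y : ℕ) (hy : y < 2 * (n - 1 - k)) :
    (y + 1 + k < n ∧ sd n k y = (k + 1 + y, -1)) ∨
      (n ≤ y + 1 + k ∧ sd n k y = (2 * (n - 1) - k - y, 1)) := by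
  unfold sd
  split_ifs with h
  · exact Or.inl ⟨h, rfl⟩
  · exact Or.inr ⟨by omega, rfl⟩

theorem modelC (n : ℕ) (k : Fin n) (hk : k.1 + 1 < n) :
    Model (rect (k.1 + 1) (2 * (n - 1 - k.1))) (fun p => p.1 + p.2)
      (Delta1 (CartanMatrix.C n) k) := by
  have hsd : ∀ y, y < 2 * (n - 1 - k.1) → (sd n k y).1 < n ∧ k.1 < (sd n k y).1 ∧
      ((sd n k y).2 = 1 ∨ (sd n k y).2 = -1) := by
    intro y hy
    rcases sd_cases n k y hy with ⟨h1, h2⟩ | ⟨h1, h2⟩
    · rw [h2]
      exact ⟨by simp only; omega, by simp only; omega, Or.inr rfl⟩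
    · rw [h2]
      exact ⟨by simp only; omega, by simp only; omega, Or.inl rfl⟩
  have key : ∀ p ∈ rect (k.1 + 1) (2 * (n - 1 - k.1)),
      Sh n (mk n (k.1 - p.1) (sd n k p.2).1 (sd n k p.2).2) (k.1 - p.1)
      (sd n k p.2).1 1 (sd n k p.2).2 := by
    rintro ⟨a, b⟩ ⟨h1, h2⟩
    simp only at h1 h2 ⊢
    have h3 := hsd b h2
    exact Sh_mk n _ _ _ (by omega) h3.1 h3.2.2
  refine ⟨fun p => mk n (k.1 - p.1) (sd n k p.2).1 (sd n k p.2).2, ?_, ?_, ?_⟩
  · intro p hp q hq
    have hp' := key p hp
    have hq' := key q hq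
    obtain ⟨a, b⟩ := p
    obtain ⟨c, d⟩ := q
    obtain ⟨h1, h2⟩ := hp
    obtain ⟨h3, h4⟩ := hq
    simp only at h1 h2 h3 h4 hp' hq' ⊢
    have u1 := hsd b h2
    have u2 := hsd d h4
    rw [W_le, Prod.mk_le_mk]
    constructor
    · intro h
      constructor
      · by_contra h7
        have h5 := h (k.1 - a + 1) (by omega)
        rw [hp' _ (by omega), hq' _ (by omega)] at h5
        unfold TT at h5
        rw [if_pos (by omega), if_neg (by omega), if_neg (by omega), if_neg (by omega)] at h5
        omega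
      · by_contra h7
        rcases sd_cases n k b h2 with ⟨v1, v2⟩ | ⟨v1, v2⟩
        · rcases sd_cases n k d h4 with ⟨w1, w2⟩ | ⟨w1, w2⟩
          · rw [v2] at hp'
            rw [w2] at hq'
            have h5 := h (k.1 + 1 + d + 1) (by omega)
            rw [v2, w2, hp' _ (by omega), hq' _ (by omega)] at h5
            unfold TT at h5
            rw [if_pos (by omega), if_neg (by simp only; omega), if_pos (by omega),
              if_pos (by simp only; omega)] at h5
            omega
          · omega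
        · rcases sd_cases n k d h4 with ⟨w1, w2⟩ | ⟨w1, w2⟩
          · rw [v2] at hp'
            rw [w2] at hq'
            have h5 := h n (by omega)
            rw [v2, w2, hp' _ (by omega), hq' _ (by omega)] at h5
            unfold TT at h5
            rw [if_pos (by omega), if_pos (by simp only; omega), if_pos (by omega),
              if_pos (by simp only; omega)] at h5
            omega
          · rw [v2] at hp'
            rw [w2] at hq'
            have h5 := h (2 * (n - 1) - k.1 - b + 1) (by omega)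
            rw [v2, w2, hp' _ (by omega), hq' _ (by omega)] at h5
            unfold TT at h5
            rw [if_pos (by omega), if_pos (by simp only; omega), if_pos (by omega),
              if_neg (by simp only; omega)] at h5
            omega
    · rintro ⟨h, h'⟩ i hi
      rw [hp' _ (by omega), hq' _ (by omega)]
      have t1 : TT (k.1 - a) 1 i ≤ TT (k.1 - c) 1 i := by
        unfold TT
        split_ifs <;> omega
      by_cases hik : i ≤ k.1 + 1
      · have t2 : TT (sd n k b).1 (sd n k b).2 i = 0 := by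
          unfold TT
          rw [if_neg (by omega)]
        have t3 : TT (sd n k d).1 (sd n k d).2 i = 0 := by
          unfold TT
          rw [if_neg (by omega)]
        rw [t2, t3]
        omega
      · have t2 : TT (k.1 - a) 1 i = 1 := by
          unfold TT
          rw [if_pos (by omega)]
        have t3 : TT (k.1 - c) 1 i = 1 := by
          unfold TT
          rw [if_pos (by omega)]
        rw [t2, t3]
        have t4 : TT (sd n k b).1 (sd n k b).2 i ≤ TT (sd n k d).1 (sd n k d).2 i := by
          rcases sd_cases n k b h2 with ⟨v1, v2⟩ | ⟨v1, v2⟩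
          · rcases sd_cases n k d h4 with ⟨w1, w2⟩ | ⟨w1, w2⟩
            · rw [v2, w2]
              unfold TT
              split_ifs <;> simp only at * <;> omega
            · rw [v2, w2]
              unfold TT
              split_ifs <;> norm_num
          · rcases sd_cases n k d h4 with ⟨w1, w2⟩ | ⟨w1, w2⟩
            · omega
            · rw [v2, w2]
              unfold TT
              split_ifs <;> simp only at * <;> omega
        omega
  · ext v
    constructor
    · rintro ⟨⟨a, b⟩, ⟨h1, h2⟩, rfl⟩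
      simp only at h1 h2 ⊢
      have h3 := hsd b h2
      refine ⟨root_mk n _ _ _ (by omega) ?_, ?_⟩
      · rcases h3.2.2 with h4 | h4
        · exact Or.inr ⟨h4, by omega⟩
        · exact Or.inl ⟨h4, by omega⟩
      · unfold mk TT
        rw [if_pos hk, if_pos (by omega), if_neg (by omega)]
        norm_num
    · rintro ⟨hv, hvk⟩
      obtain ⟨r, s, e, d, hr, hs, he, hd, hrs, hS⟩ := shape n v hv
      have h1 := hS (k.1 + 1) (by omega)
      have h2 := W_mid n v k hk
      rw [hvk] at h2
      rw [h2] at h1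
      have main : ∀ r s : ℕ, ∀ d : ℤ, r ≤ k.1 → k.1 < s → s < n → (d = 1 ∨ d = -1) →
          Sh n v r s 1 d → v ∈ (fun p : ℕ × ℕ => mk n (k.1 - p.1) (sd n k p.2).1 (sd n k p.2).2) ''
            rect (k.1 + 1) (2 * (n - 1 - k.1)) := by
        intro r s d hr hs hs' hd hS
        rcases hd with rfl | rfl
        · refine ⟨(k.1 - r, 2 * (n - 1) - k.1 - s), ⟨by simp only; omega, by simp only; omega⟩, ?_⟩
          have e1 : sd n k (2 * (n - 1) - k.1 - s) = (s, 1) := by
            unfold sd
            rw [if_neg (by omega)]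
            ext <;> simp only
            omega
          simp only
          rw [e1, show k.1 - (k.1 - r) = r by omega]
          exact Sh_unique (Sh_mk n r s 1 (by omega) hs' (Or.inl rfl)) hS
        · refine ⟨(k.1 - r, s - 1 - k.1), ⟨by simp only; omega, by simp only; omega⟩, ?_⟩
          have e1 : sd n k (s - 1 - k.1) = (s, -1) := by
            unfold sd
            rw [if_pos (by omega)]
            ext <;> simp only
            omega
          simp only
          rw [e1, show k.1 - (k.1 - r) = r by omega]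
          exact Sh_unique (Sh_mk n r s (-1) (by omega) hs' (Or.inr rfl)) hS
      unfold TT at h1
      split_ifs at h1 with a b b
      · omega
      · have he' : e = 1 := by omega
        subst he'
        exact main r s d (by omega) (by omega) hs hd hS
      · have hd' : d = 1 := by omega
        subst hd'
        refine main s r e (by omega) (by omega) hr he ?_
        intro i hi
        rw [hS i hi]
        ring
      · omega
  · rintro ⟨a, b⟩ ⟨h1, h2⟩
    simp only at h1 h2 ⊢
    have h3 := hsd b h2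
    rw [sum_mk n _ _ _ (by omega) (by omega) h3.2.2]
    rcases sd_cases n k b h2 with ⟨v1, v2⟩ | ⟨v1, v2⟩
    · rw [v2]
      norm_num
      omega
    · rw [v2]
      norm_num
      omega

end Pool.Agent.TH657.Pan
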