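import Mathlib
import Pool.Agent.TH657.Pan.Defs

/-!
# Delta(1) in type D, nodes `1, ..., n - 2`
-/

set_option autoImplicit false

namespace Pool.Agent.TH657.Pan

namespace MD

/-- the entries of the Cartan matrix -/
def dd (n i j : ℕ) : ℤ :=
  if i = j then 2
  else if i + 1 = j ∧ j + 2 < n then -1
  else if j + 1 = i ∧ i + 2 < n then -1
  else if i + 3 = n ∧ (j + 2 = n ∨ j + 1 = n) then -1
  else if j + 3 = n ∧ (i + 2 = n ∨ i + 1 = n) then -1
  else 0

lemma D_eq (n : ℕ) (hn : 4 ≤ n) (i j : Fin n) : CartanMatrix.D n i j = dd n i j := by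
  unfold CartanMatrix.D dd
  rw [Matrix.of_apply]
  simp only [Fin.ext_iff, if_neg (show ¬ n ≤ 2 by omega)]

/-- the usual coordinates -/
def xc (n : ℕ) (V : ℕ → ℤ) (i : ℕ) : ℤ :=
  if i + 2 < n then (V i - (if i = 0 then 0 else V (i - 1)))
  else if i + 2 = n then V (n - 2) + V (n - 1) - V (n - 3)
  else V (n - 1) - V (n - 2)

lemma col0 (n : ℕ) (hn : 4 ≤ n) (V : ℕ → ℤ) (j : ℕ) (hj : j < n) (i : ℕ) (hi : i < n) :
    V i * dd n i j = (if i = j then 2 * V j else 0)
       - (if i = j - 1 then (if 1 ≤ j ∧ j + 2 < n then V (j - 1) else 0) else 0)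
       - (if i = j + 1 then (if j + 3 < n then V (j + 1) else 0) else 0)
       - (if i = n - 3 then (if j + 2 = n ∨ j + 1 = n then V (n - 3) else 0) else 0)
       - (if i = n - 2 then (if j + 3 = n then V (n - 2) else 0) else 0)
       - (if i = n - 1 then (if j + 3 = n then V (n - 1) else 0) else 0) := by
  unfold dd
  grind (splits := 40)

lemma col (n : ℕ) (hn : 4 ≤ n) (V : ℕ → ℤ) (j : ℕ) (hj : j < n) :
    ∑ i ∈ Finset.range n, V i * dd n i j =
      if j + 1 < n then xc n V j - xc n V (j + 1) else xc n V (n - 2) + xc n V (n - 1) := by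
  rw [Finset.sum_congr rfl fun i hi => col0 n hn V j hj i (Finset.mem_range.1 hi)]
  simp only [Finset.sum_sub_distrib, Finset.sum_ite_eq', Finset.mem_range]
  unfold xc
  grind (splits := 40)

/-- action of the reflections on the coordinates -/
lemma xc_refl (n : ℕ) (hn : 4 ≤ n) (V : ℕ → ℤ) (j : ℕ) (hj : j < n) (c : ℤ)
    (hc : c = if j + 1 < n then xc n V j - xc n V (j + 1) else xc n V (n - 2) + xc n V (n - 1))
    (i : ℕ) (hi : i < n) :
    xc n (fun l => V l - if l = j then c else 0) i =
      if j + 1 < n then (if i = j then xc n V (j + 1) else if i = j + 1 then xc n V j else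
        xc n V i) else (if i = n - 2 then - xc n V (n - 1) else if i = n - 1 then
          - xc n V (n - 2) else xc n V i) := by
  unfold xc at *
  grind (splits := 40)

lemma colF (n : ℕ) (hn : 4 ≤ n) (V : ℕ → ℤ) (j : Fin n) :
    ∑ i : Fin n, V i * CartanMatrix.D n i j =
      if j.1 + 1 < n then xc n V j - xc n V (j + 1) else xc n V (n - 2) + xc n V (n - 1) := by
  rw [← col n hn V j j.2, Finset.sum_range]
  refine Finset.sum_congr rfl fun i _ => ?_
  rw [D_eq n hn]

/-- extension by zero -/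
def ex {n : ℕ} (v : Fin n → ℤ) (l : ℕ) : ℤ := if h : l < n then v ⟨l, h⟩ else 0

lemma ex_val {n : ℕ} (v : Fin n → ℤ) (i : Fin n) : ex v i = v i := by
  unfold ex
  rw [dif_pos i.2]

lemma ex_sub {n : ℕ} (v : Fin n → ℤ) (j : Fin n) (c : ℤ) :
    ex (v - Pi.single j c) = fun l => ex v l - if l = j.1 then c else 0 := by
  funext l
  unfold ex
  by_cases h : l < n
  · rw [dif_pos h, dif_pos h, Pi.sub_apply, Pi.single_apply]
    simp only [Fin.ext_iff]
  · rw [dif_neg h, dif_neg h, if_neg (by have := j.2; omega)]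
    simp

lemma ex_single {n : ℕ} (j : Fin n) :
    ex (Pi.single j (1 : ℤ)) = fun l => if l = j.1 then (1 : ℤ) else 0 := by
  funext l
  unfold ex
  by_cases h : l < n
  · rw [dif_pos h, Pi.single_apply]
    simp only [Fin.ext_iff]
  · rw [dif_neg h, if_neg (by have := j.2; omega)]

/-- two nonzero coordinates -/
def Two (n : ℕ) (x : ℕ → ℤ) : Prop :=
  ∃ a b, a < n ∧ b < n ∧ a ≠ b ∧ (x a = 1 ∨ x a = -1) ∧ (x b = 1 ∨ x b = -1) ∧
    ∀ i < n, i ≠ a → i ≠ b → x i = 0

lemma two_swap (n : ℕ) (x y : ℕ → ℤ) (s : ℕ → ℕ) (hs1 : ∀ i < n, s i < n)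
    (hs2 : ∀ i < n, s (s i) = i) (h : ∀ i < n, y i = x (s i) ∨ y i = - x (s i))
    (hx : Two n x) : Two n y := by
  obtain ⟨a, b, ha, hb, hab, h1, h2, h3⟩ := hx
  refine ⟨s a, s b, hs1 a ha, hs1 b hb, ?_, ?_, ?_, ?_⟩
  · intro he
    apply hab
    rw [← hs2 a ha, ← hs2 b hb, he]
  · have h4 := h (s a) (hs1 a ha)
    rw [hs2 a ha] at h4
    omega
  · have h4 := h (s b) (hs1 b hb)
    rw [hs2 b hb] at h4
    omega
  · intro i hi hia hib
    have h4 := h3 (s i) (hs1 i hi) (fun he => hia (by rw [← he, hs2 i hi]))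
      (fun he => hib (by rw [← he, hs2 i hi]))
    have h5 := h i hi
    rw [h4] at h5
    omega

lemma root_two (n : ℕ) (hn : 4 ≤ n) (v : Fin n → ℤ) (hv : IsRoot (CartanMatrix.D n) v) :
    Two n (xc n (ex v)) := by
  induction hv with
  | simple j =>
    rw [ex_single]
    have hj := j.2
    by_cases h : j.1 + 1 < n
    · refine ⟨j.1, j.1 + 1, hj, h, by omega, ?_, ?_, ?_⟩
      · left
        unfold xc
        grind (splits := 40)
      · right
        unfold xc
        grind (splits := 40)
      · intro i hi h1 h2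
        unfold xc
        grind (splits := 40)
    · refine ⟨n - 2, n - 1, by omega, by omega, by omega, ?_, ?_, ?_⟩
      · left
        unfold xc
        grind (splits := 40)
      · left
        unfold xc
        grind (splits := 40)
      · intro i hi h1 h2
        unfold xc
        grind (splits := 40)
  | reflect j v _ ih =>
    have hc : ∑ i, v i * CartanMatrix.D n i j = if j.1 + 1 < n then
        xc n (ex v) j - xc n (ex v) (j + 1) else xc n (ex v) (n - 2) + xc n (ex v) (n - 1) := by
      rw [← colF n hn (ex v) j]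
      refine Finset.sum_congr rfl fun i _ => ?_
      rw [ex_val]
    generalize ∑ i, v i * CartanMatrix.D n i j = c at hc
    rw [ex_sub]
    have hj := j.2
    by_cases h : j.1 + 1 < n
    · refine two_swap n _ _ (fun i => if i = j.1 then j.1 + 1 else if i = j.1 + 1 then j.1 else i)
        ?_ ?_ ?_ ih
      · intro i hi
        split_ifs <;> omega
      · intro i hi
        split_ifs <;> omega
      · intro i hi
        left
        rw [xc_refl n hn (ex v) j j.2 c hc i hi, if_pos h]
        split_ifs <;> rfl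
    · refine two_swap n _ _ (fun i => if i = n - 2 then n - 1 else if i = n - 1 then n - 2 else i)
        ?_ ?_ ?_ ih
      · intro i hi
        split_ifs <;> omega
      · intro i hi
        split_ifs <;> omega
      · intro i hi
        rw [xc_refl n hn (ex v) j j.2 c hc i hi, if_neg h]
        split_ifs
        · right
          rfl
        · right
          rfl
        · left
          rfl

lemma sums (n : ℕ) (V : ℕ → ℤ) (a b : ℕ) (hab : a ≠ b)
    (h : ∀ i < n, i ≠ a → i ≠ b → xc n V i = 0) : ∀ l : ℕ, l + 2 < n →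
    V l = (if a ≤ l then xc n V a else 0) + (if b ≤ l then xc n V b else 0) := by
  intro l
  induction l with
  | zero =>
    intro hl
    have h1 : xc n V 0 = V 0 := by
      unfold xc
      rw [if_pos hl]
      simp
    by_cases ha : a = 0
    · subst ha
      rw [if_pos le_rfl, if_neg (by omega), h1, add_zero]
    · by_cases hb : b = 0
      · subst hb
        rw [if_neg (by omega), if_pos le_rfl, h1, zero_add]
      · rw [if_neg (by omega), if_neg (by omega), ← h1, h 0 (by omega) (Ne.symm ha) (Ne.symm hb),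
          add_zero]
  | succ l ih =>
    intro hl
    have h0 := ih (by omega)
    have h1 : xc n V (l + 1) = V (l + 1) - V l := by
      unfold xc
      rw [if_pos hl]
      simp
    by_cases ha : a = l + 1
    · subst ha
      rw [if_neg (by omega)] at h0
      rw [if_pos le_rfl, h1, h0]
      have e : (b ≤ l + 1) ↔ b ≤ l := by omega
      simp only [e]
      ring
    · by_cases hb : b = l + 1
      · subst hb
        rw [if_neg (by omega : ¬ l + 1 ≤ l)] at h0
        rw [if_pos le_rfl, h1, h0]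
        have e : (a ≤ l + 1) ↔ a ≤ l := by omega
        simp only [e]
        ring
      · have h2 := h (l + 1) (by omega) (Ne.symm ha) (Ne.symm hb)
        rw [h1] at h2
        have e1 : (a ≤ l + 1) ↔ a ≤ l := by omega
        have e2 : (b ≤ l + 1) ↔ b ≤ l := by omega
        simp only [e1, e2]
        omega

/-- the map -/
def fD (n k : ℕ) (p : ℕ × ℕ × ℕ) (l : ℕ) : ℤ :=
  if p.2.2 = 0 then (if k ≤ l + p.1 ∧ l ≤ k + p.2.1 then 1 else 0)
  else if l + p.1 < k then 0
  else if l + 2 < n then (if l + k + p.2.1 + 4 < 2 * n then 1 else 2)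
  else if l + 2 = n then (if n ≤ k + p.2.1 + 2 then 1 else 0)
  else 1

lemma fD_zero (n k x c l : ℕ) :
    fD n k (x, c, 0) l = if k ≤ l + x ∧ l ≤ k + c then 1 else 0 := by
  unfold fD
  exact if_pos rfl

lemma fD_one (n k x c l : ℕ) :
    fD n k (x, c, 1) l = if l + x < k then 0
      else if l + 2 < n then (if l + k + c + 4 < 2 * n then 1 else 2)
      else if l + 2 = n then (if n ≤ k + c + 2 then 1 else 0)
      else 1 := by
  unfold fD
  exact if_neg one_ne_zero

lemma mem_diam (a m : ℕ) (p : ℕ × ℕ × ℕ) : p ∈ diam a m ↔ p.1 < a ∧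
    ((p.2.2 = 0 ∧ p.2.1 < m) ∨ (p.2.2 = 1 ∧ m ≤ p.2.1 + 2 ∧ p.2.1 + 3 ≤ 2 * m)) := Iff.rfl

lemma surj (n k : ℕ) (hn : 4 ≤ n) (hk : k + 2 < n) (V : ℕ → ℤ) (h2 : Two n (xc n V))
    (hV : V k = 1) : ∃ p ∈ diam (k + 1) (n - 1 - k), ∀ l < n, V l = fD n k p l := by
  have key : ∀ a b, a < b → b < n → (xc n V a = 1 ∨ xc n V a = -1) →
      (xc n V b = 1 ∨ xc n V b = -1) → (∀ i < n, i ≠ a → i ≠ b → xc n V i = 0) →
      ∃ p ∈ diam (k + 1) (n - 1 - k), ∀ l < n, V l = fD n k p l := by
    intro a b hab hb h3 h4 h5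
    have h6 := sums n V a b hab.ne h5
    have h7 := h6 k hk
    rw [hV] at h7
    have hak : a ≤ k := by
      by_contra hc
      rw [if_neg hc, if_neg (by omega)] at h7
      omega
    have hbk : k < b := by
      by_contra hc
      rw [if_pos hak, if_pos (by omega)] at h7
      omega
    rw [if_pos hak, if_neg (by omega), add_zero] at h7
    have h8 := h6 (n - 3) (by omega)
    rw [if_pos (by omega), ← h7] at h8
    have e1 : xc n V (n - 2) = V (n - 2) + V (n - 1) - V (n - 3) := by
      unfold xc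
      rw [if_neg (by omega), if_pos (by omega)]
    have e2 : xc n V (n - 1) = V (n - 1) - V (n - 2) := by
      unfold xc
      rw [if_neg (by omega), if_neg (by omega)]
    have f1 : xc n V (n - 2) = if b = n - 2 then xc n V b else 0 := by
      by_cases h9 : b = n - 2
      · rw [if_pos h9, h9]
      · rw [if_neg h9]
        exact h5 _ (by omega) (by omega) (Ne.symm h9)
    have f2 : xc n V (n - 1) = if b = n - 1 then xc n V b else 0 := by
      by_cases h9 : b = n - 1
      · rw [if_pos h9, h9]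
      · rw [if_neg h9]
        exact h5 _ (by omega) (by omega) (Ne.symm h9)
    have hall : ∀ l < n, l + 2 < n ∨ l = n - 2 ∨ l = n - 1 := by
      intro l hl
      omega
    rw [e1] at f1
    rw [e2] at f2
    generalize xc n V b = δ at *
    rcases h4 with rfl | rfl
    · refine ⟨(k - a, 2 * n - 4 - k - b, 1), ?_, ?_⟩
      · rw [mem_diam]
        dsimp only
        omega
      · intro l hl
        rcases hall l hl with h9 | h9 | h9
        · rw [h6 l h9, ← h7]
          rw [fD_one]
          split_ifs <;> omega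
        · subst h9
          rw [fD_one]
          split_ifs at * <;> omega
        · subst h9
          rw [fD_one]
          split_ifs at * <;> omega
    · refine ⟨(k - a, b - k - 1, 0), ?_, ?_⟩
      · rw [mem_diam]
        dsimp only
        omega
      · intro l hl
        rcases hall l hl with h9 | h9 | h9
        · rw [h6 l h9, ← h7]
          rw [fD_zero]
          split_ifs <;> omega
        · subst h9
          rw [fD_zero]
          split_ifs at * <;> omega
        · subst h9
          rw [fD_zero]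
          split_ifs at * <;> omega
  obtain ⟨a, b, ha, hb, hab, h3, h4, h5⟩ := h2
  rcases Nat.lt_or_gt_of_ne hab with h | h
  · exact key a b h hb h3 h4 h5
  · exact key b a h ha h4 h3 (fun i hi h6 h7 => h5 i hi h7 h6)

/-! ### the values are roots -/

/-- root with given height -/
def Good (n : ℕ) (V : ℕ → ℤ) (h : ℕ) : Prop :=
  IsRoot (CartanMatrix.D n) (fun i : Fin n => V i) ∧ ∑ i : Fin n, V i = h

lemma step (n : ℕ) (hn : 4 ≤ n) (V W : ℕ → ℤ) (h j : ℕ) (hj : j < n) (hV : Good n V h)
    (hW : ∀ l < n, W l = V l + if l = j then 1 else 0)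
    (hc : (if j + 1 < n then xc n V j - xc n V (j + 1) else
      xc n V (n - 2) + xc n V (n - 1)) = -1) : Good n W (h + 1) := by
  obtain ⟨h1, h2⟩ := hV
  constructor
  · have h3 := IsRoot.reflect ⟨j, hj⟩ _ h1
    rw [colF n hn V ⟨j, hj⟩, hc] at h3
    have h4 : (fun i : Fin n => W i) = (fun i : Fin n => V i) - Pi.single ⟨j, hj⟩ (-1) := by
      funext i
      rw [Pi.sub_apply, Pi.single_apply, hW i i.2]
      simp only [Fin.ext_iff]
      split_ifs <;> ring
    rw [h4]
    exact h3
  · have h3 : ∑ i : Fin n, W i = ∑ i : Fin n, (V i + if i = ⟨j, hj⟩ then 1 else 0) := by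
      refine Finset.sum_congr rfl fun i _ => ?_
      rw [hW i i.2]
      simp only [Fin.ext_iff]
    rw [h3, Finset.sum_add_distrib, h2, Finset.sum_ite_eq', if_pos (Finset.mem_univ _)]
    push_cast
    rfl

/-- `e_r - e_j` -/
def Rf (r j l : ℕ) : ℤ := if r ≤ l ∧ l < j then 1 else 0

/-- `e_r + e_s` -/
def Sf (n r s l : ℕ) : ℤ :=
  if l < r then 0
  else if l + 2 < n then (if l < s then 1 else 2)
  else if l + 2 = n then (if s + 2 ≤ n then 1 else 0)
  else 1

lemma goodR (n : ℕ) (hn : 4 ≤ n) (r : ℕ) : ∀ t : ℕ, r + t + 1 < n →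
    Good n (Rf r (r + t + 1)) (t + 1) := by
  intro t
  induction t with
  | zero =>
    intro h
    have h1 : (fun i : Fin n => Rf r (r + 0 + 1) i) = Pi.single (⟨r, by omega⟩ : Fin n) 1 := by
      funext i
      rw [Pi.single_apply]
      unfold Rf
      simp only [Fin.ext_iff]
      refine if_congr ?_ rfl rfl
      omega
    constructor
    · rw [h1]
      exact IsRoot.simple _
    · have h2 : ∑ i : Fin n, Rf r (r + 0 + 1) i =
          ∑ i : Fin n, (Pi.single (⟨r, by omega⟩ : Fin n) (1 : ℤ) : Fin n → ℤ) i :=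
        Finset.sum_congr rfl fun i _ => congrFun h1 i
      rw [h2, Finset.sum_pi_single', if_pos (Finset.mem_univ _)]
      simp
  | succ t ih =>
    intro h
    refine step n hn (Rf r (r + t + 1)) _ (t + 1) (r + t + 1) (by omega) (ih (by omega)) ?_ ?_
    · intro l _
      unfold Rf
      split_ifs <;> omega
    · unfold xc Rf
      grind (splits := 40)

lemma goodS (n : ℕ) (hn : 4 ≤ n) (r : ℕ) (hr : r + 2 < n) : ∀ t : ℕ, r + t + 1 < n →
    Good n (Sf n r (n - 1 - t)) (n - 1 - r + t) := by
  intro t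
  induction t with
  | zero =>
    intro h
    have h1 := goodR n hn r (n - 3 - r) (by omega)
    have h2 := step n hn (Rf r (r + (n - 3 - r) + 1)) (Sf n r (n - 1 - 0)) _ (n - 1) (by omega) h1
      (by
        intro l hl
        unfold Rf Sf
        split_ifs <;> omega) (by
        unfold xc Rf
        grind (splits := 40))
    have h3 : n - 1 - r + 0 = n - 3 - r + 1 + 1 := by omega
    rw [h3]
    exact h2
  | succ t ih =>
    intro h
    have h1 := ih (by omega)
    refine step n hn (Sf n r (n - 1 - t)) _ (n - 1 - r + t) (n - 1 - (t + 1)) (by omega) h1 ?_ ?_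
    · intro l _
      unfold Sf
      split_ifs <;> omega
    · unfold xc Sf
      grind (splits := 60)

lemma good (n k : ℕ) (hn : 4 ≤ n) (hk : k + 2 < n) (p : ℕ × ℕ × ℕ)
    (hp : p ∈ diam (k + 1) (n - 1 - k)) : Good n (fD n k p) (p.1 + p.2.1 + p.2.2 + 1) := by
  obtain ⟨x, c, d⟩ := p
  rw [mem_diam] at hp
  dsimp only at hp
  obtain ⟨hx, ⟨rfl, hc⟩ | ⟨rfl, hc1, hc2⟩⟩ := hp
  · have h1 := goodR n hn (k - x) (x + c) (by omega)
    have h2 : fD n k (x, c, 0) = Rf (k - x) (k - x + (x + c) + 1) := by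
      funext l
      rw [fD_zero]
      unfold Rf
      refine if_congr ?_ rfl rfl
      omega
    rw [h2]
    exact h1
  · have h1 := goodS n hn (k - x) (by omega) (c + k + 3 - n) (by omega)
    have h2 : Good n (fD n k (x, c, 1)) (n - 1 - (k - x) + (c + k + 3 - n)) := by
      have h3 : ∀ l < n, fD n k (x, c, 1) l = Sf n (k - x) (n - 1 - (c + k + 3 - n)) l := by
        intro l hl
        rw [fD_one]
        unfold Sf
        split_ifs <;> omega
      have h4 : (fun i : Fin n => fD n k (x, c, 1) i) =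
          fun i : Fin n => Sf n (k - x) (n - 1 - (c + k + 3 - n)) i :=
        funext fun i => h3 i i.2
      refine ⟨?_, ?_⟩
      · rw [h4]
        exact h1.1
      · rw [Finset.sum_congr rfl fun i _ => congrFun h4 i]
        exact h1.2
    have h3 : n - 1 - (k - x) + (c + k + 3 - n) = x + c + 1 + 1 := by omega
    rw [h3] at h2
    exact h2

/-- the order -/
lemma order (n k : ℕ) (hn : 4 ≤ n) (hk : k + 2 < n) (p q : ℕ × ℕ × ℕ)
    (hp : p ∈ diam (k + 1) (n - 1 - k)) (hq : q ∈ diam (k + 1) (n - 1 - k)) :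
    (∀ l < n, fD n k p l ≤ fD n k q l) ↔ p ≤ q := by
  obtain ⟨x, c, d⟩ := p
  obtain ⟨x', c', d'⟩ := q
  rw [mem_diam] at hp hq
  dsimp only at hp hq
  simp only [Prod.mk_le_mk]
  constructor
  · intro h
    have h1 := h (k - x) (by omega)
    have h2 := h (n - 1) (by omega)
    have h3 := h (n - 2) (by omega)
    have h4 := h (min (k + c) (n - 2)) (by omega)
    have h5 := h (min (2 * n - 4 - k - c) (n - 2)) (by omega)
    obtain ⟨hx, ⟨rfl, hc⟩ | ⟨rfl, hc1, hc2⟩⟩ := hp <;>
      obtain ⟨hx', ⟨rfl, hc'⟩ | ⟨rfl, hc1', hc2'⟩⟩ := hq <;>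
      simp only [fD_zero, fD_one] at h1 h2 h3 h4 h5
    · refine ⟨?_, ?_, le_rfl⟩
      · split_ifs at h1 <;> omega
      · split_ifs at h4 <;> omega
    · refine ⟨?_, ?_, by omega⟩
      · split_ifs at h1 <;> omega
      · split_ifs at h3 <;> omega
    · exfalso
      split_ifs at h2 <;> omega
    · refine ⟨?_, ?_, le_rfl⟩
      · split_ifs at h1 <;> omega
      · split_ifs at h5 <;> omega
  · rintro ⟨h1, h2, h3⟩ l hl
    obtain ⟨hx, ⟨rfl, hc⟩ | ⟨rfl, hc1, hc2⟩⟩ := hp <;>
      obtain ⟨hx', ⟨rfl, hc'⟩ | ⟨rfl, hc1', hc2'⟩⟩ := hq <;>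
      simp only [fD_zero, fD_one] <;> split_ifs <;> omega

end MD

theorem modelD (n : ℕ) (k : Fin n) (hn : 4 ≤ n) (hk : k.1 + 2 < n) :
    Model (diam (k.1 + 1) (n - 1 - k.1)) (fun p => p.1 + p.2.1 + p.2.2)
      (Delta1 (CartanMatrix.D n) k) := by
  refine ⟨fun p i => MD.fD n k.1 p i, ?_, ?_, ?_⟩
  · intro p hp q hq
    rw [← MD.order n k.1 hn hk p q hp hq]
    constructor
    · intro h l hl
      exact h ⟨l, hl⟩
    · intro h i
      exact h i i.2
  · ext v
    constructor
    · rintro ⟨p, hp, rfl⟩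
      refine ⟨(MD.good n k.1 hn hk p hp).1, ?_⟩
      show MD.fD n k.1 p k.1 = 1
      obtain ⟨x, c, d⟩ := p
      rw [MD.mem_diam] at hp
      dsimp only at hp
      obtain ⟨hx, ⟨rfl, hc⟩ | ⟨rfl, hc1, hc2⟩⟩ := hp
      · rw [MD.fD_zero, if_pos (by omega)]
      · rw [MD.fD_one, if_neg (by omega), if_pos hk, if_pos (by omega)]
    · rintro ⟨h1, h2⟩
      have h3 := MD.root_two n hn v h1
      obtain ⟨p, hp, h4⟩ := MD.surj n k.1 hn hk (MD.ex v) h3 (by rw [MD.ex_val]; exact h2)
      refine ⟨p, hp, ?_⟩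
      funext i
      show MD.fD n k.1 p i = v i
      rw [← h4 i i.2, MD.ex_val]
  · intro p hp
    have h := (MD.good n k.1 hn hk p hp).2
    refine h.trans ?_
    push_cast
    ring

end Pool.Agent.TH657.Pan
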