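import Mathlib
import Pool.Agent.TH657.Pan.Defs

set_option autoImplicit false

/-!
# Delta(1) in type D, the two spin nodes (job 3216, helper999)
-/

namespace Pool.Agent.TH657.Pan

open Finset

/-! ### the sum over the neighbours -/

private lemma ds_sum_ind (N c : ℕ) (V : ℕ → ℤ) (P : ℕ → Prop) [DecidablePred P] (hc : c < N)
    (h : ∀ i < N, P i ↔ i = c) : ∑ i ∈ range N, (if P i then V i else 0) = V c := by
  rw [Finset.sum_eq_single c]
  · rw [if_pos ((h c hc).2 rfl)]
  · intro b hb hbc
    rw [if_neg]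
    intro hP
    exact hbc ((h b (mem_range.1 hb)).1 hP)
  · intro h'
    exact absurd (mem_range.2 hc) h'

private lemma ds_sum_zero (N : ℕ) (V : ℕ → ℤ) (P : ℕ → Prop) [DecidablePred P]
    (h : ∀ i < N, ¬ P i) : ∑ i ∈ range N, (if P i then V i else 0) = 0 :=
  Finset.sum_eq_zero fun i hi => if_neg (h i (mem_range.1 hi))

/-- the sum of the values at the neighbours of `j` in the diagram of type `D (m + 2)` -/
private def dsNb (m : ℕ) (V : ℕ → ℤ) (j : ℕ) : ℤ :=
  (if 1 ≤ j ∧ j ≤ m then V (j - 1) else 0) + (if j < m then V (j + 1) else 0) +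
    (if j + 1 = m then V (m + 1) else 0) + (if j = m + 1 then V (m - 1) else 0)

private lemma ds_sum (m : ℕ) (hm : 2 ≤ m) (V : ℕ → ℤ) (j : Fin (m + 2)) :
    ∑ i : Fin (m + 2), V i * CartanMatrix.D (m + 2) i j = 2 * V j - dsNb m V j := by
  have h1 : ∀ i : Fin (m + 2), V i * CartanMatrix.D (m + 2) i j =
      (fun i : ℕ => 2 * (if i = (j : ℕ) then V i else 0) -
        ((if i + 1 = (j : ℕ) ∧ (j : ℕ) ≤ m then V i else 0) +
        (if i = (j : ℕ) + 1 ∧ (j : ℕ) < m then V i else 0) +
        (if i = m + 1 ∧ (j : ℕ) + 1 = m then V i else 0) +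
        (if i + 1 = m ∧ (j : ℕ) = m + 1 then V i else 0))) (i : ℕ) := by
    intro i
    have hi := i.2
    have hj := j.2
    simp only [CartanMatrix.D, Matrix.of_apply, Fin.ext_iff]
    split_ifs <;> omega
  rw [Finset.sum_congr rfl fun i _ => h1 i, Fin.sum_univ_eq_sum_range (fun i : ℕ =>
    2 * (if i = (j : ℕ) then V i else 0) -
        ((if i + 1 = (j : ℕ) ∧ (j : ℕ) ≤ m then V i else 0) +
        (if i = (j : ℕ) + 1 ∧ (j : ℕ) < m then V i else 0) +
        (if i = m + 1 ∧ (j : ℕ) + 1 = m then V i else 0) +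
        (if i + 1 = m ∧ (j : ℕ) = m + 1 then V i else 0))) (m + 2)]
  rw [Finset.sum_sub_distrib, Finset.sum_add_distrib, Finset.sum_add_distrib,
    Finset.sum_add_distrib, ← Finset.mul_sum]
  have hj := j.2
  rw [ds_sum_ind (m + 2) j V (fun i => i = (j : ℕ)) hj (fun i _ => Iff.rfl)]
  congr 1
  unfold dsNb
  congr 1
  · congr 1
    · congr 1
      · split_ifs with h
        · exact ds_sum_ind (m + 2) (j - 1) V _ (by omega) (fun i hi => by omega)
        · exact ds_sum_zero (m + 2) V _ (fun i hi => by omega)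
      · split_ifs with h
        · exact ds_sum_ind (m + 2) (j + 1) V _ (by omega) (fun i hi => by omega)
        · exact ds_sum_zero (m + 2) V _ (fun i hi => by omega)
    · split_ifs with h
      · exact ds_sum_ind (m + 2) (m + 1) V _ (by omega) (fun i hi => by omega)
      · exact ds_sum_zero (m + 2) V _ (fun i hi => by omega)
  · split_ifs with h
    · exact ds_sum_ind (m + 2) (m - 1) V _ (by omega) (fun i hi => by omega)
    · exact ds_sum_zero (m + 2) V _ (fun i hi => by omega)

private lemma ds_reflect (m : ℕ) (hm : 2 ≤ m) (V : ℕ → ℤ) (j : Fin (m + 2)) :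
    (fun i : Fin (m + 2) => V i) - Pi.single j
      (∑ i : Fin (m + 2), (fun i : Fin (m + 2) => V i) i * CartanMatrix.D (m + 2) i j) =
    fun i : Fin (m + 2) => if (i : ℕ) = (j : ℕ) then dsNb m V j - V j else V i := by
  funext i
  rw [Pi.sub_apply]
  simp only []
  rw [ds_sum m hm V j]
  by_cases h : i = j
  · subst h
    rw [Pi.single_eq_same, if_pos rfl]
    ring
  · rw [Pi.single_eq_of_ne h, if_neg (fun h' => h (Fin.ext h')), sub_zero]

/-! ### the partial sums of the usual coordinates -/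

/-- partial sums -/
private def dsS (m : ℕ) (V : ℕ → ℤ) (i : ℕ) : ℤ :=
  if i < m then V i else if i = m then V m + V (m + 1) else 2 * V (m + 1)

/-- the shape of the roots -/
private def dsP (N : ℕ) (S : ℕ → ℤ) : Prop :=
  ∃ (r s : ℕ) (ε δ : ℤ), r < s ∧ s ≤ N ∧ (ε = 1 ∨ ε = -1) ∧ (δ = 1 ∨ δ = -1) ∧
    ∀ i ≤ N, S i = (if r ≤ i then ε else 0) + (if s ≤ i then δ else 0)

private lemma ds_swap (N j : ℕ) (S S' : ℕ → ℤ) (hj : j < N) (hP : dsP N S)
    (hS' : ∀ i ≤ N, i ≠ j → S' i = S i)
    (hj' : S' j = (if j = 0 then 0 else S (j - 1)) + S (j + 1) - S j) : dsP N S' := by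
  obtain ⟨r, s, ε, δ, hrs, hs, hε, hδ, h⟩ := hP
  have e1 := h j hj.le
  have e2 := h (j + 1) hj
  have e3 := h (j - 1) (by omega)
  rw [e1, e2, e3] at hj'
  have key : ∀ (r' s' : ℕ) (ε' δ' : ℤ), r' < s' → s' ≤ N → (ε' = 1 ∨ ε' = -1) →
      (δ' = 1 ∨ δ' = -1) →
      (∀ i ≤ N, i ≠ j → (if r ≤ i then ε else 0) + (if s ≤ i then δ else 0) =
        (if r' ≤ i then ε' else 0) + (if s' ≤ i then δ' else 0)) →
      S' j = (if r' ≤ j then ε' else 0) + (if s' ≤ j then δ' else 0) → dsP N S' := by
    intro r' s' ε' δ' a1 a2 a3 a4 a5 a6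
    refine ⟨r', s', ε', δ', a1, a2, a3, a4, fun i hi => ?_⟩
    by_cases hij : i = j
    · rw [hij, a6]
    · rw [hS' i hi hij, h i hi, a5 i hi hij]
  by_cases c1 : r = j
  · by_cases c2 : s = j + 1
    · refine key r s δ ε hrs hs hδ hε (fun i hi hij => ?_) ?_
      · split_ifs <;> omega
      · rw [hj']; split_ifs <;> omega
    · refine key (j + 1) s ε δ (by omega) hs hε hδ (fun i hi hij => ?_) ?_
      · split_ifs <;> omega
      · rw [hj']; split_ifs <;> omega
  · by_cases c2 : r = j + 1
    · refine key j s ε δ (by omega) hs hε hδ (fun i hi hij => ?_) ?_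
      · split_ifs <;> omega
      · rw [hj']; split_ifs <;> omega
    · by_cases c3 : s = j
      · refine key r (j + 1) ε δ (by omega) (by omega) hε hδ (fun i hi hij => ?_) ?_
        · split_ifs <;> omega
        · rw [hj']; split_ifs <;> omega
      · by_cases c4 : s = j + 1
        · refine key r j ε δ (by omega) (by omega) hε hδ (fun i hi hij => ?_) ?_
          · split_ifs <;> omega
          · rw [hj']; split_ifs <;> omega
        · refine key r s ε δ hrs hs hε hδ (fun i hi hij => rfl) ?_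
          rw [hj']; split_ifs <;> omega

private lemma ds_neg (m : ℕ) (hm : 1 ≤ m) (S S' : ℕ → ℤ) (hP : dsP (m + 1) S)
    (hS' : ∀ i < m, S' i = S i)
    (h1 : S' m = S (m - 1) + S m - S (m + 1))
    (h2 : S' (m + 1) = 2 * S (m - 1) - S (m + 1)) : dsP (m + 1) S' := by
  obtain ⟨r, s, ε, δ, hrs, hs, hε, hδ, h⟩ := hP
  have e1 := h m (by omega)
  have e2 := h (m + 1) (by omega)
  have e3 := h (m - 1) (by omega)
  rw [e1, e2, e3] at h1
  rw [e2, e3] at h2
  have key : ∀ (r' s' : ℕ) (ε' δ' : ℤ), r' < s' → s' ≤ m + 1 → (ε' = 1 ∨ ε' = -1) →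
      (δ' = 1 ∨ δ' = -1) →
      (∀ i < m, (if r ≤ i then ε else 0) + (if s ≤ i then δ else 0) =
        (if r' ≤ i then ε' else 0) + (if s' ≤ i then δ' else 0)) →
      S' m = (if r' ≤ m then ε' else 0) + (if s' ≤ m then δ' else 0) →
      S' (m + 1) = (if r' ≤ m + 1 then ε' else 0) + (if s' ≤ m + 1 then δ' else 0) →
      dsP (m + 1) S' := by
    intro r' s' ε' δ' a1 a2 a3 a4 a5 a6 a7
    refine ⟨r', s', ε', δ', a1, a2, a3, a4, fun i hi => ?_⟩
    rcases lt_trichotomy i m with hij | hij | hij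
    · rw [hS' i hij, h i hi, a5 i hij]
    · rw [hij, a6]
    · have : i = m + 1 := by omega
      rw [this, a7]
  by_cases c1 : s = m + 1
  · by_cases c2 : r = m
    · refine key r s (-δ) (-ε) hrs hs (by omega) (by omega) (fun i hi => ?_) ?_ ?_
      · split_ifs <;> omega
      · rw [h1]; split_ifs <;> omega
      · rw [h2]; split_ifs <;> omega
    · refine key r m ε (-δ) (by omega) (by omega) hε (by omega) (fun i hi => ?_) ?_ ?_
      · split_ifs <;> omega
      · rw [h1]; split_ifs <;> omega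
      · rw [h2]; split_ifs <;> omega
  · by_cases c2 : s = m
    · refine key r (m + 1) ε (-δ) (by omega) (by omega) hε (by omega) (fun i hi => ?_) ?_ ?_
      · split_ifs <;> omega
      · rw [h1]; split_ifs <;> omega
      · rw [h2]; split_ifs <;> omega
    · refine key r s ε δ hrs hs hε hδ (fun i hi => rfl) ?_ ?_
      · rw [h1]; split_ifs <;> omega
      · rw [h2]; split_ifs <;> omega

private lemma dsS_lt (m : ℕ) (V : ℕ → ℤ) (i : ℕ) (h : i < m) : dsS m V i = V i := by
  unfold dsS; rw [if_pos h]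

private lemma dsS_m (m : ℕ) (V : ℕ → ℤ) : dsS m V m = V m + V (m + 1) := by
  unfold dsS; rw [if_neg (lt_irrefl m), if_pos rfl]

private lemma dsS_m1 (m : ℕ) (V : ℕ → ℤ) : dsS m V (m + 1) = 2 * V (m + 1) := by
  unfold dsS; rw [if_neg (by omega), if_neg (by omega)]

private lemma ds_upd (m j : ℕ) (hm : 2 ≤ m) (hj : j ≤ m) (V V' : ℕ → ℤ)
    (h1 : ∀ i, i ≠ j → V' i = V i) (h2 : V' j = dsNb m V j - V j) :
    dsS m V' j = (if j = 0 then 0 else dsS m V (j - 1)) + dsS m V (j + 1) - dsS m V j := by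
  unfold dsNb at h2
  rcases Nat.eq_zero_or_pos j with rfl | hj0
  · rw [if_neg (by omega), if_pos (by omega), if_neg (by omega), if_neg (by omega)] at h2
    rw [dsS_lt m V' 0 (by omega), dsS_lt m V (0 + 1) (by omega), dsS_lt m V 0 (by omega),
      if_pos rfl, h2]
    ring
  · rw [if_neg (show ¬ j = 0 by omega), dsS_lt m V (j - 1) (by omega)]
    rw [if_pos (show 1 ≤ j ∧ j ≤ m by omega), if_neg (show ¬ j = m + 1 by omega)] at h2
    rcases lt_trichotomy (j + 1) m with c | c | c
    · rw [if_pos (show j < m by omega), if_neg (show ¬ j + 1 = m by omega)] at h2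
      rw [dsS_lt m V' j (by omega), dsS_lt m V (j + 1) c, dsS_lt m V j (by omega), h2]
      ring
    · subst c
      rw [if_pos (show j < j + 1 by omega), if_pos rfl] at h2
      rw [dsS_lt (j + 1) V' j (by omega), dsS_m, dsS_lt (j + 1) V j (by omega), h2]
      ring
    · have c' : j = m := by omega
      subst c'
      rw [if_neg (show ¬ j < j by omega), if_neg (show ¬ j + 1 = j by omega)] at h2
      rw [dsS_m, dsS_m, dsS_m1, h2, h1 (j + 1) (by omega)]
      ring

private lemma ds_upd2 (m : ℕ) (hm : 2 ≤ m) (V V' : ℕ → ℤ)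
    (h1 : ∀ i, i ≠ m + 1 → V' i = V i) (h2 : V' (m + 1) = dsNb m V (m + 1) - V (m + 1)) :
    dsS m V' m = dsS m V (m - 1) + dsS m V m - dsS m V (m + 1) ∧
    dsS m V' (m + 1) = 2 * dsS m V (m - 1) - dsS m V (m + 1) := by
  unfold dsNb at h2
  rw [if_neg (by omega), if_neg (by omega), if_neg (by omega), if_pos rfl] at h2
  rw [dsS_m, dsS_m, dsS_m1, dsS_m1, dsS_lt m V (m - 1) (by omega), h2, h1 m (by omega)]
  constructor <;> ring

/-- extension by zero -/
private def dsExt {n : ℕ} (v : Fin n → ℤ) (i : ℕ) : ℤ := if h : i < n then v ⟨i, h⟩ else 0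

private lemma dsExt_val {n : ℕ} (v : Fin n → ℤ) : (fun i : Fin n => dsExt v i) = v := by
  funext i
  unfold dsExt
  rw [dif_pos i.2]

private lemma ds_shape (m : ℕ) (hm : 2 ≤ m) (v : Fin (m + 2) → ℤ)
    (hv : IsRoot (CartanMatrix.D (m + 2)) v) : dsP (m + 1) (dsS m (dsExt v)) := by
  induction hv with
  | simple i =>
    have he : ∀ a : ℕ, a < m + 2 → dsExt (Pi.single i (1 : ℤ) : Fin (m + 2) → ℤ) a =
        if a = (i : ℕ) then 1 else 0 := by
      intro a ha
      unfold dsExt
      rw [dif_pos ha]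
      by_cases h : a = (i : ℕ)
      · rw [if_pos h]
        have : (⟨a, ha⟩ : Fin (m + 2)) = i := Fin.ext h
        rw [this, Pi.single_eq_same]
      · rw [if_neg h, Pi.single_eq_of_ne (fun h' => h (congrArg Fin.val h'))]
    have hi := i.2
    have em := he m (by omega)
    have em1 := he (m + 1) (by omega)
    by_cases c : (i : ℕ) ≤ m
    · refine ⟨i, i + 1, 1, -1, by omega, by omega, Or.inl rfl, Or.inr rfl, fun a ha => ?_⟩
      have ea := he a (by omega)
      unfold dsS
      rw [ea, em, em1]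
      split_ifs <;> omega
    · refine ⟨m, m + 1, 1, 1, by omega, by omega, Or.inl rfl, Or.inl rfl, fun a ha => ?_⟩
      have ea := he a (by omega)
      unfold dsS
      rw [ea, em, em1]
      split_ifs <;> omega
  | reflect j v hv ih =>
    have h1 := ds_reflect m hm (dsExt v) j
    rw [dsExt_val v] at h1
    rw [h1]
    set V := dsExt v with hV
    set V' : ℕ → ℤ := fun a => if a = (j : ℕ) then dsNb m V j - V j else V a with hV'
    have hS : ∀ i ≤ m + 1, dsS m (dsExt fun i : Fin (m + 2) =>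
        if (i : ℕ) = (j : ℕ) then dsNb m V j - V j else V i) i = dsS m V' i := by
      intro i hi
      unfold dsS dsExt
      simp only [hV']
      split_ifs <;> omega
    have hV1 : ∀ i, i ≠ (j : ℕ) → V' i = V i := fun i hi => by
      simp only [hV']
      rw [if_neg hi]
    have hV2 : V' (j : ℕ) = dsNb m V j - V j := by
      simp only [hV']
      rw [if_pos trivial]
    have hmain : dsP (m + 1) (dsS m V') := by
      have hj := j.2
      by_cases c : (j : ℕ) ≤ m
      · refine ds_swap (m + 1) j (dsS m V) (dsS m V') (by omega) ih (fun i hi hij => ?_)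
          (ds_upd m j hm c V V' hV1 hV2)
        unfold dsS
        simp only [hV']
        split_ifs <;> omega
      · have c2 : (j : ℕ) = m + 1 := by omega
        rw [c2] at hV1 hV2
        obtain ⟨u1, u2⟩ := ds_upd2 m hm V V' hV1 hV2
        refine ds_neg m (by omega) (dsS m V) (dsS m V') ih (fun i hi => ?_) u1 u2
        rw [dsS_lt m _ i hi, dsS_lt m _ i hi, hV1 i (by omega)]
    obtain ⟨r, s, ε, δ, a1, a2, a3, a4, a5⟩ := hmain
    exact ⟨r, s, ε, δ, a1, a2, a3, a4, fun i hi => by rw [hS i hi, a5 i hi]⟩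

/-! ### the roots -/

/-- the root `e_r + e_s` -/
private def dsV (m r s : ℕ) (i : ℕ) : ℤ :=
  if i < m then (if r ≤ i then 1 else 0) + (if s ≤ i then 1 else 0)
  else if i = m then (if s ≤ m then 1 else 0) else 1

private lemma ds_step (m : ℕ) (hm : 2 ≤ m) (V V' : ℕ → ℤ) (j : ℕ) (hj : j < m + 2)
    (h : IsRoot (CartanMatrix.D (m + 2)) (fun i : Fin (m + 2) => V i))
    (h1 : ∀ i < m + 2, i ≠ j → V' i = V i) (h2 : V' j = dsNb m V j - V j) :
    IsRoot (CartanMatrix.D (m + 2)) (fun i : Fin (m + 2) => V' i) := by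
  have h3 := IsRoot.reflect ⟨j, hj⟩ _ h
  rw [ds_reflect m hm V ⟨j, hj⟩] at h3
  convert h3 using 1
  funext i
  by_cases hij : (i : ℕ) = j
  · rw [if_pos hij, hij, h2]
  · rw [if_neg hij, h1 i i.2 hij]

private lemma nb_zero (m : ℕ) (hm : 2 ≤ m) (V : ℕ → ℤ) : dsNb m V 0 = V 1 := by
  unfold dsNb
  rw [if_neg (by omega), if_pos (by omega), if_neg (by omega), if_neg (by omega)]
  ring

private lemma nb_mid (m j : ℕ) (h0 : 1 ≤ j) (h1 : j + 1 < m) (V : ℕ → ℤ) :
    dsNb m V j = V (j - 1) + V (j + 1) := by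
  unfold dsNb
  rw [if_pos (by omega), if_pos (by omega), if_neg (by omega), if_neg (by omega)]
  ring

private lemma nb_pre (m j : ℕ) (h0 : 1 ≤ j) (h1 : j + 1 = m) (V : ℕ → ℤ) :
    dsNb m V j = V (j - 1) + V m + V (m + 1) := by
  unfold dsNb
  rw [if_pos (by omega), if_pos (by omega), if_pos h1, if_neg (by omega), h1]
  ring

private lemma nb_m (m : ℕ) (hm : 1 ≤ m) (V : ℕ → ℤ) : dsNb m V m = V (m - 1) := by
  unfold dsNb
  rw [if_pos (by omega), if_neg (by omega), if_neg (by omega), if_neg (by omega)]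
  ring

private lemma ds_root1 (m : ℕ) (hm : 2 ≤ m) (t : ℕ) (ht : t ≤ m) :
    IsRoot (CartanMatrix.D (m + 2)) (fun i : Fin (m + 2) => dsV m (m - t) (m + 1) i) := by
  induction t with
  | zero =>
    convert IsRoot.simple (⟨m + 1, by omega⟩ : Fin (m + 2)) using 1
    funext i
    have hi := i.2
    by_cases h : (i : ℕ) = m + 1
    · have : i = ⟨m + 1, by omega⟩ := Fin.ext h
      rw [this, Pi.single_eq_same]
      unfold dsV
      simp
    · rw [Pi.single_eq_of_ne (fun h' => h (congrArg Fin.val h'))]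
      unfold dsV
      split_ifs <;> omega
  | succ t ih =>
    have ih' := ih (by omega)
    obtain ⟨r, hr⟩ : ∃ r, r = m - (t + 1) := ⟨_, rfl⟩
    rw [show m - t = r + 1 by omega] at ih'
    rw [← hr]
    refine ds_step m hm _ _ r (by omega) ih' (fun i hi hij => ?_) ?_
    · unfold dsV
      split_ifs <;> omega
    · have v0 : dsV m r (m + 1) r = 1 := by unfold dsV; split_ifs <;> omega
      have v1 : dsV m (r + 1) (m + 1) r = 0 := by unfold dsV; split_ifs <;> omega
      have v4 : dsV m (r + 1) (m + 1) (m + 1) = 1 := by unfold dsV; split_ifs <;> omega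
      rw [v0, v1]
      rcases Nat.eq_zero_or_pos r with h0 | h0
      · have v3 : dsV m (r + 1) (m + 1) 1 = 1 := by unfold dsV; split_ifs <;> omega
        rw [h0] at v3 ⊢
        rw [nb_zero m hm, v3]
        norm_num
      · have v2 : dsV m (r + 1) (m + 1) (r - 1) = 0 := by unfold dsV; split_ifs <;> omega
        by_cases c : r + 1 < m
        · have v3 : dsV m (r + 1) (m + 1) (r + 1) = 1 := by unfold dsV; split_ifs <;> omega
          rw [nb_mid m r h0 c, v2, v3]
          norm_num
        · have v3 : dsV m (r + 1) (m + 1) m = 0 := by unfold dsV; split_ifs <;> omega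
          rw [nb_pre m r h0 (by omega), v2, v3, v4]
          norm_num

private lemma ds_root2 (m : ℕ) (hm : 2 ≤ m) (r : ℕ) (hr : r ≤ m) (u : ℕ) (hu : r + u ≤ m) :
    IsRoot (CartanMatrix.D (m + 2)) (fun i : Fin (m + 2) => dsV m r (m + 1 - u) i) := by
  induction u with
  | zero =>
    have := ds_root1 m hm (m - r) (by omega)
    rw [show m - (m - r) = r by omega] at this
    exact this
  | succ u ih =>
    have ih' := ih (by omega)
    obtain ⟨s, hs⟩ : ∃ s, s = m - u := ⟨_, rfl⟩
    rw [show m + 1 - u = s + 1 by omega] at ih'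
    rw [show m + 1 - (u + 1) = s by omega]
    refine ds_step m hm _ _ s (by omega) ih' (fun i hi hij => ?_) ?_
    · unfold dsV
      split_ifs <;> omega
    · have v2 : dsV m r (s + 1) (s - 1) = 1 := by unfold dsV; split_ifs <;> omega
      have v4 : dsV m r (s + 1) (m + 1) = 1 := by unfold dsV; split_ifs <;> omega
      rcases lt_trichotomy s m with c0 | c0 | c0
      · have v0 : dsV m r s s = 2 := by unfold dsV; split_ifs <;> omega
        have v1 : dsV m r (s + 1) s = 1 := by unfold dsV; split_ifs <;> omega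
        rw [v0, v1]
        by_cases c : s + 1 < m
        · have v3 : dsV m r (s + 1) (s + 1) = 2 := by unfold dsV; split_ifs <;> omega
          rw [nb_mid m s (by omega) c, v2, v3]
          norm_num
        · have v3 : dsV m r (s + 1) m = 1 := by unfold dsV; split_ifs <;> omega
          rw [nb_pre m s (by omega) (by omega), v2, v3, v4]
          norm_num
      · have v0 : dsV m r s s = 1 := by unfold dsV; split_ifs <;> omega
        have v1 : dsV m r (s + 1) s = 0 := by unfold dsV; split_ifs <;> omega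
        rw [v0, v1]
        rw [c0] at v2 ⊢
        rw [nb_m m (by omega), v2]
        norm_num
      · omega

private lemma ds_sum_le (r M : ℕ) :
    ∑ i ∈ range M, (if r ≤ i then (1 : ℤ) else 0) = ((M - r : ℕ) : ℤ) := by
  induction M with
  | zero => simp
  | succ M ih =>
    rw [sum_range_succ, ih]
    split_ifs <;> omega

private lemma ds_main (m : ℕ) (hm : 2 ≤ m) : Model (stair (m + 1)) (fun p => p.1 + p.2)
    (Delta1 (CartanMatrix.D (m + 2)) ⟨m + 1, by omega⟩) := by
  refine ⟨fun p => fun i : Fin (m + 2) => dsV m (m - p.2) (m + 1 - p.1) i, ?_, ?_, ?_⟩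
  · rintro ⟨a, b⟩ ⟨h1, h2⟩ ⟨a', b'⟩ ⟨h3, h4⟩
    simp only at h1 h2 h3 h4
    constructor
    · intro h
      rw [Pi.le_def] at h
      rw [Prod.mk_le_mk]
      simp only at h
      constructor
      · by_cases c : a = 0
        · omega
        · have h5 := h ⟨m + 1 - a, by omega⟩
          simp only [dsV] at h5
          split_ifs at h5 <;> omega
      · by_cases c : b = 0
        · omega
        · have h5 := h ⟨m - b, by omega⟩
          simp only [dsV] at h5
          split_ifs at h5 <;> omega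
    · intro h
      rw [Prod.mk_le_mk] at h
      rw [Pi.le_def]
      intro i
      have hi := i.2
      simp only [dsV]
      split_ifs <;> omega
  · ext v
    constructor
    · rintro ⟨⟨a, b⟩, ⟨h1, h2⟩, rfl⟩
      simp only at h1 h2
      refine ⟨ds_root2 m hm (m - b) (by omega) a (by omega), ?_⟩
      simp only [dsV]
      split_ifs <;> omega
    · rintro ⟨hv, hk⟩
      obtain ⟨r, s, ε, δ, a1, a2, a3, a4, a5⟩ := ds_shape m hm v hv
      have hval : ∀ i : Fin (m + 2), dsExt v i = v i := fun i => congrFun (dsExt_val v) i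
      have hm1 : dsExt v (m + 1) = 1 := (hval ⟨m + 1, by omega⟩).trans hk
      have e1 := a5 (m + 1) le_rfl
      unfold dsS at e1
      rw [if_neg (by omega), if_neg (by omega), hm1, if_pos (by omega), if_pos (by omega)] at e1
      have hε : ε = 1 := by omega
      have hδ : δ = 1 := by omega
      subst hε hδ
      refine ⟨(m + 1 - s, m - r), ⟨?_, ?_⟩, ?_⟩
      · simp only; omega
      · simp only; omega
      · funext i
        have hi := i.2
        have e2 := a5 i (by omega)
        rw [← hval i]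
        unfold dsS at e2
        simp only [dsV]
        rcases lt_trichotomy (i : ℕ) m with c | c | c
        · rw [if_pos c] at e2
          rw [if_pos c, e2, show m - (m - r) = r by omega, show m + 1 - (m + 1 - s) = s by omega]
        · rw [c] at e2 ⊢
          rw [if_neg (lt_irrefl m), if_pos rfl, hm1, if_pos (by omega)] at e2
          rw [if_neg (lt_irrefl m), if_pos rfl, show m + 1 - (m + 1 - s) = s by omega]
          omega
        · have c' : (i : ℕ) = m + 1 := by omega
          rw [c', hm1, if_neg (by omega), if_neg (by omega)]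
  · rintro ⟨a, b⟩ ⟨h1, h2⟩
    simp only at h1 h2
    simp only
    rw [Fin.sum_univ_eq_sum_range (fun i : ℕ => dsV m (m - b) (m + 1 - a) i) (m + 2),
      sum_range_succ, sum_range_succ]
    have e1 : ∑ i ∈ range m, dsV m (m - b) (m + 1 - a) i =
        ((m - (m - b) : ℕ) : ℤ) + ((m - (m + 1 - a) : ℕ) : ℤ) := by
      rw [← ds_sum_le, ← ds_sum_le, ← sum_add_distrib]
      refine sum_congr rfl fun i hi => ?_
      rw [mem_range] at hi
      unfold dsV
      rw [if_pos hi]
    rw [e1]
    unfold dsV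
    split_ifs <;> omega

/-! ### the automorphism of the diagram -/

private lemma ds_aut {n : ℕ} (M : Matrix (Fin n) (Fin n) ℤ) (σ : Equiv.Perm (Fin n))
    (hσ : ∀ i j, M (σ i) (σ j) = M i j) (v : Fin n → ℤ) (hv : IsRoot M v) :
    IsRoot M (v ∘ σ) := by
  induction hv with
  | simple i =>
    convert IsRoot.simple (σ.symm i) using 1
    funext a
    rw [Function.comp_apply]
    by_cases h : σ a = i
    · rw [h, Pi.single_eq_same, ← h, Equiv.symm_apply_apply, Pi.single_eq_same]
    · rw [Pi.single_eq_of_ne h, Pi.single_eq_of_ne]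
      rintro rfl
      exact h (Equiv.apply_symm_apply σ i)
  | reflect j v hv ih =>
    convert IsRoot.reflect (σ.symm j) _ ih using 1
    have e : ∑ i, (v ∘ σ) i * M i (σ.symm j) = ∑ i, v i * M i j := by
      rw [← Equiv.sum_comp σ (fun i => v i * M i j)]
      refine sum_congr rfl fun i _ => ?_
      rw [Function.comp_apply, ← hσ i (σ.symm j), Equiv.apply_symm_apply]
    rw [e]
    funext a
    rw [Function.comp_apply, Pi.sub_apply, Pi.sub_apply, Function.comp_apply]
    congr 1
    by_cases h : σ a = j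
    · rw [h, Pi.single_eq_same, ← h, Equiv.symm_apply_apply, Pi.single_eq_same]
    · rw [Pi.single_eq_of_ne h, Pi.single_eq_of_ne]
      rintro rfl
      exact h (Equiv.apply_symm_apply σ j)

private lemma ds_transport {n : ℕ} (M : Matrix (Fin n) (Fin n) ℤ) (σ : Equiv.Perm (Fin n))
    (hσ : ∀ i j, M (σ i) (σ j) = M i j) (hσ2 : ∀ i, σ (σ i) = i) (k : Fin n)
    {P : Type*} [PartialOrder P] (S : Set P) (rk : P → ℕ) (h : Model S rk (Delta1 M k)) :
    Model S rk (Delta1 M (σ k)) := by
  obtain ⟨f, h1, h2, h3⟩ := h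
  refine ⟨fun p => f p ∘ σ, ?_, ?_, ?_⟩
  · intro p hp q hq
    rw [← h1 p hp q hq, Pi.le_def, Pi.le_def]
    constructor
    · intro h i
      have := h (σ i)
      simp only [Function.comp_apply, hσ2] at this
      exact this
    · intro h i
      exact h (σ i)
  · ext v
    constructor
    · rintro ⟨p, hp, rfl⟩
      have h4 : f p ∈ Delta1 M k := by rw [← h2]; exact ⟨p, hp, rfl⟩
      refine ⟨ds_aut M σ hσ _ h4.1, ?_⟩
      show f p (σ (σ k)) = 1
      rw [hσ2]
      exact h4.2
    · rintro ⟨hv, hk⟩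
      have h4 : v ∘ σ ∈ Delta1 M k := ⟨ds_aut M σ hσ _ hv, hk⟩
      rw [← h2] at h4
      obtain ⟨p, hp, hfp⟩ := h4
      refine ⟨p, hp, ?_⟩
      funext i
      simp only [hfp, Function.comp_apply, hσ2]
  · intro p hp
    rw [← h3 p hp]
    exact Equiv.sum_comp σ (fun i => f p i)

theorem modelD_spin (n : ℕ) (k : Fin n) (hn : 4 ≤ n) (hk : n ≤ k.1 + 2) :
    Model (stair (n - 1)) (fun p => p.1 + p.2) (Delta1 (CartanMatrix.D n) k) := by
  obtain ⟨m, rfl⟩ : ∃ m, n = m + 2 := ⟨n - 2, by omega⟩
  have hm : 2 ≤ m := by omega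
  rw [show m + 2 - 1 = m + 1 by omega]
  have hmain := ds_main m hm
  by_cases c : k.1 = m + 1
  · have : k = ⟨m + 1, by omega⟩ := Fin.ext c
    rw [this]
    exact hmain
  · have hk2 := k.2
    have ck : k.1 = m := by omega
    have h1 := ds_transport (CartanMatrix.D (m + 2))
      (Equiv.swap (⟨m, by omega⟩ : Fin (m + 2)) ⟨m + 1, by omega⟩) ?_ ?_ _ _ _ hmain
    · have : k = (Equiv.swap (⟨m, by omega⟩ : Fin (m + 2)) ⟨m + 1, by omega⟩) ⟨m + 1, by omega⟩ := by
        rw [Equiv.swap_apply_right]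
        exact Fin.ext ck
      rw [this]
      exact h1
    · have hsw : ∀ i : Fin (m + 2), ((i : ℕ) = m ∧
          ((Equiv.swap (⟨m, by omega⟩ : Fin (m + 2)) ⟨m + 1, by omega⟩ i : Fin (m + 2)) : ℕ) =
            m + 1) ∨ ((i : ℕ) = m + 1 ∧
          ((Equiv.swap (⟨m, by omega⟩ : Fin (m + 2)) ⟨m + 1, by omega⟩ i : Fin (m + 2)) : ℕ) =
            m) ∨ ((i : ℕ) < m ∧
          ((Equiv.swap (⟨m, by omega⟩ : Fin (m + 2)) ⟨m + 1, by omega⟩ i : Fin (m + 2)) : ℕ) =
            i) := by
        intro i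
        have hi := i.2
        rcases lt_trichotomy (i : ℕ) m with h | h | h
        · refine Or.inr (Or.inr ⟨h, ?_⟩)
          rw [Equiv.swap_apply_of_ne_of_ne]
          · intro h'
            rw [h'] at h
            exact lt_irrefl _ h
          · intro h'
            rw [h'] at h
            simp only at h
            omega
        · refine Or.inl ⟨h, ?_⟩
          have : i = ⟨m, by omega⟩ := Fin.ext h
          rw [this, Equiv.swap_apply_left]
        · have h' : (i : ℕ) = m + 1 := by omega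
          refine Or.inr (Or.inl ⟨h', ?_⟩)
          have : i = ⟨m + 1, by omega⟩ := Fin.ext h'
          rw [this, Equiv.swap_apply_right]
      intro i j
      have hi := hsw i
      have hj := hsw j
      generalize Equiv.swap (⟨m, by omega⟩ : Fin (m + 2)) ⟨m + 1, by omega⟩ i = i' at hi ⊢
      generalize Equiv.swap (⟨m, by omega⟩ : Fin (m + 2)) ⟨m + 1, by omega⟩ j = j' at hj ⊢
      simp only [CartanMatrix.D, Matrix.of_apply, Fin.ext_iff]
      split_ifs <;> omega
    · intro i
      rw [Equiv.swap_apply_self]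

end Pool.Agent.TH657.Pan
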