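import Pool.Agent.TH657.Pan.Defs

set_option autoImplicit false

/-!
# Orbit averages of antichain sizes in the staircase (helper811)
-/

namespace Pool.Agent.TH657.Pan

namespace StairHom

/-- symmetrised membership in the upper ideal -/
def U (A : Set (ℕ × ℕ)) (x y : ℕ) : Prop :=
  ∃ a ∈ A, (a.1 ≤ x ∧ a.2 ≤ y) ∨ (a.2 ≤ x ∧ a.1 ≤ y)

/-- some element of `A` has a coordinate equal to `j` -/
def w (A : Set (ℕ × ℕ)) (j : ℕ) : Prop := ∃ a ∈ A, a.1 = j ∨ a.2 = j

theorem U_symm {A : Set (ℕ × ℕ)} {x y : ℕ} (h : U A x y) : U A y x := by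
  obtain ⟨a, ha, h | h⟩ := h
  · exact ⟨a, ha, Or.inr ⟨h.2, h.1⟩⟩
  · exact ⟨a, ha, Or.inl ⟨h.2, h.1⟩⟩

theorem U_mono {A : Set (ℕ × ℕ)} {x y x' y' : ℕ} (h : U A x y) (hx : x ≤ x') (hy : y ≤ y') :
    U A x' y' := by
  obtain ⟨a, ha, h⟩ := h
  refine ⟨a, ha, ?_⟩
  omega

theorem U_iff {n : ℕ} {A : Set (ℕ × ℕ)} (hA : A ⊆ stair n) {x y : ℕ} (hxy : x ≤ y) (hy : y < n) :
    U A x y ↔ (x, y) ∈ upIdeal (stair n) A := by
  constructor
  · rintro ⟨a, ha, h⟩
    have h1 : a.1 ≤ a.2 := (hA ha).1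
    refine ⟨⟨hxy, hy⟩, a, ha, ?_⟩
    rw [Prod.le_def]
    constructor
    · show a.1 ≤ x
      omega
    · show a.2 ≤ y
      omega
  · rintro ⟨-, a, ha, h⟩
    rw [Prod.le_def] at h
    exact ⟨a, ha, Or.inl h⟩

theorem mem_rev {n : ℕ} {A : Set (ℕ × ℕ)} (hA : A ⊆ stair n) {x y : ℕ} :
    (x, y) ∈ rev (stair n) A ↔ (x ≤ y ∧ y < n) ∧ ¬ U A x y ∧ (x + 1 < n → U A (x + 1) y) ∧
      (y + 1 < n → U A x (y + 1)) := by
  constructor
  · rintro ⟨⟨⟨hxy, hy⟩, hU⟩, hmax⟩
    have hxy' : x ≤ y := hxy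
    have hy' : y < n := hy
    have hb : y + 1 < n → U A x (y + 1) := by
      intro h
      by_contra hcon
      rw [U_iff hA (by omega) h] at hcon
      have h2 : ((x, y + 1) : ℕ × ℕ) ≤ (x, y) :=
        hmax ⟨⟨by show x ≤ y + 1; omega, h⟩, hcon⟩ (by simp)
      have h3 : y + 1 ≤ y := h2.2
      omega
    refine ⟨⟨hxy', hy'⟩, ?_, ?_, hb⟩
    · rw [U_iff hA hxy' hy']
      exact hU
    · intro h
      rcases Nat.lt_or_ge x y with hlt | hge
      · by_contra hcon
        rw [U_iff hA (by omega) hy'] at hcon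
        have h2 : ((x + 1, y) : ℕ × ℕ) ≤ (x, y) :=
          hmax ⟨⟨by show x + 1 ≤ y; omega, hy'⟩, hcon⟩ (by simp)
        have h3 : x + 1 ≤ x := h2.1
        omega
      · have e : x = y := by omega
        subst e
        exact U_symm (hb h)
  · rintro ⟨⟨hxy, hy⟩, hU, h1, h2⟩
    refine ⟨⟨⟨hxy, hy⟩, ?_⟩, ?_⟩
    · rwa [← U_iff hA hxy hy]
    · rintro ⟨x', y'⟩ ⟨⟨hxy', hy'⟩, hU'⟩ hle
      have hxy'' : x' ≤ y' := hxy'
      have hy'' : y' < n := hy'
      have hx1 : x ≤ x' := hle.1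
      have hy1 : y ≤ y' := hle.2
      rw [← U_iff hA hxy'' hy''] at hU'
      rw [Prod.le_def]
      constructor
      · show x' ≤ x
        by_contra hcon
        exact hU' (U_mono (h1 (by omega)) (by omega) hy1)
      · show y' ≤ y
        by_contra hcon
        exact hU' (U_mono (h2 (by omega)) hx1 (by omega))

theorem w_rev_iff {n : ℕ} {A : Set (ℕ × ℕ)} (hA : A ⊆ stair n) {j : ℕ} (hj : j < n) :
    w (rev (stair n) A) j ↔ ∃ x, x < n ∧ ¬ U A x j ∧ (x + 1 < n → U A (x + 1) j) ∧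
      (j + 1 < n → U A x (j + 1)) := by
  constructor
  · rintro ⟨⟨x, y⟩, hxy, h⟩
    rw [mem_rev hA] at hxy
    obtain ⟨⟨h1, h2⟩, h3, h4, h5⟩ := hxy
    rcases h with h | h
    · have e : x = j := h
      subst e
      exact ⟨y, h2, fun h => h3 (U_symm h), fun h => U_symm (h5 h), fun h => U_symm (h4 h)⟩
    · have e : y = j := h
      subst e
      exact ⟨x, by omega, h3, h4, h5⟩
  · rintro ⟨x, hx, h3, h4, h5⟩
    rcases Nat.lt_or_ge j x with hlt | hge
    · refine ⟨(j, x), ?_, Or.inl rfl⟩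
      rw [mem_rev hA]
      exact ⟨⟨hlt.le, hx⟩, fun h => h3 (U_symm h), fun h => U_symm (h5 h), fun h => U_symm (h4 h)⟩
    · refine ⟨(x, j), ?_, Or.inr rfl⟩
      rw [mem_rev hA]
      exact ⟨⟨hge, hj⟩, h3, h4, h5⟩

/-- the largest `x < n` above `b` with `¬ U A x j` -/
theorem exists_last {n : ℕ} {A : Set (ℕ × ℕ)} {b j : ℕ} (hb : b < n) (h : ¬ U A b j) :
    ∃ x, b ≤ x ∧ x < n ∧ ¬ U A x j ∧ (x + 1 < n → U A (x + 1) j) := by
  classical
  have key : ∀ m b : ℕ, b < n → n ≤ b + m → ¬ U A b j →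
      ∃ x, b ≤ x ∧ x < n ∧ ¬ U A x j ∧ (x + 1 < n → U A (x + 1) j) := by
    intro m
    induction m with
    | zero => intro b hb h1; omega
    | succ m ih =>
      intro b hb h1 h2
      by_cases h3 : b + 1 < n → U A (b + 1) j
      · exact ⟨b, le_rfl, hb, h2, h3⟩
      · push Not at h3
        obtain ⟨x, hx1, hx2, hx3, hx4⟩ := ih (b + 1) h3.1 (by omega) h3.2
        exact ⟨x, by omega, hx2, hx3, hx4⟩
  exact key n b hb (by omega) h

theorem w_rev_last {n : ℕ} {A : Set (ℕ × ℕ)} (hA : A ⊆ stair (n + 1)) :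
    w (rev (stair (n + 1)) A) n ↔ ¬ w A 0 := by
  rw [w_rev_iff hA (Nat.lt_succ_self n)]
  have e : U A 0 n ↔ w A 0 := by
    constructor
    · rintro ⟨a, ha, h⟩
      have h1 : a.1 ≤ a.2 := (hA ha).1
      exact ⟨a, ha, Or.inl (by omega)⟩
    · rintro ⟨a, ha, h⟩
      have h1 : a.1 ≤ a.2 := (hA ha).1
      have h2 : a.2 < n + 1 := (hA ha).2
      exact ⟨a, ha, Or.inl (by omega)⟩
  rw [← e]
  constructor
  · rintro ⟨x, -, hx, -, -⟩ h
    exact hx (U_mono h (by omega) le_rfl)
  · intro h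
    obtain ⟨x, -, h1, h2, h3⟩ := exists_last (Nat.succ_pos n) h
    exact ⟨x, h1, h2, h3, fun h => by omega⟩

theorem w_rev_step {n : ℕ} {A : Set (ℕ × ℕ)} (hA : A ⊆ stair n) (hAC : IsAntichain (· ≤ ·) A)
    {j : ℕ} (hj : j + 1 < n) : w (rev (stair n) A) j ↔ w A (j + 1) := by
  rw [w_rev_iff hA (by omega)]
  constructor
  · rintro ⟨x, hx, h1, -, h2⟩
    obtain ⟨a, ha, h⟩ := h2 hj
    refine ⟨a, ha, ?_⟩
    by_contra hcon
    exact h1 ⟨a, ha, by omega⟩
  · rintro ⟨a, ha, h⟩
    have ha1 : a.1 ≤ a.2 := (hA ha).1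
    have ha2 : a.2 < n := (hA ha).2
    -- comparable elements are equal
    have hcmp : ∀ a' ∈ A, a'.1 ≤ a.1 → a'.2 ≤ a.2 → a' = a := by
      intro a' ha' h1 h2
      by_contra hne
      exact hAC ha' ha hne (Prod.le_def.2 ⟨h1, h2⟩)
    obtain ⟨b, hb, hUb, hnU⟩ : ∃ b, b < n ∧ U A b (j + 1) ∧ ¬ U A b j := by
      rcases h with h | h
      · refine ⟨a.2, ha2, ⟨a, ha, by omega⟩, ?_⟩
        rintro ⟨a', ha', h'⟩
        have h1' : a'.1 ≤ a'.2 := (hA ha').1
        have e := hcmp a' ha' (by omega) (by omega)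
        rw [e] at h'
        omega
      · refine ⟨a.1, by omega, ⟨a, ha, by omega⟩, ?_⟩
        rintro ⟨a', ha', h'⟩
        have h1' : a'.1 ≤ a'.2 := (hA ha').1
        have e := hcmp a' ha' (by omega) (by omega)
        rw [e] at h'
        omega
    obtain ⟨x, h1, h2, h3, h4⟩ := exists_last hb hnU
    exact ⟨x, h2, h3, h4, fun _ => U_mono hUb h1 le_rfl⟩

theorem stair_finite (n : ℕ) : (stair n).Finite := by
  refine Set.Finite.subset ((Set.finite_Iio n).prod (Set.finite_Iio n)) ?_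
  rintro ⟨x, y⟩ ⟨h1, h2⟩
  have h1' : x ≤ y := h1
  have h2' : y < n := h2
  exact ⟨by show x < n; omega, h2'⟩

theorem stair_ncard (n : ℕ) : 2 * (stair n).ncard = n * (n + 1) := by
  induction n with
  | zero =>
    have : stair 0 = ∅ := by
      ext ⟨x, y⟩
      simp [stair]
    rw [this, Set.ncard_empty]
  | succ n ih =>
    have e : stair (n + 1) = stair n ∪ (fun x : ℕ => (x, n)) '' Set.Iio (n + 1) := by
      ext ⟨x, y⟩
      simp only [stair, Set.mem_ofPred_eq, Set.mem_union, Set.mem_image, Set.mem_Iio, Prod.mk.injEq]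
      constructor
      · rintro ⟨h1, h2⟩
        rcases Nat.lt_or_ge y n with h | h
        · exact Or.inl ⟨h1, h⟩
        · exact Or.inr ⟨x, by omega, rfl, by omega⟩
      · rintro (⟨h1, h2⟩ | ⟨z, h1, h2, h3⟩)
        · omega
        · omega
    have hd : Disjoint (stair n) ((fun x : ℕ => (x, n)) '' Set.Iio (n + 1)) := by
      rw [Set.disjoint_left]
      rintro ⟨x, y⟩ ⟨h1, h2⟩ ⟨z, -, hz⟩
      have h3 : n = y := congrArg Prod.snd hz
      have h4 : y < n := h2
      omega
    rw [e, Set.ncard_union_eq hd (stair_finite n) ((Set.finite_Iio _).image _),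
      Set.ncard_image_of_injective _ (fun x y h => congrArg Prod.fst h)]
    have : (Set.Iio (n + 1)).ncard = n + 1 := by
      rw [← Finset.coe_Iio, Set.ncard_coe_finset]
      simp
    rw [this, mul_add, ih]
    ring

open Classical in
/-- number of coordinates used -/
noncomputable def k (n : ℕ) (A : Set (ℕ × ℕ)) : ℕ :=
  ∑ j ∈ Finset.range n, if w A j then 1 else 0

open Classical in
theorem exists_delta {n : ℕ} {A : Set (ℕ × ℕ)} (hA : A ⊆ stair n) (hAC : IsAntichain (· ≤ ·) A) :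
    ∃ δ : ℕ, δ ≤ 1 ∧ k n A + δ = 2 * A.ncard := by
  have hfin : A.Finite := (stair_finite n).subset hA
  set F : Finset (ℕ × ℕ) := hfin.toFinset with hF
  have hmem : ∀ a, a ∈ F ↔ a ∈ A := fun a => hfin.mem_toFinset
  have hnest : ∀ a ∈ A, ∀ b ∈ A, a.1 ≤ b.1 → a.2 ≤ b.2 → a = b := by
    intro a ha b hb h1 h2
    by_contra hne
    exact hAC ha hb hne (Prod.le_def.2 ⟨h1, h2⟩)
  have hle : ∀ a ∈ A, a.1 ≤ a.2 := fun a ha => (hA ha).1
  have hlt : ∀ a ∈ A, a.2 < n := fun a ha => (hA ha).2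
  have hk : k n A = (F.image Prod.fst ∪ F.image Prod.snd).card := by
    unfold k
    rw [Finset.sum_boole, Nat.cast_id]
    refine congrArg Finset.card ?_
    apply Finset.ext
    intro j
    rw [Finset.mem_filter]
    simp only [Finset.mem_range, Finset.mem_union, Finset.mem_image, hmem, w]
    constructor
    · rintro ⟨-, a, ha, h | h⟩
      · exact Or.inl ⟨a, ha, h⟩
      · exact Or.inr ⟨a, ha, h⟩
    · rintro (⟨a, ha, h⟩ | ⟨a, ha, h⟩)
      · exact ⟨by have := hle a ha; have := hlt a ha; omega, a, ha, Or.inl h⟩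
      · exact ⟨by have := hle a ha; have := hlt a ha; omega, a, ha, Or.inr h⟩
  have h1 : (F.image Prod.fst).card = F.card := by
    apply Finset.card_image_of_injOn
    intro a ha b hb h
    have ha' := (hmem a).1 ha
    have hb' := (hmem b).1 hb
    rcases Nat.le_total a.2 b.2 with h' | h'
    · exact hnest a ha' b hb' (le_of_eq h) h'
    · exact (hnest b hb' a ha' (le_of_eq h.symm) h').symm
  have h2 : (F.image Prod.snd).card = F.card := by
    apply Finset.card_image_of_injOn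
    intro a ha b hb h
    have ha' := (hmem a).1 ha
    have hb' := (hmem b).1 hb
    rcases Nat.le_total a.1 b.1 with h' | h'
    · exact hnest a ha' b hb' h' (le_of_eq h)
    · exact (hnest b hb' a ha' h' (le_of_eq h.symm)).symm
  refine ⟨(F.image Prod.fst ∩ F.image Prod.snd).card, ?_, ?_⟩
  · rw [Finset.card_le_one]
    have hdiag : ∀ j ∈ F.image Prod.fst ∩ F.image Prod.snd, (j, j) ∈ A := by
      intro j hj
      rw [Finset.mem_inter, Finset.mem_image, Finset.mem_image] at hj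
      obtain ⟨⟨a, ha, ha2⟩, b, hb, hb2⟩ := hj
      have ha' := (hmem a).1 ha
      have hb' := (hmem b).1 hb
      have e1 := hle a ha'
      have e2 := hle b hb'
      have e : b = a := hnest b hb' a ha' (by omega) (by omega)
      have e3 : a = (j, j) := by
        apply Prod.ext
        · exact ha2
        · rw [← e]; exact hb2
      rw [← e3]; exact ha'
    intro i hi j hj
    have hi' := hdiag i hi
    have hj' := hdiag j hj
    rcases Nat.le_total i j with h | h
    · exact congrArg Prod.fst (hnest _ hi' _ hj' h h)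
    · exact (congrArg Prod.fst (hnest _ hj' _ hi' h h)).symm
  · rw [hk, Finset.card_union_add_card_inter, h1, h2, Set.ncard_eq_toFinset_card A hfin, ← hF]
    ring

theorem rev_subset {n : ℕ} (A : Set (ℕ × ℕ)) : rev (stair n) A ⊆ stair n := fun _ h => h.1.1

theorem rev_antichain {n : ℕ} (A : Set (ℕ × ℕ)) : IsAntichain (· ≤ ·) (rev (stair n) A) := by
  intro a ha b hb hne hle
  have hba := ha.2 hb.1 hle
  exact hne (le_antisymm hle hba)

theorem sum_shift {T : ℕ} {f : ℕ → ℕ} (h : f T = f 0) :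
    ∑ t ∈ Finset.range T, f (t + 1) = ∑ t ∈ Finset.range T, f t := by
  have h1 := Finset.sum_range_succ f T
  have h2 := Finset.sum_range_succ' f T
  omega

end StairHom

open StairHom

open Classical in
theorem stair_homomesy (n : ℕ) (hn : 0 < n) : Homomesy (stair n) (2 * n) := by
  refine ⟨stair_finite n, ?_⟩
  intro A hA hAC T hT
  obtain ⟨m, rfl⟩ : ∃ m, n = m + 1 := ⟨n - 1, by omega⟩
  set B : ℕ → Set (ℕ × ℕ) := fun t => (rev (stair (m + 1)))^[t] A with hB
  have hB0 : B 0 = A := rfl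
  have hBT : B T = B 0 := hT
  have hBs : ∀ t, B (t + 1) = rev (stair (m + 1)) (B t) := by
    intro t
    simp only [hB, Function.iterate_succ_apply']
  have hsub : ∀ t, B t ⊆ stair (m + 1) := by
    intro t
    cases t with
    | zero => exact hA
    | succ t => rw [hBs]; exact rev_subset _
  have hac : ∀ t, IsAntichain (· ≤ ·) (B t) := by
    intro t
    cases t with
    | zero => exact hAC
    | succ t => rw [hBs]; exact rev_antichain _
  let W : ℕ → ℕ → ℕ := fun j t => if w (B t) j then 1 else 0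
  have hWT : ∀ j, W j T = W j 0 := by
    intro j
    simp only [W, hBT]
  have hW1 : ∀ j t, j + 1 < m + 1 → W j (t + 1) = W (j + 1) t := by
    intro j t hj
    simp only [W, hBs, w_rev_step (hsub t) (hac t) hj]
  have hW2 : ∀ t, W m (t + 1) + W 0 t = 1 := by
    intro t
    simp only [W, hBs, w_rev_last (hsub t)]
    by_cases h : w (B t) 0 <;> simp [h]
  have hk : ∀ t, k (m + 1) (B t) = ∑ j ∈ Finset.range (m + 1), W j t := fun t => rfl
  have hkstep : ∀ t, k (m + 1) (B (t + 1)) + 2 * W 0 t = k (m + 1) (B t) + 1 := by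
    intro t
    rw [hk, hk, Finset.sum_range_succ, Finset.sum_range_succ' (fun j => W j t)]
    have e : ∑ j ∈ Finset.range m, W j (t + 1) = ∑ j ∈ Finset.range m, W (j + 1) t := by
      refine Finset.sum_congr rfl fun j hj => hW1 j t ?_
      have := Finset.mem_range.1 hj
      omega
    have := hW2 t
    omega
  choose δ hδ1 hδ2 using fun t => exists_delta (hsub t) (hac t)
  have hδstep : ∀ t, δ (t + 1) + δ t = 1 := by
    intro t
    have h1 := hδ1 t
    have h2 := hδ1 (t + 1)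
    have h3 := hδ2 t
    have h4 := hδ2 (t + 1)
    have h5 := hkstep t
    omega
  have hδT : δ T = δ 0 := by
    have h3 := hδ2 T
    have h4 := hδ2 0
    rw [hBT] at h3
    omega
  have hδsum : 2 * ∑ t ∈ Finset.range T, δ t = T := by
    have h1 : ∑ t ∈ Finset.range T, (δ (t + 1) + δ t) = T := by
      rw [Finset.sum_congr rfl (fun t _ => hδstep t)]
      simp
    rw [Finset.sum_add_distrib, sum_shift hδT] at h1
    omega
  have hP : ∀ j, j < m + 1 → ∑ t ∈ Finset.range T, W j t = ∑ t ∈ Finset.range T, W 0 t := by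
    intro j
    induction j with
    | zero => intro _; rfl
    | succ j ih =>
      intro hj
      rw [← ih (by omega), ← sum_shift (hWT j)]
      exact Finset.sum_congr rfl fun t _ => (hW1 j t hj).symm
  have hP0 : 2 * ∑ t ∈ Finset.range T, W 0 t = T := by
    have h1 : ∑ t ∈ Finset.range T, (W m (t + 1) + W 0 t) = T := by
      rw [Finset.sum_congr rfl (fun t _ => hW2 t)]
      simp
    rw [Finset.sum_add_distrib, sum_shift (hWT m), hP m (Nat.lt_succ_self m)] at h1
    omega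
  have hksum : 2 * ∑ t ∈ Finset.range T, k (m + 1) (B t) = (m + 1) * T := by
    have e : ∑ t ∈ Finset.range T, k (m + 1) (B t) =
        ∑ j ∈ Finset.range (m + 1), ∑ t ∈ Finset.range T, W j t := by
      simp only [hk]
      exact Finset.sum_comm
    rw [e, Finset.sum_congr rfl (fun j hj => hP j (Finset.mem_range.1 hj)), Finset.sum_const,
      Finset.card_range, smul_eq_mul,
      show ∀ s : ℕ, 2 * ((m + 1) * s) = (m + 1) * (2 * s) by intro s; ring, hP0]
  have hc : ∑ t ∈ Finset.range T, k (m + 1) (B t) + ∑ t ∈ Finset.range T, δ t =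
      2 * ∑ t ∈ Finset.range T, (B t).ncard := by
    rw [← Finset.sum_add_distrib, Finset.sum_congr rfl (fun t _ => hδ2 t), Finset.mul_sum]
  have hS := stair_ncard (m + 1)
  show 2 * (m + 1) * ∑ t ∈ Finset.range T, (B t).ncard = T * (stair (m + 1)).ncard
  have h4 : 4 * ∑ t ∈ Finset.range T, (B t).ncard = (m + 1) * T + T := by
    omega
  have h5 : 4 * (2 * (m + 1) * ∑ t ∈ Finset.range T, (B t).ncard) =
      4 * (T * (stair (m + 1)).ncard) := by
    calc 4 * (2 * (m + 1) * ∑ t ∈ Finset.range T, (B t).ncard)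
        = 2 * (m + 1) * (4 * ∑ t ∈ Finset.range T, (B t).ncard) := by ring
      _ = 2 * (m + 1) * ((m + 1) * T + T) := by rw [h4]
      _ = 2 * T * ((m + 1) * (m + 1 + 1)) := by ring
      _ = 2 * T * (2 * (stair (m + 1)).ncard) := by rw [hS]
      _ = 4 * (T * (stair (m + 1)).ncard) := by ring
  omega

end Pool.Agent.TH657.Pan
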