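import Mathlib
import Pool.Agent.TH657.Pan.ExceptE6
import Pool.Agent.TH657.Pan.ExceptE7
import Pool.Agent.TH657.Pan.ExceptE8
import Pool.Agent.TH657.Pan.ExceptFG

/-!
# The root posets Delta(1) of the exceptional types as explicit lists

This file collects `mem_delta1_E6`, `mem_delta1_E7`, `mem_delta1_E8`, `mem_delta1_F4` and
`mem_delta1_G2`.
-/
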